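import Pool.Agent.P.MP_a89d6d_nt.Z23.Defs

/-!
Algebraic properties of the functional: linearity, Newton expansion, the decomposition into
simple fractions and change of basis in the Gram determinant.
-/

namespace Pool.Agent.P.MP_a89d6d_nt.Z23

open Polynomial Finset Filter

theorem D_monic (K : ℕ) : (D K).Monic := monic_prod_of_monic _ _ fun _ _ => monic_X_add_C _

theorem D_natDegree (K : ℕ) : (D K).natDegree = K := by
  rw [D, natDegree_prod_of_monic _ _ fun _ _ => monic_X_add_C _]
  simp only [natDegree_X_add_C, sum_const, card_range, smul_eq_mul, mul_one]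

theorem W_monic (n : ℕ) : (W n).Monic := monic_prod_of_monic _ _ fun _ _ => monic_X_sub_C _

theorem W_natDegree (n : ℕ) : (W n).natDegree = n := by
  rw [W, natDegree_prod_of_monic _ _ fun _ _ => monic_X_sub_C _]
  simp only [natDegree_X_sub_C, sum_const, card_range, smul_eq_mul, mul_one]

namespace Core

theorem add_div {g : ℚ[X]} (hg : g.Monic) (P Q : ℚ[X]) : (P + Q) /ₘ g = P /ₘ g + Q /ₘ g := by
  refine (div_modByMonic_unique (P /ₘ g + Q /ₘ g) (P %ₘ g + Q %ₘ g) hg ⟨?_, ?_⟩).1
  · conv_rhs => rw [← modByMonic_add_div P g, ← modByMonic_add_div Q g]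
    ring
  · exact (degree_add_le _ _).trans_lt
      (max_lt (degree_modByMonic_lt P hg) (degree_modByMonic_lt Q hg))

theorem smul_div {g : ℚ[X]} (hg : g.Monic) (c : ℚ) (P : ℚ[X]) : (c • P) /ₘ g = c • (P /ₘ g) := by
  refine (div_modByMonic_unique (c • (P /ₘ g)) (c • (P %ₘ g)) hg ⟨?_, ?_⟩).1
  · conv_rhs => rw [← modByMonic_add_div P g]
    rw [smul_add, mul_smul_comm]
  · exact (degree_smul_le _ _).trans_lt (degree_modByMonic_lt P hg)

theorem res_add (K : ℕ) (P Q : ℚ[X]) (j : ℕ) : res K (P + Q) j = res K P j + res K Q j := by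
  simp only [res, eval_add, _root_.add_div]

theorem res_smul (K : ℕ) (c : ℚ) (P : ℚ[X]) (j : ℕ) : res K (c • P) j = c * res K P j := by
  simp only [res, eval_smul, smul_eq_mul, mul_div_assoc]

theorem W_succ (m : ℕ) : W (m + 1) = W m * (X - C (m : ℚ)) := prod_range_succ _ _

theorem W_zero : W 0 = 1 := prod_range_zero _

theorem W_eq_descPochhammer (m : ℕ) : W m = descPochhammer ℚ m := by
  induction m with
  | zero => simp [W_zero]
  | succ m ih => rw [W_succ, ih, descPochhammer_succ_right, C_eq_natCast]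

theorem W_eval_nat (m i : ℕ) : (W m).eval (i : ℚ) = (m.factorial : ℚ) * (i.choose m : ℚ) := by
  rw [W_eq_descPochhammer, descPochhammer_eval_eq_descFactorial,
    Nat.descFactorial_eq_factorial_mul_choose, Nat.cast_mul]

theorem W_comp (m : ℕ) : (W (m + 1)).comp (X + 1) = W m * (X + 1) := by
  rw [W, W, prod_range_succ', mul_comp, Polynomial.prod_comp]
  congr 1
  · refine prod_congr rfl fun i _ => ?_
    rw [sub_comp, X_comp, C_comp, Nat.cast_add, Nat.cast_one, map_add, map_one]
    ring
  · simp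

theorem W_coeff (m : ℕ) : (W (m + 1)).coeff 0 = 0 ∧
    (W (m + 1)).coeff 1 = (-1) ^ m * (m.factorial : ℚ) ∧
    (W (m + 1)).coeff 2 = -((-1) ^ m * (m.factorial : ℚ) * H 1 m) := by
  induction m with
  | zero => simp [W_succ, W_zero, H, coeff_X]
  | succ m ih =>
    obtain ⟨h0, h1, h2⟩ := ih
    have hH : H 1 (m + 1) = H 1 m + 1 / ((m : ℚ) + 1) := by
      simp only [H, sum_range_succ, pow_one]
    have hm : ((m : ℚ) + 1) ≠ 0 := by positivity
    refine ⟨?_, ?_, ?_⟩
    · rw [W_succ, mul_coeff_zero, h0, zero_mul]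
    · rw [W_succ (m + 1), mul_sub, coeff_sub, coeff_mul_X, coeff_mul_C, h0, h1, Nat.factorial_succ]
      push_cast
      ring
    · rw [W_succ (m + 1), mul_sub, coeff_sub, coeff_mul_X, coeff_mul_C, h1, h2, Nat.factorial_succ,
        hH]
      push_cast
      field_simp
      ring

theorem nc_eq (Q : ℚ[X]) (m : ℕ) : nc Q m = (fwdDiff (1 : ℚ))^[m] Q.eval 0 := by
  rw [fwdDiff_iter_eq_sum_shift, nc]
  refine sum_congr rfl fun i _ => ?_
  simp

theorem newton (Q : ℚ[X]) (M : ℕ) (h : Q.natDegree ≤ M) :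
    Q = ∑ m ∈ range (M + 1), (nc Q m / (m.factorial : ℚ)) • W m := by
  apply eq_of_degrees_lt_of_eval_index_eq (s := range (M + 1)) (v := fun i : ℕ => (i : ℚ))
    (fun _ _ _ _ h => Nat.cast_injective h)
  · rw [card_range]
    exact (degree_le_natDegree.trans (Nat.cast_le.mpr h)).trans_lt (Nat.cast_lt.mpr (by omega))
  · rw [card_range, ← mem_degreeLT]
    refine Submodule.sum_mem _ fun m hm => Submodule.smul_mem _ _ ?_
    rw [mem_degreeLT, degree_eq_natDegree (W_monic m).ne_zero, W_natDegree]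
    exact Nat.cast_lt.mpr (mem_range.mp hm)
  · intro i hi
    have h1 := shift_eq_sum_fwdDiff_iter (1 : ℚ) Q.eval i 0
    simp only [zero_add, nsmul_eq_mul, mul_one] at h1
    rw [h1, eval_finsetSum]
    rw [← sum_subset (range_subset_range.mpr (mem_range.mp hi : i + 1 ≤ M + 1))]
    · refine sum_congr rfl fun m _ => ?_
      have : (m.factorial : ℚ) ≠ 0 := by positivity
      rw [eval_smul, W_eval_nat, nc_eq, smul_eq_mul]
      field_simp
    · intro m _ hm
      rw [eval_smul, W_eval_nat, Nat.choose_eq_zero_of_lt (by simpa using hm)]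
      simp

theorem D_eval (K : ℕ) (z : ℚ) : (D K).eval z = ∏ j ∈ range K, (z + j + 1) := by
  simp only [D, eval_prod, eval_add, eval_X, eval_C, add_assoc]

end Core

theorem L_add (a b x : ℚ) (K : ℕ) (P Q : ℚ[X]) :
    L a b x K (P + Q) = L a b x K P + L a b x K Q := by
  simp only [L, Core.add_div (D_monic K), map_add, Core.res_add, add_mul, sum_add_distrib]
  ring

theorem L_smul (a b x : ℚ) (K : ℕ) (c : ℚ) (P : ℚ[X]) :
    L a b x K (c • P) = c * L a b x K P := by
  simp only [L, Core.smul_div (D_monic K), map_smul, Core.res_smul, smul_eq_mul, mul_add, mul_sum,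
    mul_assoc]

theorem L_sum (a b x : ℚ) (K : ℕ) {ι : Type} (s : Finset ι) (P : ι → ℚ[X]) :
    L a b x K (∑ i ∈ s, P i) = ∑ i ∈ s, L a b x K (P i) := by
  classical
  induction s using Finset.induction_on with
  | empty => simpa using L_smul a b x K 0 0
  | insert i s hi ih => rw [sum_insert hi, sum_insert hi, L_add, ih]

theorem Lpoly_X_pow (a b : ℚ) (e : ℕ) : Lpoly a b (X ^ e) = mom a b e := by
  have := (Polynomial.basisMonomials ℚ).constr_basis ℚ (mom a b) e
  rw [coe_basisMonomials] at this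
  rw [X_pow_eq_monomial]
  exact this

namespace Core

theorem sum_mom (a b : ℚ) (e : ℕ) : ∑ k ∈ range e, (e.choose k : ℚ) * mom a b k
    = a * (if 1 = e then 1 else 0) - b * (if 2 = e then 1 else 0) := by
  have h2 : ∑ k ∈ range e, (e.choose k : ℚ) * ((k : ℚ) * _root_.bernoulli (k - 1))
      = 2 * (if 2 = e then 1 else 0) := by
    cases e with
    | zero => simp
    | succ e =>
      rw [sum_range_succ']
      have : ∀ k ∈ range e, ((e + 1).choose (k + 1) : ℚ) *
          (((k + 1 : ℕ) : ℚ) * _root_.bernoulli (k + 1 - 1))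
          = ((e : ℚ) + 1) * ((e.choose k : ℚ) * _root_.bernoulli k) := by
        intro k _
        have h := congrArg (Nat.cast : ℕ → ℚ) (Nat.add_one_mul_choose_eq e k)
        push_cast at h ⊢
        rw [← mul_assoc, ← h]
        ring
      rw [sum_congr rfl this, ← mul_sum, _root_.sum_bernoulli]
      by_cases he : e = 1
      · subst he
        norm_num
      · rw [if_neg he, if_neg (by omega)]
        simp
  have h1 := _root_.sum_bernoulli e
  have h3 : ∀ k ∈ range e, (e.choose k : ℚ) * mom a b k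
      = a * ((e.choose k : ℚ) * _root_.bernoulli k)
        - b / 2 * ((e.choose k : ℚ) * ((k : ℚ) * _root_.bernoulli (k - 1))) := by
    intro k _
    rw [mom]
    ring
  rw [sum_congr rfl h3, sum_sub_distrib, ← mul_sum, ← mul_sum, h1, h2]
  simp only [eq_comm (a := e)]
  ring

end Core

theorem Lpoly_diff (a b : ℚ) (S : ℚ[X]) :
    Lpoly a b (S.comp (X + 1) - S) = a * S.coeff 1 - b * S.coeff 2 := by
  induction S using Polynomial.induction_on' with
  | add p q hp hq =>
    rw [add_comp, add_sub_add_comm, map_add, hp, hq, coeff_add, coeff_add]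
    ring
  | monomial e c =>
    have h1 : ((X : ℚ[X]) + 1) ^ e - X ^ e = ∑ k ∈ range e, (e.choose k : ℚ) • (X : ℚ[X]) ^ k := by
      rw [add_pow, sum_range_succ]
      simp only [one_pow, mul_one, Nat.choose_self, Nat.cast_one, add_sub_cancel_right]
      refine sum_congr rfl fun k _ => ?_
      rw [smul_eq_C_mul, mul_comm, C_eq_natCast]
    have h2 : (monomial e c).comp (X + 1) - monomial e c = c • ((X + 1) ^ e - X ^ e) := by
      rw [monomial_comp, ← C_mul_X_pow_eq_monomial, smul_eq_C_mul, mul_sub]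
    rw [h2, map_smul, h1, map_sum]
    simp only [map_smul, Lpoly_X_pow, smul_eq_mul]
    rw [Core.sum_mom, coeff_monomial, coeff_monomial]
    simp only [eq_comm (a := e)]
    split_ifs <;> ring

theorem Lpoly_W (a b : ℚ) (m : ℕ) : Lpoly a b (W m) = (m.factorial : ℚ) * lam a b m := by
  have h := Lpoly_diff a b (W (m + 1))
  obtain ⟨-, h1, h2⟩ := Core.W_coeff m
  have h3 : (W (m + 1)).comp (X + 1) - W (m + 1) = ((m : ℚ) + 1) • W m := by
    rw [Core.W_comp, Core.W_succ, smul_eq_C_mul, map_add, map_one]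
    ring
  have hm : ((m : ℚ) + 1) ≠ 0 := by positivity
  rw [h3, map_smul, h1, h2, smul_eq_mul] at h
  rw [lam]
  field_simp
  linear_combination h

theorem Lpoly_newton (a b : ℚ) (Q : ℚ[X]) (M : ℕ) (h : Q.natDegree ≤ M) :
    Lpoly a b Q = ∑ m ∈ range (M + 1), nc Q m * lam a b m := by
  conv_lhs => rw [Core.newton Q M h]
  rw [map_sum]
  refine sum_congr rfl fun m _ => ?_
  have : (m.factorial : ℚ) ≠ 0 := by positivity
  rw [map_smul, Lpoly_W, smul_eq_mul]
  field_simp

theorem partial_fractions (K : ℕ) (P : ℚ[X]) :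
    P = (P /ₘ D K) * D K +
      ∑ j ∈ range K, C (res K P j) * ∏ k ∈ (range K).erase j, (X + C ((k : ℚ) + 1)) := by
  have h1 : P %ₘ D K
      = ∑ j ∈ range K, C (res K P j) * ∏ k ∈ (range K).erase j, (X + C ((k : ℚ) + 1)) := by
    apply eq_of_degrees_lt_of_eval_index_eq (s := range K) (v := fun j : ℕ => -((j : ℚ) + 1))
      (fun _ _ _ _ h => Nat.cast_injective (R := ℚ) (by simpa using h))
    · have := degree_modByMonic_lt P (D_monic K)
      rw [degree_eq_natDegree (D_monic K).ne_zero, D_natDegree] at this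
      rwa [card_range]
    · rw [card_range, ← mem_degreeLT]
      refine Submodule.sum_mem _ fun j hj => ?_
      rw [← smul_eq_C_mul]
      refine Submodule.smul_mem _ _ ?_
      have hm : (∏ k ∈ (range K).erase j, (X + C ((k : ℚ) + 1))).Monic :=
        monic_prod_of_monic _ _ fun _ _ => monic_X_add_C _
      rw [mem_degreeLT, degree_eq_natDegree hm.ne_zero,
        natDegree_prod_of_monic _ _ fun _ _ => monic_X_add_C _]
      simp only [natDegree_X_add_C, sum_const, smul_eq_mul, mul_one, card_erase_of_mem hj,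
        card_range]
      have := mem_range.mp hj
      exact Nat.cast_lt.mpr (by omega)
    · intro i hi
      have h2 : (D K).eval (-((i : ℚ) + 1)) = 0 := by
        rw [Core.D_eval]
        exact prod_eq_zero hi (by ring)
      have h3 := congrArg (eval (-((i : ℚ) + 1))) (modByMonic_add_div P (D K))
      rw [eval_add, eval_mul, h2, zero_mul, add_zero] at h3
      rw [h3, eval_finsetSum, sum_eq_single_of_mem i hi]
      · have h4 : ∏ k ∈ (range K).erase i, ((k : ℚ) - (i : ℚ)) ≠ 0 :=
          prod_ne_zero_iff.mpr fun k hk =>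
            sub_ne_zero.mpr fun h => (mem_erase.mp hk).1 (Nat.cast_injective h)
        have h5 : (∏ k ∈ (range K).erase i, (X + C ((k : ℚ) + 1))).eval (-((i : ℚ) + 1))
            = ∏ k ∈ (range K).erase i, ((k : ℚ) - (i : ℚ)) := by
          rw [eval_prod]
          refine prod_congr rfl fun k _ => ?_
          simp only [eval_add, eval_X, eval_C]
          ring
        rw [eval_mul, eval_C, h5, res, div_mul_cancel₀ _ h4]
      · intro j _ hji
        rw [eval_mul, eval_prod, prod_eq_zero (mem_erase.mpr ⟨hji.symm, hi⟩) (by simp), mul_zero]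
  rw [← h1, add_comm, mul_comm, modByMonic_add_div]

theorem eval_divByMonic (K : ℕ) (P : ℚ[X]) (m : ℕ) :
    (P /ₘ D K).eval (m : ℚ) = P.eval (m : ℚ) / ∏ j ∈ range K, ((m : ℚ) + j + 1) -
      ∑ j ∈ range K, res K P j / ((m : ℚ) + j + 1) := by
  have h0 : ∏ j ∈ range K, ((m : ℚ) + j + 1) ≠ 0 :=
    prod_ne_zero_iff.mpr fun j _ => by positivity
  have h := congrArg (eval (m : ℚ)) (partial_fractions K P)
  rw [eval_add, eval_mul, Core.D_eval, eval_finsetSum] at h
  rw [h, _root_.add_div, mul_div_cancel_right₀ _ h0, sum_div, add_sub_assoc, ← sum_sub_distrib,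
    sum_eq_zero, add_zero]
  intro j hj
  have h1 : ((m : ℚ) + j + 1) ≠ 0 := by positivity
  have h2 : ∏ k ∈ (range K).erase j, ((m : ℚ) + k + 1) ≠ 0 :=
    prod_ne_zero_iff.mpr fun j _ => by positivity
  rw [← mul_prod_erase _ _ hj, eval_mul, eval_C, eval_prod]
  simp only [eval_add, eval_X, eval_C, ← add_assoc]
  field_simp
  ring

namespace Core

theorem gram_eq (a b x : ℚ) (n : ℕ) (φ : Fin (6 * n) → ℚ[X]) (hd : ∀ i, (φ i).natDegree < 6 * n) :
    gram a b x n φ = (Matrix.of fun i j : Fin (6 * n) => (φ j).coeff i).transpose *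
      gram a b x n (fun i : Fin (6 * n) => (X : ℚ[X]) ^ (i : ℕ)) *
      (Matrix.of fun i j : Fin (6 * n) => (φ j).coeff i) := by
  have hφ : ∀ i, φ i = ∑ s : Fin (6 * n), (φ i).coeff s • (X : ℚ[X]) ^ (s : ℕ) := by
    intro i
    conv_lhs => rw [as_sum_range' (φ i) _ (hd i), sum_range]
    refine sum_congr rfl fun s _ => ?_
    rw [← C_mul_X_pow_eq_monomial, smul_eq_C_mul]
  ext i k
  simp only [gram, Matrix.of_apply, Matrix.mul_apply, Matrix.transpose_apply]
  conv_lhs => rw [hφ i, hφ k]
  rw [mul_sum, L_sum]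
  refine sum_congr rfl fun t _ => ?_
  rw [mul_smul_comm, L_smul, mul_sum, sum_mul, L_sum, mul_comm]
  congr 1
  refine sum_congr rfl fun s _ => ?_
  rw [mul_smul_comm, smul_mul_assoc, L_smul]

theorem det_gram (a b x : ℚ) (n : ℕ) (φ : Fin (6 * n) → ℚ[X])
    (hd : ∀ i, (φ i).natDegree < 6 * n) :
    (gram a b x n φ).det =
      (Matrix.of fun i j : Fin (6 * n) => (φ j).coeff i).det ^ 2 * Delta a b x n := by
  rw [gram_eq a b x n φ hd, Matrix.det_mul, Matrix.det_mul, Matrix.det_transpose, Delta]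
  ring

end Core

theorem det_gram_monic (a b x : ℚ) (n : ℕ) (φ : Fin (6 * n) → ℚ[X])
    (hm : ∀ i, (φ i).Monic) (hd : ∀ i, (φ i).natDegree = (i : ℕ)) :
    (gram a b x n φ).det = Delta a b x n := by
  rw [Core.det_gram a b x n φ fun i => (hd i).trans_lt i.2, Matrix.det_matrixOfPolynomials φ hd hm,
    one_pow, one_mul]

theorem Delta_ne_zero_of_gram (a b x : ℚ) (n : ℕ) {ι : Type} [Fintype ι] [DecidableEq ι]
    (hc : Fintype.card ι = 6 * n) (φ : ι → ℚ[X]) (hd : ∀ i, (φ i).natDegree < 6 * n)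
    (h : (gram a b x n φ).det ≠ 0) : Delta a b x n ≠ 0 := by
  intro h0
  apply h
  let e := Fintype.equivFinOfCardEq hc
  have h1 := Core.det_gram a b x n (fun i => φ (e.symm i)) fun i => hd _
  rw [h0, mul_zero] at h1
  rw [← Matrix.det_submatrix_equiv_self e.symm]
  exact h1

end Pool.Agent.P.MP_a89d6d_nt.Z23
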