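import Mathlib

/-!
Definitions for the linear independence of 1, zeta(2), zeta(3) over the rationals.
The functional `L a b x K` acts on `P / D K`, where `D K = (z+1)...(z+K)`. Formally it is
the sum over `m ≥ 0` of `- a G'(m) + b G''(m) / 2`, with `x` standing for `a zeta(2) + b zeta(3)`.
-/

namespace Pool.Agent.P.MP_a89d6d_nt.Z23

open Polynomial Finset

/-- Generalised harmonic number: the sum of `1 / i ^ s` for `i = 1, ..., m`. -/
def H (s m : ℕ) : ℚ := ∑ i ∈ range m, 1 / ((i : ℚ) + 1) ^ s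

/-- Value of the functional on the monomial `z ^ e`. -/
def mom (a b : ℚ) (e : ℕ) : ℚ :=
  a * _root_.bernoulli e - b * (e : ℚ) * _root_.bernoulli (e - 1) / 2

/-- The functional on polynomials. -/
noncomputable def Lpoly (a b : ℚ) : ℚ[X] →ₗ[ℚ] ℚ :=
  (Polynomial.basisMonomials ℚ).constr ℚ (mom a b)

/-- Value of the functional on the binomial polynomial `z choose m`. -/
def lam (a b : ℚ) (m : ℕ) : ℚ := (-1) ^ m * (a + b * H 1 m) / ((m : ℚ) + 1)

/-- The `m`-th forward difference of `Q` at `0`. -/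
noncomputable def nc (Q : ℚ[X]) (m : ℕ) : ℚ :=
  ∑ i ∈ range (m + 1), (-1) ^ (m - i) * (m.choose i : ℚ) * Q.eval (i : ℚ)

/-- The denominator `(z+1)...(z+K)`. -/
noncomputable def D (K : ℕ) : ℚ[X] := ∏ j ∈ range K, (X + C ((j : ℚ) + 1))

/-- Residue of `P / D K` at `-(j+1)`. -/
noncomputable def res (K : ℕ) (P : ℚ[X]) (j : ℕ) : ℚ :=
  P.eval (-((j : ℚ) + 1)) / ∏ k ∈ (range K).erase j, ((k : ℚ) - (j : ℚ))

/-- The functional applied to `P / D K`. -/
noncomputable def L (a b x : ℚ) (K : ℕ) (P : ℚ[X]) : ℚ :=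
  Lpoly a b (P /ₘ D K) + ∑ j ∈ range K, res K P j * (x - a * H 2 j - b * H 3 j)

/-- `z (z-1) ... (z-n+1)`. -/
noncomputable def W (n : ℕ) : ℚ[X] := ∏ i ∈ range n, (X - C (i : ℚ))

/-- Gram matrix of a family of polynomials. -/
noncomputable def gram (a b x : ℚ) (n : ℕ) {ι : Type} (φ : ι → ℚ[X]) : Matrix ι ι ℚ :=
  Matrix.of fun i k => L a b x (6 * n) (W n ^ 3 * φ i * φ k)

/-- The Hankel determinant of size `6 n`. -/
noncomputable def Delta (a b x : ℚ) (n : ℕ) : ℚ :=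
  (gram a b x n (fun i : Fin (6 * n) => (X : ℚ[X]) ^ (i : ℕ))).det

/-- The point `n - 1/2 + i y` of the vertical line of integration. -/
noncomputable def zpt (n : ℕ) (y : ℝ) : ℂ := (n : ℂ) - 1 / 2 + (y : ℂ) * Complex.I

/-- The weighted size of `P / D (6 n)` at `zpt n y`. -/
noncomputable def wt (n : ℕ) (P : ℚ[X]) (y : ℝ) : ℝ :=
  (1 + y ^ 2) * Real.exp (-2 * Real.pi * |y|) * ‖aeval (zpt n y) P‖ /
    ‖aeval (zpt n y) (D (6 * n))‖

/-- Monic Chebyshev-type polynomials for the segment `σ + i [-c, c]`. -/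
noncomputable def cheb (σ c : ℚ) : ℕ → ℚ[X]
  | 0 => 1
  | 1 => X - C σ
  | (d + 2) => (X - C σ) * cheb σ c (d + 1) + C (c ^ 2 / 4) * cheb σ c d

/-- `arcosh s` for `s ≥ 1`, and `0` below. -/
noncomputable def ach (s : ℝ) : ℝ := if 1 ≤ s then Real.log (s + Real.sqrt (s ^ 2 - 1)) else 0

/-- `1 - u / sqrt (c^2 + u^2)`. -/
noncomputable def ff (c u : ℝ) : ℝ := 1 - u / Real.sqrt (c ^ 2 + u ^ 2)

/-- Cumulative mass function of the weight. -/
noncomputable def TT (n : ℕ) (c : ℝ) : ℝ :=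
  2 * c - 3 / 2 * ∑ i ∈ range n, ff c ((i : ℝ) + 1 / 2)
    + 1 / 2 * ∑ j ∈ Ico n (7 * n), ff c ((j : ℝ) + 1 / 2) - ff c 1

end Pool.Agent.P.MP_a89d6d_nt.Z23
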