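import Pool.Agent.P.MP_a89d6d_nt.Z23.Defs

namespace Pool.Agent.P.MP_a89d6d_nt.Z23

open Polynomial Finset Filter

namespace Star

theorem cheb_aux (σ c : ℚ) (d : ℕ) :
    ((cheb σ c d).Monic ∧ (cheb σ c d).natDegree = d) ∧
      ((cheb σ c (d + 1)).Monic ∧ (cheb σ c (d + 1)).natDegree = d + 1) := by
  induction d with
  | zero =>
    refine ⟨⟨by simp [cheb], by simp [cheb]⟩, ?_, ?_⟩
    · simpa [cheb] using monic_X_sub_C σ
    · simp [cheb]
  | succ d ih =>
    refine ⟨ih.2, ?_⟩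
    have h1 : ((X - C σ) * cheb σ c (d + 1)).Monic := (monic_X_sub_C σ).mul ih.2.1
    have h2 : ((X - C σ) * cheb σ c (d + 1)).natDegree = d + 2 := by
      rw [(monic_X_sub_C σ).natDegree_mul ih.2.1, natDegree_X_sub_C, ih.2.2]; ring
    have h3 : (C (c ^ 2 / 4) * cheb σ c d).natDegree < d + 2 :=
      lt_of_le_of_lt (natDegree_C_mul_le _ _) (by rw [ih.1.2]; omega)
    have h4 : (C (c ^ 2 / 4) * cheb σ c d).degree < ((X - C σ) * cheb σ c (d + 1)).degree :=
      degree_lt_degree (by rw [h2]; exact h3)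
    have h5 : cheb σ c (d + 1 + 1) =
        (X - C σ) * cheb σ c (d + 1) + C (c ^ 2 / 4) * cheb σ c d := rfl
    rw [h5]
    exact ⟨h1.add_of_left h4, by rw [natDegree_add_eq_left_of_degree_lt h4, h2]⟩

theorem cheb_rec (σ c : ℚ) (z al be : ℂ) (h1 : al + be = z - σ)
    (h2 : al * be = -((c : ℂ) ^ 2 / 4)) (d : ℕ) :
    aeval z (cheb σ c (d + 1)) = al ^ (d + 1) + be * aeval z (cheb σ c d) := by
  induction d with
  | zero =>
    simp only [cheb, map_sub, aeval_X, aeval_C, map_one, zero_add, pow_one, mul_one, h1]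
    simp
  | succ d ih =>
    have h5 : cheb σ c (d + 1 + 1) =
        (X - C σ) * cheb σ c (d + 1) + C (c ^ 2 / 4) * cheb σ c d := rfl
    rw [h5]
    simp only [map_add, map_mul, map_sub, aeval_X, aeval_C]
    have e1 : (algebraMap ℚ ℂ) σ = σ := by simp
    have e2 : (algebraMap ℚ ℂ) (c ^ 2 / 4) = -(al * be) := by rw [h2]; simp
    rw [e1, e2, ← h1, ih]
    ring

theorem cheb_norm (σ c : ℚ) (z al be : ℂ) (h1 : al + be = z - σ)
    (h2 : al * be = -((c : ℂ) ^ 2 / 4)) (R : ℝ) (ha : ‖al‖ ≤ R) (hb : ‖be‖ ≤ R) (d : ℕ) :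
    ‖aeval z (cheb σ c d)‖ ≤ ((d : ℝ) + 1) * R ^ d := by
  have hR : 0 ≤ R := (norm_nonneg _).trans ha
  induction d with
  | zero => simp [cheb]
  | succ d ih =>
    rw [cheb_rec σ c z al be h1 h2 d]
    calc ‖al ^ (d + 1) + be * aeval z (cheb σ c d)‖
        ≤ ‖al‖ ^ (d + 1) + ‖be‖ * ‖aeval z (cheb σ c d)‖ := by
          refine (norm_add_le _ _).trans ?_
          rw [norm_pow, norm_mul]
      _ ≤ R ^ (d + 1) + R * (((d : ℝ) + 1) * R ^ d) := by gcongr
      _ = (((d + 1 : ℕ) : ℝ) + 1) * R ^ (d + 1) := by push_cast; ring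

theorem ach_nonneg (s : ℝ) : 0 ≤ ach s := by
  unfold ach
  split_ifs with h
  · exact Real.arcosh_nonneg h
  · exact le_rfl

theorem cosh_le_of_le_ach {s t : ℝ} (ht : 0 < t) (h : t ≤ ach s) : Real.cosh t ≤ s := by
  unfold ach at h
  split_ifs at h with hs
  · have h' : t ≤ Real.arcosh s := h
    rw [← Real.cosh_arcosh hs, Real.cosh_le_cosh, abs_of_pos ht,
      abs_of_nonneg (Real.arcosh_nonneg hs)]
    exact h'
  · linarith

/-- antiderivative of `ff (y / cosh t) w` -/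
noncomputable def A (y w t : ℝ) : ℝ :=
  t - Real.arsinh (w * Real.sinh t / Real.sqrt (y ^ 2 + w ^ 2))

theorem A_zero (y w : ℝ) : A y w 0 = 0 := by simp [A]

theorem A_deriv (y w : ℝ) (hw : 0 < w) (t : ℝ) :
    HasDerivAt (A y w) (ff (y / Real.cosh t) w) t := by
  have hS : 0 < Real.sqrt (y ^ 2 + w ^ 2) := Real.sqrt_pos.mpr (by positivity)
  have hC : 0 < Real.cosh t := Real.cosh_pos t
  have h1 : HasDerivAt (fun t => w * Real.sinh t / Real.sqrt (y ^ 2 + w ^ 2))
      (w * Real.cosh t / Real.sqrt (y ^ 2 + w ^ 2)) t :=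
    ((Real.hasDerivAt_sinh t).const_mul w).div_const _
  have h2 := (hasDerivAt_id' t).sub h1.arsinh
  refine HasDerivAt.congr_deriv h2 ?_
  unfold ff
  congr 1
  set S := Real.sqrt (y ^ 2 + w ^ 2) with hSdef
  have hS2 : S ^ 2 = y ^ 2 + w ^ 2 := Real.sq_sqrt (by positivity)
  have hR : 0 < Real.sqrt (y ^ 2 + w ^ 2 * Real.cosh t ^ 2) := Real.sqrt_pos.mpr (by positivity)
  set R := Real.sqrt (y ^ 2 + w ^ 2 * Real.cosh t ^ 2) with hRdef
  have hR2 : R ^ 2 = y ^ 2 + w ^ 2 * Real.cosh t ^ 2 := Real.sq_sqrt (by positivity)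
  have e1 : Real.sqrt ((y / Real.cosh t) ^ 2 + w ^ 2) = R / Real.cosh t := by
    rw [Real.sqrt_eq_iff_mul_self_eq (by positivity) (by positivity)]
    field_simp
    rw [hR2]; ring
  have e2 : Real.sqrt (1 + (w * Real.sinh t / S) ^ 2) = R / S := by
    rw [Real.sqrt_eq_iff_mul_self_eq (by positivity) (by positivity)]
    field_simp
    rw [hR2, hS2, Real.cosh_sq t]; ring
  rw [e1, e2, smul_eq_mul]
  field_simp

theorem A_tendsto (y w : ℝ) (hw : 0 < w) :
    Tendsto (A y w) atTop (nhds (1 / 2 * Real.log (1 + y ^ 2 / w ^ 2))) := by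
  have hS : 0 < Real.sqrt (y ^ 2 + w ^ 2) := Real.sqrt_pos.mpr (by positivity)
  set S := Real.sqrt (y ^ 2 + w ^ 2) with hSdef
  have hS2 : S ^ 2 = y ^ 2 + w ^ 2 := Real.sq_sqrt (by positivity)
  set k := w / S with hk
  have hk0 : 0 < k := by positivity
  let Φ : ℝ → ℝ := fun v =>
    -Real.log (k * ((1 - v ^ 2) / 2) + Real.sqrt (v ^ 2 + (k * ((1 - v ^ 2) / 2)) ^ 2))
  have hΦ0 : k * ((1 - (0 : ℝ) ^ 2) / 2) +
      Real.sqrt ((0 : ℝ) ^ 2 + (k * ((1 - (0 : ℝ) ^ 2) / 2)) ^ 2) = k := by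
    rw [show (0 : ℝ) ^ 2 + (k * ((1 - (0 : ℝ) ^ 2) / 2)) ^ 2 = (k / 2) ^ 2 by ring,
      Real.sqrt_sq (by positivity)]
    ring
  have hc : ContinuousAt Φ 0 := by
    refine ContinuousAt.neg (ContinuousAt.log (by fun_prop) ?_)
    rw [hΦ0]; exact hk0.ne'
  have h0 : Φ 0 = 1 / 2 * Real.log (1 + y ^ 2 / w ^ 2) := by
    simp only [Φ]
    rw [hΦ0]
    have : 1 + y ^ 2 / w ^ 2 = (k⁻¹) ^ 2 := by
      rw [hk]; field_simp; rw [hS2]; ring
    rw [this, Real.log_pow, Real.log_inv]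
    push_cast; ring
  have hlim : Tendsto (fun t => Φ (Real.exp (-t))) atTop (nhds (Φ 0)) :=
    hc.tendsto.comp Real.tendsto_exp_neg_atTop_nhds_zero
  rw [h0] at hlim
  refine hlim.congr fun t => ?_
  simp only [Φ, A]
  have hE : 0 < Real.exp (-t) := Real.exp_pos _
  have hx : w * Real.sinh t / S = k * Real.sinh t := by rw [hk]; ring
  have hq : (1 - Real.exp (-t) ^ 2) / 2 = Real.exp (-t) * Real.sinh t := by
    rw [Real.sinh_eq, Real.exp_neg]
    field_simp
  rw [← hSdef, hx, hq]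
  have e1 : Real.sqrt (Real.exp (-t) ^ 2 + (k * (Real.exp (-t) * Real.sinh t)) ^ 2) =
      Real.exp (-t) * Real.sqrt (1 + (k * Real.sinh t) ^ 2) := by
    rw [show Real.exp (-t) ^ 2 + (k * (Real.exp (-t) * Real.sinh t)) ^ 2 =
      Real.exp (-t) ^ 2 * (1 + (k * Real.sinh t) ^ 2) by ring, Real.sqrt_mul (by positivity),
      Real.sqrt_sq hE.le]
  rw [e1, show k * (Real.exp (-t) * Real.sinh t) +
      Real.exp (-t) * Real.sqrt (1 + (k * Real.sinh t) ^ 2) =
      Real.exp (-t) * (k * Real.sinh t + Real.sqrt (1 + (k * Real.sinh t) ^ 2)) by ring,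
    ← Real.exp_arsinh, ← Real.exp_add, Real.log_exp]
  ring

theorem G_deriv (y t : ℝ) :
    HasDerivAt (fun t => 2 * y * Real.arctan (Real.sinh t)) (2 * (y / Real.cosh t)) t := by
  have h := ((Real.hasDerivAt_sinh t).arctan).const_mul (2 * y)
  refine HasDerivAt.congr_deriv h ?_
  have hC : 0 < Real.cosh t := Real.cosh_pos t
  rw [← Real.cosh_sq' t]
  field_simp

theorem ff_cont (y w : ℝ) (hw : 0 < w) : Continuous fun t => ff (y / Real.cosh t) w := by
  unfold ff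
  refine continuous_const.sub (continuous_const.div ?_ fun t => ?_)
  · have : Continuous fun t => y / Real.cosh t :=
      continuous_const.div Real.continuous_cosh fun t => (Real.cosh_pos t).ne'
    fun_prop
  · exact (Real.sqrt_pos.mpr (by positivity)).ne'

theorem TT_cont (n : ℕ) (y : ℝ) : Continuous fun t => TT n (y / Real.cosh t) := by
  unfold TT
  have h0 : Continuous fun t => y / Real.cosh t :=
    continuous_const.div Real.continuous_cosh fun t => (Real.cosh_pos t).ne'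
  refine (((continuous_const.mul h0).sub (continuous_const.mul ?_)).add
    (continuous_const.mul ?_)).sub (ff_cont y 1 one_pos)
  · exact continuous_finsetSum _ fun i _ => ff_cont y _ (by positivity)
  · exact continuous_finsetSum _ fun i _ => ff_cont y _ (by positivity)

theorem TT_integral (n : ℕ) (y T : ℝ) :
    ∫ t in (0 : ℝ)..T, TT n (y / Real.cosh t) =
      2 * y * Real.arctan (Real.sinh T) - 3 / 2 * ∑ i ∈ range n, A y ((i : ℝ) + 1 / 2) T
        + 1 / 2 * ∑ j ∈ Ico n (7 * n), A y ((j : ℝ) + 1 / 2) T - A y 1 T := by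
  have h : ∀ t, HasDerivAt (fun T => 2 * y * Real.arctan (Real.sinh T)
      - 3 / 2 * ∑ i ∈ range n, A y ((i : ℝ) + 1 / 2) T
      + 1 / 2 * ∑ j ∈ Ico n (7 * n), A y ((j : ℝ) + 1 / 2) T - A y 1 T)
      (TT n (y / Real.cosh t)) t := by
    intro t
    unfold TT
    refine (((G_deriv y t).sub (HasDerivAt.const_mul _ ?_)).add
      (HasDerivAt.const_mul _ ?_)).sub (A_deriv y 1 one_pos t)
    · exact HasDerivAt.fun_sum fun i _ => A_deriv y _ (by positivity) t
    · exact HasDerivAt.fun_sum fun i _ => A_deriv y _ (by positivity) t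
  rw [intervalIntegral.integral_eq_sub_of_hasDerivAt (fun t _ => h t)
    ((TT_cont n y).intervalIntegrable _ _)]
  simp [A_zero]

theorem star_nonneg (n J : ℕ) (d : ℕ → ℕ) (c : ℕ → ℝ) (hc : ∀ l, 0 < c l)
    (hT : ∀ u : ℝ, 0 ≤ u → ∑ l ∈ (range J).filter (fun l => c l ≤ u), (d l : ℝ) ≤ TT n u)
    (y : ℝ) (hy : 0 ≤ y) :
    2 * ∑ l ∈ range J, (d l : ℝ) * ach (y / c l) ≤
      2 * Real.pi * y
        - 3 / 2 * ∑ i ∈ range n, Real.log (1 + y ^ 2 / ((i : ℝ) + 1 / 2) ^ 2)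
        + 1 / 2 * ∑ j ∈ Ico n (7 * n), Real.log (1 + y ^ 2 / ((j : ℝ) + 1 / 2) ^ 2)
        - Real.log (1 + y ^ 2) := by
  have hlim : Tendsto (fun T => Real.pi * y - 3 / 2 * ∑ i ∈ range n, A y ((i : ℝ) + 1 / 2) T
      + 1 / 2 * ∑ j ∈ Ico n (7 * n), A y ((j : ℝ) + 1 / 2) T - A y 1 T) atTop
      (nhds (Real.pi * y
        - 3 / 2 * ∑ i ∈ range n, 1 / 2 * Real.log (1 + y ^ 2 / ((i : ℝ) + 1 / 2) ^ 2)
        + 1 / 2 * ∑ j ∈ Ico n (7 * n), 1 / 2 * Real.log (1 + y ^ 2 / ((j : ℝ) + 1 / 2) ^ 2)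
        - 1 / 2 * Real.log (1 + y ^ 2 / 1 ^ 2))) := by
    refine ((tendsto_const_nhds.sub (Tendsto.const_mul _ ?_)).add
      (Tendsto.const_mul _ ?_)).sub (A_tendsto y 1 one_pos)
    · exact tendsto_finsetSum _ fun i _ => A_tendsto y _ (by positivity)
    · exact tendsto_finsetSum _ fun i _ => A_tendsto y _ (by positivity)
  have key : ∑ l ∈ range J, (d l : ℝ) * ach (y / c l) ≤ Real.pi * y
        - 3 / 2 * ∑ i ∈ range n, 1 / 2 * Real.log (1 + y ^ 2 / ((i : ℝ) + 1 / 2) ^ 2)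
        + 1 / 2 * ∑ j ∈ Ico n (7 * n), 1 / 2 * Real.log (1 + y ^ 2 / ((j : ℝ) + 1 / 2) ^ 2)
        - 1 / 2 * Real.log (1 + y ^ 2 / 1 ^ 2) := by
    refine ge_of_tendsto hlim ?_
    have hev : ∀ᶠ T : ℝ in atTop, ∀ l ∈ range J, ach (y / c l) ≤ T :=
      (eventually_all_finset _).mpr fun l _ => eventually_ge_atTop _
    filter_upwards [hev, eventually_ge_atTop (0 : ℝ)] with T hTl hT0
    have hint : ∀ l, IntervalIntegrable
        (Set.indicator {x : ℝ | x ≤ ach (y / c l)} fun _ => (d l : ℝ)) MeasureTheory.volume 0 T := by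
      intro l
      rw [intervalIntegrable_iff]
      exact (intervalIntegrable_iff.mp
        (continuous_const.intervalIntegrable 0 T)).indicator measurableSet_Iic
    have e1 : ∑ l ∈ range J, (d l : ℝ) * ach (y / c l) = ∫ t in (0 : ℝ)..T,
        ∑ l ∈ range J, Set.indicator {x : ℝ | x ≤ ach (y / c l)} (fun _ => (d l : ℝ)) t := by
      rw [intervalIntegral.integral_finsetSum fun l _ => hint l]
      refine Finset.sum_congr rfl fun l hl => ?_
      rw [intervalIntegral.integral_indicator ⟨ach_nonneg _, hTl l hl⟩]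
      simp [mul_comm]
    have e2 : ∫ t in (0 : ℝ)..T,
        ∑ l ∈ range J, Set.indicator {x : ℝ | x ≤ ach (y / c l)} (fun _ => (d l : ℝ)) t ≤
        ∫ t in (0 : ℝ)..T, TT n (y / Real.cosh t) := by
      refine intervalIntegral.integral_mono_on_of_le_Ioo hT0 ?_
        ((TT_cont n y).intervalIntegrable _ _) fun t ht => ?_
      · have := IntervalIntegrable.sum (range J) fun l _ => hint l
        have e : (∑ l ∈ range J, Set.indicator {x : ℝ | x ≤ ach (y / c l)} fun _ => (d l : ℝ)) =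
            fun t => ∑ l ∈ range J,
              Set.indicator {x : ℝ | x ≤ ach (y / c l)} (fun _ => (d l : ℝ)) t := by
          ext t
          simp [Finset.sum_apply]
        rwa [e] at this
      · have hC : 0 < Real.cosh t := Real.cosh_pos t
        refine le_trans ?_ (hT _ (by positivity))
        rw [Finset.sum_filter]
        refine Finset.sum_le_sum fun l _ => ?_
        by_cases hl : t ≤ ach (y / c l)
        · have h1 := cosh_le_of_le_ach ht.1 hl
          have h2 : c l ≤ y / Real.cosh t := by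
            rw [le_div_iff₀ (hc l)] at h1
            rw [le_div_iff₀ hC]; linarith
          rw [if_pos h2, Set.indicator_of_mem (by exact hl)]
        · rw [Set.indicator_of_notMem (by exact hl)]
          split_ifs
          · positivity
          · exact le_rfl
    rw [TT_integral] at e2
    have e3 : 2 * y * Real.arctan (Real.sinh T) ≤ Real.pi * y := by
      have := (Real.arctan_lt_pi_div_two (Real.sinh T)).le
      nlinarith
    linarith
  rw [← Finset.mul_sum, ← Finset.mul_sum, one_pow, div_one] at key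
  linarith

end Star

theorem cheb_monic (σ c : ℚ) (d : ℕ) : (cheb σ c d).Monic := (Star.cheb_aux σ c d).1.1

theorem cheb_natDegree (σ c : ℚ) (d : ℕ) : (cheb σ c d).natDegree = d :=
  (Star.cheb_aux σ c d).1.2

theorem cheb_bound (σ c : ℚ) (hc : 0 < c) (d : ℕ) (y : ℝ) :
    ‖aeval ((σ : ℂ) + (y : ℂ) * Complex.I) (cheb σ c d)‖ ≤
      ((d : ℝ) + 1) * ((c : ℝ) / 2) ^ d * Real.exp (d * ach (|y| / c)) := by
  have hc' : (0 : ℝ) < c := by exact_mod_cast hc
  rw [Real.exp_nat_mul, mul_assoc, ← mul_pow]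
  by_cases h : 1 ≤ |y| / c
  · have hy : (c : ℝ) ≤ |y| := by rwa [le_div_iff₀ hc', one_mul] at h
    have hy2 : (c : ℝ) ^ 2 ≤ y ^ 2 := by
      rw [← sq_abs y]; gcongr
    set s := Real.sqrt (y ^ 2 - (c : ℝ) ^ 2) with hs
    have hs0 : 0 ≤ s := Real.sqrt_nonneg _
    have hs2 : s ^ 2 = y ^ 2 - (c : ℝ) ^ 2 := Real.sq_sqrt (by linarith)
    have hR : (c : ℝ) / 2 * Real.exp (ach (|y| / c)) = (|y| + s) / 2 := by
      unfold ach
      rw [if_pos h]
      have := Real.exp_arcosh h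
      unfold Real.arcosh at this
      rw [this]
      have e : Real.sqrt ((|y| / c) ^ 2 - 1) = s / c := by
        rw [Real.sqrt_eq_iff_mul_self_eq (by nlinarith) (by positivity)]
        field_simp
        rw [hs2, sq_abs]
      rw [e]; field_simp
    rw [hR]
    refine Star.cheb_norm σ c _ ((((y + s) / 2 : ℝ) : ℂ) * Complex.I)
      ((((y - s) / 2 : ℝ) : ℂ) * Complex.I) ?_ ?_ _ ?_ ?_ d
    · push_cast; ring
    · have : ((s : ℂ)) ^ 2 = (y : ℂ) ^ 2 - (c : ℂ) ^ 2 := by exact_mod_cast hs2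
      push_cast
      linear_combination (1 / 4 : ℂ) * this + ((y : ℂ) ^ 2 - (s : ℂ) ^ 2) / 4 * Complex.I_sq
    · rw [norm_mul, Complex.norm_I, mul_one, Complex.norm_real, Real.norm_eq_abs, abs_le]
      constructor <;> linarith [le_abs_self y, neg_abs_le y]
    · rw [norm_mul, Complex.norm_I, mul_one, Complex.norm_real, Real.norm_eq_abs, abs_le]
      constructor <;> linarith [le_abs_self y, neg_abs_le y]
  · have hy : |y| < c := by
      rw [not_le, div_lt_one hc'] at h; exact h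
    have hy2 : y ^ 2 ≤ (c : ℝ) ^ 2 := by
      rw [← sq_abs y]; gcongr
    set s := Real.sqrt ((c : ℝ) ^ 2 - y ^ 2) with hs
    have hs2 : s ^ 2 = (c : ℝ) ^ 2 - y ^ 2 := Real.sq_sqrt (by linarith)
    have hR : (c : ℝ) / 2 * Real.exp (ach (|y| / c)) = c / 2 := by
      unfold ach
      rw [if_neg h]; simp
    rw [hR]
    refine Star.cheb_norm σ c _ (((s / 2 : ℝ) : ℂ) + ((y / 2 : ℝ) : ℂ) * Complex.I)
      (((-s / 2 : ℝ) : ℂ) + ((y / 2 : ℝ) : ℂ) * Complex.I) ?_ ?_ _ ?_ ?_ d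
    · push_cast; ring
    · have : ((s : ℂ)) ^ 2 = (c : ℂ) ^ 2 - (y : ℂ) ^ 2 := by exact_mod_cast hs2
      push_cast
      linear_combination (-1 / 4 : ℂ) * this + ((y : ℂ) ^ 2) / 4 * Complex.I_sq
    · rw [Complex.norm_add_mul_I]
      exact Real.sqrt_le_iff.mpr ⟨by positivity, by nlinarith⟩
    · rw [Complex.norm_add_mul_I]
      exact Real.sqrt_le_iff.mpr ⟨by positivity, by nlinarith⟩

theorem star (n J : ℕ) (d : ℕ → ℕ) (c : ℕ → ℝ) (hc : ∀ l, 0 < c l)
    (hT : ∀ u : ℝ, 0 ≤ u → ∑ l ∈ (range J).filter (fun l => c l ≤ u), (d l : ℝ) ≤ TT n u)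
    (y : ℝ) :
    2 * ∑ l ∈ range J, (d l : ℝ) * ach (|y| / c l) ≤
      2 * Real.pi * |y|
        - 3 / 2 * ∑ i ∈ range n, Real.log (1 + y ^ 2 / ((i : ℝ) + 1 / 2) ^ 2)
        + 1 / 2 * ∑ j ∈ Ico n (7 * n), Real.log (1 + y ^ 2 / ((j : ℝ) + 1 / 2) ^ 2)
        - Real.log (1 + y ^ 2) := by
  have := Star.star_nonneg n J d c hc hT |y| (abs_nonneg y)
  rwa [sq_abs] at this

end Pool.Agent.P.MP_a89d6d_nt.Z23
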