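import Pool.Agent.P.MP_a89d6d_nt.Z23.Defs

/-!
Real estimates for the energy bound: lower bounds for `TT`.
-/

namespace Pool.Agent.P.MP_a89d6d_nt.Z23.Energy

open Finset

/-- An antiderivative of `ff c`. -/
noncomputable def gg (c u : ℝ) : ℝ := u - Real.sqrt (c ^ 2 + u ^ 2)

theorem sqrt_mid (c m : ℝ) :
    2 * Real.sqrt (c ^ 2 + m ^ 2) ≤
      Real.sqrt (c ^ 2 + (m + 1 / 2) ^ 2) + Real.sqrt (c ^ 2 + (m - 1 / 2) ^ 2) := by
  set A := Real.sqrt (c ^ 2 + (m + 1 / 2) ^ 2) with hA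
  set B := Real.sqrt (c ^ 2 + (m - 1 / 2) ^ 2) with hB
  have hA0 : 0 ≤ A := Real.sqrt_nonneg _
  have hB0 : 0 ≤ B := Real.sqrt_nonneg _
  have hA2 : A ^ 2 = c ^ 2 + (m + 1 / 2) ^ 2 := Real.sq_sqrt (by positivity)
  have hB2 : B ^ 2 = c ^ 2 + (m - 1 / 2) ^ 2 := Real.sq_sqrt (by positivity)
  have hAB : c ^ 2 + (m + 1 / 2) * (m - 1 / 2) ≤ A * B := by
    apply le_of_sq_le_sq _ (mul_nonneg hA0 hB0)
    rw [mul_pow, hA2, hB2]
    nlinarith [sq_nonneg c]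
  have h : Real.sqrt (c ^ 2 + m ^ 2) ≤ (A + B) / 2 := by
    apply Real.sqrt_le_iff.mpr
    refine ⟨by positivity, ?_⟩
    nlinarith
  linarith

theorem ff_le_mid (c m : ℝ) (hm : 0 < m) : ff c m ≤ gg c (m + 1 / 2) - gg c (m - 1 / 2) := by
  have h := sqrt_mid c m
  unfold ff gg
  set A := Real.sqrt (c ^ 2 + (m + 1 / 2) ^ 2) with hA
  set B := Real.sqrt (c ^ 2 + (m - 1 / 2) ^ 2) with hB
  set R := Real.sqrt (c ^ 2 + m ^ 2) with hR
  have hR0 : 0 < R := Real.sqrt_pos.mpr (by positivity)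
  have hA2 : A ^ 2 = c ^ 2 + (m + 1 / 2) ^ 2 := Real.sq_sqrt (by positivity)
  have hB2 : B ^ 2 = c ^ 2 + (m - 1 / 2) ^ 2 := Real.sq_sqrt (by positivity)
  have hAB : 0 < A + B := by linarith
  have h1 : (A - B) * (A + B) = 2 * m := by nlinarith
  have h2 : A - B ≤ m / R := by
    rw [le_div_iff₀ hR0]
    have h3 : 0 ≤ A - B := by
      by_contra h4
      push Not at h4
      nlinarith
    nlinarith
  linarith

theorem le_ff (c u : ℝ) (hu : 0 < u) : gg c (u + 1) - gg c u ≤ ff c u := by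
  unfold ff gg
  set R := Real.sqrt (c ^ 2 + u ^ 2) with hR
  have hR0 : 0 < R := Real.sqrt_pos.mpr (by positivity)
  have hR2 : R ^ 2 = c ^ 2 + u ^ 2 := Real.sq_sqrt (by positivity)
  have hq : u / R ≤ 1 := by
    rw [div_le_one hR0]
    exact Real.le_sqrt_of_sq_le (by nlinarith [sq_nonneg c])
  have hq0 : 0 ≤ u / R := by positivity
  have hqR : u / R * R = u := by field_simp
  have h : R + u / R ≤ Real.sqrt (c ^ 2 + (u + 1) ^ 2) := by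
    apply Real.le_sqrt_of_sq_le
    nlinarith
  linarith

theorem gg_lip (c u v : ℝ) (hu : 0 ≤ u) (huv : u ≤ v) :
    gg c u ≤ gg c v ∧ gg c v ≤ gg c u + (v - u) := by
  unfold gg
  constructor
  · have hR : u ≤ Real.sqrt (c ^ 2 + u ^ 2) := Real.le_sqrt_of_sq_le (by nlinarith [sq_nonneg c])
    have hR2 : Real.sqrt (c ^ 2 + u ^ 2) ^ 2 = c ^ 2 + u ^ 2 := Real.sq_sqrt (by positivity)
    have : Real.sqrt (c ^ 2 + v ^ 2) ≤ Real.sqrt (c ^ 2 + u ^ 2) + (v - u) := by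
      apply Real.sqrt_le_iff.mpr
      refine ⟨by linarith, ?_⟩
      nlinarith
    linarith
  · have : Real.sqrt (c ^ 2 + u ^ 2) ≤ Real.sqrt (c ^ 2 + v ^ 2) :=
      Real.sqrt_le_sqrt (by nlinarith)
    linarith

theorem ff_nonneg (c u : ℝ) (hu : 0 < u) : 0 ≤ ff c u := by
  have h1 := le_ff c u hu
  have h2 := (gg_lip c u (u + 1) hu.le (by linarith)).1
  linarith

theorem ff_le_one (c u : ℝ) (hu : 0 ≤ u) : ff c u ≤ 1 := by
  unfold ff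
  have : 0 ≤ u / Real.sqrt (c ^ 2 + u ^ 2) := by positivity
  linarith

theorem ff_one_le (c : ℝ) (hc : 0 ≤ c) : ff c 1 ≤ c / 2 := by
  by_cases h2 : 2 ≤ c
  · have := ff_le_one c 1 zero_le_one
    linarith
  push Not at h2
  unfold ff
  set R := Real.sqrt (c ^ 2 + 1 ^ 2) with hR
  have hR0 : 0 < R := Real.sqrt_pos.mpr (by positivity)
  have hR2 : R ^ 2 = c ^ 2 + 1 ^ 2 := Real.sq_sqrt (by positivity)
  have h : (1 - c / 2) * R ≤ 1 := by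
    apply le_of_sq_le_sq _ zero_le_one
    rw [mul_pow, hR2]
    have h3 : -1 + 5 / 4 * c - c ^ 2 + c ^ 3 / 4 ≤ 0 := by
      nlinarith [mul_nonneg (sq_nonneg c) (sub_nonneg.mpr h2.le), sq_nonneg (c - 1)]
    nlinarith [mul_nonneg hc (neg_nonneg.mpr h3)]
  have : 1 - c / 2 ≤ 1 / R := by rw [le_div_iff₀ hR0]; exact h
  linarith

theorem sum_ff_le (c : ℝ) (n : ℕ) :
    ∑ i ∈ range n, ff c ((i : ℝ) + 1 / 2) ≤ gg c n - gg c 0 := by
  induction n with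
  | zero => simp
  | succ n ih =>
    rw [sum_range_succ]
    have h := ff_le_mid c ((n : ℝ) + 1 / 2) (by positivity)
    have e1 : (n : ℝ) + 1 / 2 + 1 / 2 = ((n + 1 : ℕ) : ℝ) := by push_cast; ring
    have e2 : (n : ℝ) + 1 / 2 - 1 / 2 = n := by ring
    rw [e1, e2] at h
    linarith

theorem le_sum_ff (c : ℝ) (n m : ℕ) (h : n ≤ m) :
    gg c ((m : ℝ) + 1 / 2) - gg c ((n : ℝ) + 1 / 2) ≤ ∑ j ∈ Ico n m, ff c ((j : ℝ) + 1 / 2) := by
  induction m, h using Nat.le_induction with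
  | base => simp
  | succ m hm ih =>
    rw [sum_Ico_succ_top hm]
    have h := le_ff c ((m : ℝ) + 1 / 2) (by positivity)
    have e1 : (m : ℝ) + 1 / 2 + 1 = ((m + 1 : ℕ) : ℝ) + 1 / 2 := by push_cast; ring
    rw [e1] at h
    linarith

theorem TT_nonneg (n : ℕ) (c : ℝ) (hc : 0 ≤ c) : 0 ≤ TT n c := by
  unfold TT
  have h1 := sum_ff_le c n
  have h2 : 0 ≤ ∑ j ∈ Ico n (7 * n), ff c ((j : ℝ) + 1 / 2) :=
    sum_nonneg fun j _ => ff_nonneg c _ (by positivity)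
  have h3 := ff_one_le c hc
  have h4 : gg c 0 = -c := by
    unfold gg
    rw [show c ^ 2 + (0 : ℝ) ^ 2 = c ^ 2 by ring, Real.sqrt_sq hc]; ring
  have h5 : gg c n ≤ 0 := by
    unfold gg
    have : (n : ℝ) ≤ Real.sqrt (c ^ 2 + (n : ℝ) ^ 2) :=
      Real.le_sqrt_of_sq_le (by nlinarith [sq_nonneg c])
    linarith
  linarith

theorem TT_ge (n : ℕ) (c : ℝ) (hc : 0 ≤ c) :
    c / 2 + 2 * Real.sqrt (c ^ 2 + (n : ℝ) ^ 2) + 3 / 2 * n
      - Real.sqrt (c ^ 2 + (7 * (n : ℝ)) ^ 2) / 2 - 5 / 4 ≤ TT n c := by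
  unfold TT
  have h1 := sum_ff_le c n
  have h2 := le_sum_ff c n (7 * n) (by omega)
  have h3 := ff_le_one c 1 zero_le_one
  have h4 : gg c 0 = -c := by
    unfold gg
    rw [show c ^ 2 + (0 : ℝ) ^ 2 = c ^ 2 by ring, Real.sqrt_sq hc]; ring
  have h5 := (gg_lip c (7 * (n : ℝ)) (((7 * n : ℕ) : ℝ) + 1 / 2) (by positivity)
    (by push_cast; linarith)).1
  have h6 := (gg_lip c (n : ℝ) ((n : ℝ) + 1 / 2) (by positivity) (by linarith)).2
  have h7 : gg c n = n - Real.sqrt (c ^ 2 + (n : ℝ) ^ 2) := rfl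
  have h8 : gg c (7 * (n : ℝ)) = 7 * n - Real.sqrt (c ^ 2 + (7 * (n : ℝ)) ^ 2) := rfl
  linarith

/-- The bound used on the grid. -/
theorem TT_grid (n : ℕ) (s a b u : ℝ) (hs : 0 ≤ s) (hb : 0 ≤ b) (ha2 : a ^ 2 ≤ s ^ 2 + 1)
    (hb2 : s ^ 2 + 49 ≤ b ^ 2) (hu : n * s ≤ u) :
    n * (s / 2 + 2 * a + 3 / 2 - b / 2) - 5 / 4 ≤ TT n u := by
  have hn : (0 : ℝ) ≤ n := by positivity
  have hns : 0 ≤ n * s := by positivity
  have h := TT_ge n u (hns.trans hu)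
  have h1 : n * a ≤ Real.sqrt (u ^ 2 + (n : ℝ) ^ 2) := by
    apply Real.le_sqrt_of_sq_le
    have : (n * s) ^ 2 ≤ u ^ 2 := pow_le_pow_left₀ hns hu 2
    nlinarith [mul_le_mul_of_nonneg_left ha2 (sq_nonneg (n : ℝ))]
  have h2 := (gg_lip (7 * (n : ℝ)) (n * s) u hns hu).1
  unfold gg at h2
  have h3 : Real.sqrt ((7 * (n : ℝ)) ^ 2 + (n * s) ^ 2) ≤ n * b := by
    apply Real.sqrt_le_iff.mpr
    refine ⟨by positivity, ?_⟩
    nlinarith [mul_le_mul_of_nonneg_left hb2 (sq_nonneg (n : ℝ))]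
  rw [add_comm ((7 * (n : ℝ)) ^ 2) (u ^ 2)] at h2
  nlinarith

end Pool.Agent.P.MP_a89d6d_nt.Z23.Energy
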