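import Pool.Agent.P.MP_a89d6d_nt.Z23.Energy1

/-!
The numeric grid and the sums of logarithms for the energy bound.
-/

namespace Pool.Agent.P.MP_a89d6d_nt.Z23.Energy

open Finset

/-- Cumulative masses of the grid, in hundredths. -/
def kk (l : ℕ) : ℕ :=
  [0, 2, 3, 3, 4, 4, 5, 6, 6, 7, 8, 10, 11, 13, 15, 17, 19, 22, 26, 30, 35, 40, 47, 55, 64, 75,
    87, 101, 118, 137, 159, 185, 214, 246, 284, 326, 373, 426, 485, 551, 600].getD l 600

/-- Lower bounds for the first square root. -/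
def aw (l : ℕ) : ℕ :=
  [100149, 100184, 100228, 100281, 100347, 100428, 100529, 100652, 100805, 100993, 101225, 101510,
    101861, 102292, 102823, 103474, 104272, 105249, 106443, 107899, 109670, 111817, 114412,
    117538, 121285, 125757, 131068, 137342, 144713, 153324, 163331, 174897, 188198, 203423,
    220776, 240478, 262771, 287923, 316227, 348010].getD l 0

/-- Upper bounds for the second square root. -/
def bw (l : ℕ) : ℕ :=
  [700022, 700027, 700033, 700041, 700050, 700062, 700076, 700094, 700116, 700143, 700177, 700218,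
    700269, 700332, 700409, 700505, 700624, 700770, 700950, 701173, 701447, 701786, 702204,
    702720, 703357, 704142, 705110, 706303, 707773, 709584, 711813, 714556, 717927, 722068,
    727147, 733369, 740979, 750267, 761578, 775314].getD l 0

/-- The geometric grid. -/
def ss (l : ℕ) : ℚ := 10 / 3 * (9 / 10) ^ (39 - l)

theorem grid_check : ∀ l < 40, kk l ≤ kk (l + 1) ∧ kk (l + 1) ≤ 600 ∧
    ((aw l : ℚ) / 100000) ^ 2 ≤ ss l ^ 2 + 1 ∧ ss l ^ 2 + 49 ≤ ((bw l : ℚ) / 100000) ^ 2 ∧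
    (kk (l + 1) : ℚ) / 100 + 1 / 1000 ≤
      ss l / 2 + 2 * ((aw l : ℚ) / 100000) + 3 / 2 - ((bw l : ℚ) / 100000) / 2 := by
  decide +kernel

theorem grid_sum : (1889 / 10 : ℚ) ≤
    ∑ l ∈ range 39, (6 * ((kk (l + 1) : ℚ) / 100) - ((kk (l + 1) : ℚ) / 100) ^ 2 / 2) := by
  decide +kernel

theorem ss_pos (l : ℕ) : 0 < ss l := by unfold ss; positivity

/-- Cumulative degrees. -/
def DD (n l : ℕ) : ℕ := n * kk l / 100

/-- Degrees of the factors of the polynomial of degree `t`. -/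
def dd (n t l : ℕ) : ℕ := min t (DD n (l + 1)) - min t (DD n l)

theorem DD_mono (n l : ℕ) (hl : l < 40) : DD n l ≤ DD n (l + 1) :=
  Nat.div_le_div_right (Nat.mul_le_mul_left _ (grid_check l hl).1)

theorem DD_zero (n : ℕ) : DD n 0 = 0 := by simp [DD, kk]

theorem DD_forty (n : ℕ) : DD n 40 = 6 * n := by
  have : kk 40 = 600 := rfl
  unfold DD
  rw [this]
  omega

theorem dd_cast (n t l : ℕ) (hl : l < 40) :
    (dd n t l : ℝ) = ((min t (DD n (l + 1)) : ℕ) : ℝ) - ((min t (DD n l) : ℕ) : ℝ) := by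
  unfold dd
  have := DD_mono n l hl
  rw [Nat.cast_sub (by omega)]

theorem sum_dd (n t L : ℕ) (hL : L ≤ 40) : ∑ l ∈ range L, dd n t l = min t (DD n L) := by
  induction L with
  | zero => simp [DD_zero]
  | succ L ih =>
    rw [sum_range_succ, ih (by omega)]
    have := DD_mono n L (by omega)
    unfold dd
    omega

theorem dd_le (n t l : ℕ) : dd n t l ≤ t := by unfold dd; omega

theorem DD_le (n l : ℕ) : (DD n l : ℝ) ≤ n * ((kk l : ℝ) / 100) := by
  have h := @Nat.cast_div_le ℝ _ _ _ (n * kk l) 100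
  unfold DD
  push_cast at h
  linarith

theorem le_DD (n l : ℕ) : n * ((kk l : ℝ) / 100) - 1 ≤ DD n l := by
  have h : n * kk l < 100 * (DD n l + 1) := by unfold DD; omega
  have h' : ((n * kk l : ℕ) : ℝ) < ((100 * (DD n l + 1) : ℕ) : ℝ) := by exact_mod_cast h
  push_cast at h'
  linarith

theorem mass_le (n t : ℕ) (hn : 1250 ≤ n) (u : ℝ) (hu : 0 ≤ u) :
    ∑ l ∈ (range 40).filter (fun l => (((n : ℚ) * ss l : ℚ) : ℝ) ≤ u), (dd n t l : ℝ) ≤ TT n u := by
  set F := (range 40).filter (fun l => (((n : ℚ) * ss l : ℚ) : ℝ) ≤ u) with hF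
  rcases F.eq_empty_or_nonempty with h | h
  · rw [h]; simpa using TT_nonneg n u hu
  · set L := F.max' h with hL
    have hLF : L ∈ F := F.max'_mem h
    rw [hF, mem_filter, mem_range] at hLF
    have hsub : F ⊆ range (L + 1) := fun l hl => mem_range.mpr (Nat.lt_succ_of_le (F.le_max' l hl))
    have h1 : ∑ l ∈ F, (dd n t l : ℝ) ≤ ∑ l ∈ range (L + 1), (dd n t l : ℝ) :=
      sum_le_sum_of_subset_of_nonneg hsub fun _ _ _ => by positivity
    have h2 : ∑ l ∈ range (L + 1), (dd n t l : ℝ) ≤ DD n (L + 1) := by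
      rw [← Nat.cast_sum, sum_dd n t (L + 1) (by omega)]
      exact_mod_cast min_le_right _ _
    obtain ⟨-, -, ha, hb, hk⟩ := grid_check L hLF.1
    have ha' : ((aw L : ℝ) / 100000) ^ 2 ≤ (ss L : ℝ) ^ 2 + 1 := by
      have := (Rat.cast_le (K := ℝ)).mpr ha
      push_cast at this
      exact this
    have hb' : (ss L : ℝ) ^ 2 + 49 ≤ ((bw L : ℝ) / 100000) ^ 2 := by
      have := (Rat.cast_le (K := ℝ)).mpr hb
      push_cast at this
      exact this
    have hk' : (kk (L + 1) : ℝ) / 100 + 1 / 1000 ≤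
      (ss L : ℝ) / 2 + 2 * ((aw L : ℝ) / 100000) + 3 / 2 - ((bw L : ℝ) / 100000) / 2 := by
      have := (Rat.cast_le (K := ℝ)).mpr hk
      push_cast at this
      exact this
    have hs : (0 : ℝ) ≤ ss L := by exact_mod_cast (ss_pos L).le
    have h3 := TT_grid n (ss L) _ _ u hs (by positivity) ha' hb' (by simpa using hLF.2)
    have h4 := DD_le n (L + 1)
    have hn' : (1250 : ℝ) ≤ n := by exact_mod_cast hn
    nlinarith [mul_le_mul_of_nonneg_left hk' (by positivity : (0 : ℝ) ≤ n)]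

theorem abel_sum (m : ℕ → ℝ) (L : ℕ) :
    ∑ l ∈ range (L + 1), ((L : ℝ) - l) * (m (l + 1) - m l) =
      ∑ l ∈ range L, m (l + 1) - L * m 0 := by
  induction L with
  | zero => simp
  | succ L ih =>
    have h : ∑ l ∈ range (L + 1), (m (l + 1) - m l) = m (L + 1) - m 0 := sum_range_sub m (L + 1)
    rw [sum_range_succ, sum_range_succ (fun l => m (l + 1))]
    have e : ∑ l ∈ range (L + 1), (((L + 1 : ℕ) : ℝ) - l) * (m (l + 1) - m l) =
        ∑ l ∈ range (L + 1), ((L : ℝ) - l) * (m (l + 1) - m l) +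
          ∑ l ∈ range (L + 1), (m (l + 1) - m l) := by
      rw [← sum_add_distrib]
      refine sum_congr rfl fun l _ => ?_
      push_cast; ring
    rw [e, ih, h]
    push_cast; ring

theorem sum_min (Dg N : ℕ) (h : Dg ≤ N) :
    ∑ t ∈ range N, ((min t Dg : ℕ) : ℝ) = (N : ℝ) * Dg - Dg * (Dg + 1) / 2 := by
  induction N, h using Nat.le_induction with
  | base =>
    have h1 : ∑ t ∈ range Dg, ((min t Dg : ℕ) : ℝ) = ∑ t ∈ range Dg, (t : ℝ) :=
      sum_congr rfl fun t ht => by rw [min_eq_left (mem_range.mp ht).le]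
    rw [h1]
    clear h1
    induction Dg with
    | zero => simp
    | succ k ih => rw [sum_range_succ, ih]; push_cast; ring
  | succ N hN ih =>
    rw [sum_range_succ, ih, min_eq_right hN]
    push_cast; ring

theorem sum_min_DD (n l : ℕ) (hl : l < 40) :
    (n : ℝ) ^ 2 * (6 * ((kk (l + 1) : ℝ) / 100) - ((kk (l + 1) : ℝ) / 100) ^ 2 / 2) - 9 * n ≤
      ∑ t ∈ range (6 * n), ((min t (DD n (l + 1)) : ℕ) : ℝ) := by
  have hk := (grid_check l hl).2.1
  have hD : DD n (l + 1) ≤ 6 * n := by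
    have : n * kk (l + 1) ≤ n * 600 := Nat.mul_le_mul_left _ hk
    unfold DD
    omega
  rw [sum_min _ _ hD]
  have h1 := DD_le n (l + 1)
  have h2 := le_DD n (l + 1)
  have h3 : (DD n (l + 1) : ℝ) ≤ 6 * n := by exact_mod_cast hD
  have h4 : (0 : ℝ) ≤ DD n (l + 1) := by positivity
  have hn : (0 : ℝ) ≤ n := by positivity
  have h5 : (DD n (l + 1) : ℝ) ^ 2 ≤ (n * ((kk (l + 1) : ℝ) / 100)) ^ 2 :=
    pow_le_pow_left₀ h4 h1 2
  push_cast
  nlinarith [mul_le_mul_of_nonneg_left h2 hn]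

/-- `u log u - u`. -/
noncomputable def GG (u : ℝ) : ℝ := u * Real.log u - u

theorem GG_sub_le (a b : ℝ) (ha : 0 < a) (hb : 0 < b) : GG b - GG a ≤ (b - a) * Real.log b := by
  unfold GG
  have h := Real.log_le_sub_one_of_pos (div_pos hb ha)
  rw [Real.log_div hb.ne' ha.ne'] at h
  have h2 := mul_le_mul_of_nonneg_left h ha.le
  have h3 : a * (b / a - 1) = b - a := by field_simp
  nlinarith

theorem le_GG_sub (a b : ℝ) (ha : 0 < a) (hb : 0 < b) : (b - a) * Real.log a ≤ GG b - GG a := by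
  have := GG_sub_le b a hb ha
  linarith

theorem sum_log_le (n : ℕ) :
    ∑ i ∈ range n, Real.log ((i : ℝ) + 1 / 2) ≤ GG ((n : ℝ) + 1 / 2) - GG (1 / 2) := by
  induction n with
  | zero => simp
  | succ n ih =>
    rw [sum_range_succ]
    have h := le_GG_sub ((n : ℝ) + 1 / 2) (((n + 1 : ℕ) : ℝ) + 1 / 2) (by positivity)
      (by positivity)
    have e : ((n + 1 : ℕ) : ℝ) + 1 / 2 - ((n : ℝ) + 1 / 2) = 1 := by push_cast; ring
    rw [e] at h
    linarith

theorem le_sum_log (n m : ℕ) (hn : 1 ≤ n) (h : n ≤ m) :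
    GG ((m : ℝ) - 1 / 2) - GG ((n : ℝ) - 1 / 2) ≤ ∑ j ∈ Ico n m, Real.log ((j : ℝ) + 1 / 2) := by
  induction m, h using Nat.le_induction with
  | base => simp
  | succ m hm ih =>
    rw [sum_Ico_succ_top hm]
    have hm' : (1 : ℝ) ≤ m := by exact_mod_cast hn.trans hm
    have h := GG_sub_le ((m : ℝ) - 1 / 2) ((m : ℝ) + 1 / 2) (by linarith) (by positivity)
    have e : ((m + 1 : ℕ) : ℝ) - 1 / 2 = (m : ℝ) + 1 / 2 := by push_cast; ring
    have e2 : (m : ℝ) + 1 / 2 - ((m : ℝ) - 1 / 2) = 1 := by ring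
    rw [e2] at h
    rw [e]
    linarith

/-- Logarithm of the weight at `y = 0`. -/
noncomputable def lw (n : ℕ) : ℝ :=
  3 * ∑ i ∈ range n, Real.log ((i : ℝ) + 1 / 2) - ∑ j ∈ Ico n (7 * n), Real.log ((j : ℝ) + 1 / 2)

theorem lw_le (n : ℕ) (hn : 2 ≤ n) :
    lw n ≤ -3 * n * Real.log n + (3 - 7 * Real.log 7) * n + 2 * Real.log (7 * n) + 3 := by
  unfold lw
  have hn' : (2 : ℝ) ≤ n := by exact_mod_cast hn
  have h1 := sum_log_le n
  have h2 := le_sum_log n (7 * n) (by omega) (by omega)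
  have h3 := GG_sub_le (n : ℝ) ((n : ℝ) + 1 / 2) (by linarith) (by linarith)
  have h4 := GG_sub_le (((7 * n : ℕ) : ℝ) - 1 / 2) (7 * (n : ℝ)) (by push_cast; linarith)
    (by linarith)
  have h5 := le_GG_sub ((n : ℝ) - 1 / 2) (n : ℝ) (by linarith) (by linarith)
  have h6 : 0 ≤ Real.log ((n : ℝ) - 1 / 2) := Real.log_nonneg (by linarith)
  have h7 : Real.log ((n : ℝ) + 1 / 2) ≤ Real.log (7 * n) :=
    Real.log_le_log (by linarith) (by linarith)
  have h8 : -1 ≤ GG (1 / 2) := by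
    unfold GG
    have := Real.log_two_lt_d9
    rw [one_div, Real.log_inv]
    linarith
  have h9 : GG (7 * (n : ℝ)) = 7 * n * Real.log 7 + 7 * n * Real.log n - 7 * n := by
    unfold GG
    rw [Real.log_mul (by norm_num) (by linarith)]
    ring
  have h10 : GG (n : ℝ) = n * Real.log n - n := rfl
  have e1 : (n : ℝ) + 1 / 2 - n = 1 / 2 := by ring
  have e2 : 7 * (n : ℝ) - (((7 * n : ℕ) : ℝ) - 1 / 2) = 1 / 2 := by push_cast; ring
  have e3 : (n : ℝ) - ((n : ℝ) - 1 / 2) = 1 / 2 := by ring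
  rw [e1] at h3
  rw [e2] at h4
  rw [e3] at h5
  linarith

end Pool.Agent.P.MP_a89d6d_nt.Z23.Energy
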