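import Mathlib

/-!
The kernel on vertical lines and the shift of the line of integration.
-/

namespace Pool.Agent.P.MP_a89d6d_nt.Z23.Integral

open Filter MeasureTheory Topology Set

/-- The square of the hyperbolic secant at `π y`. -/
noncomputable def sh (y : ℝ) : ℝ := 1 / Real.cosh (Real.pi * y) ^ 2

/-- The hyperbolic tangent at `π y`. -/
noncomputable def th (y : ℝ) : ℝ := Real.sinh (Real.pi * y) / Real.cosh (Real.pi * y)

/-- The kernel. -/
noncomputable def om (a b : ℝ) (y : ℝ) : ℂ :=
  ((Real.pi / 2 * sh y * a : ℝ) : ℂ) + ((Real.pi / 2 * sh y * (b * Real.pi * th y) : ℝ) : ℂ) * Complex.I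

theorem exp_abs_le_cosh (u : ℝ) : Real.exp |u| ≤ 2 * Real.cosh u := by
  rw [Real.cosh_eq]
  have h1 := Real.exp_pos u
  have h2 := Real.exp_pos (-u)
  rcases abs_cases u with h | h <;> rw [h.1] <;> linarith

theorem sh_pos (y : ℝ) : 0 < sh y := by
  unfold sh
  have := Real.cosh_pos (Real.pi * y)
  positivity

theorem sh_le (y : ℝ) : sh y ≤ 4 * Real.exp (-2 * Real.pi * |y|) := by
  unfold sh
  have hc := Real.cosh_pos (Real.pi * y)
  have h := exp_abs_le_cosh (Real.pi * y)
  rw [abs_mul, abs_of_pos Real.pi_pos] at h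
  have he := Real.exp_pos (Real.pi * |y|)
  have h2 : Real.exp (-2 * Real.pi * |y|) = 1 / Real.exp (Real.pi * |y|) ^ 2 := by
    rw [← Real.exp_nat_mul, one_div, ← Real.exp_neg]
    congr 1
    push_cast
    ring
  rw [h2, mul_one_div, div_le_div_iff₀ (by positivity) (by positivity)]
  nlinarith

theorem th_eq (y : ℝ) : th y = Real.tanh (Real.pi * y) := by
  rw [Real.tanh_eq_sinh_div_cosh, th]

theorem abs_th_le (y : ℝ) : |th y| ≤ 1 := by
  rw [th_eq]; exact (Real.abs_tanh_lt_one _).le

theorem continuous_sh : Continuous sh := by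
  unfold sh
  refine Continuous.div continuous_const (by fun_prop) fun y => ?_
  exact pow_ne_zero _ (Real.cosh_pos _).ne'

theorem continuous_th : Continuous th := by
  unfold th
  refine Continuous.div (by fun_prop) (by fun_prop) fun y => ?_
  exact (Real.cosh_pos _).ne'

theorem continuous_om (a b : ℝ) : Continuous (om a b) := by
  have h1 := continuous_sh
  have h2 := continuous_th
  unfold om
  fun_prop

/-- The constant in the bound for the kernel. -/
noncomputable def kc (a b : ℝ) : ℝ := 2 * Real.pi * (|a| + Real.pi * |b|)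

theorem kc_nonneg (a b : ℝ) : 0 ≤ kc a b := by
  unfold kc
  have := Real.pi_pos
  positivity

theorem norm_om_le (a b y : ℝ) : ‖om a b y‖ ≤ kc a b * Real.exp (-2 * Real.pi * |y|) := by
  have hs := sh_pos y
  have hs2 := sh_le y
  have ht := abs_th_le y
  have hp := Real.pi_pos
  have h1 : ‖om a b y‖ ≤ Real.pi / 2 * sh y * |a| + Real.pi / 2 * sh y * (|b| * Real.pi * |th y|) := by
    unfold om
    refine (norm_add_le _ _).trans (le_of_eq ?_)
    rw [norm_mul, Complex.norm_I, mul_one, Complex.norm_real, Complex.norm_real, Real.norm_eq_abs,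
      Real.norm_eq_abs]
    simp only [abs_mul, abs_div, abs_of_pos hs, abs_of_pos hp, abs_two]
  have h2 : |b| * Real.pi * |th y| ≤ Real.pi * |b| := by
    have : 0 ≤ |b| * Real.pi := by positivity
    nlinarith
  have h3 : ‖om a b y‖ ≤ Real.pi / 2 * sh y * (|a| + Real.pi * |b|) := by
    have : Real.pi / 2 * sh y * (|b| * Real.pi * |th y|) ≤ Real.pi / 2 * sh y * (Real.pi * |b|) :=
      mul_le_mul_of_nonneg_left h2 (by positivity)
    linarith
  refine h3.trans ?_
  unfold kc
  have h4 : 0 ≤ Real.pi / 2 * (|a| + Real.pi * |b|) := by positivity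
  nlinarith

theorem exp_neg_two_le (y : ℝ) : Real.exp (-2 * |y|) ≤ (1 + y ^ 2)⁻¹ := by
  have h1 : |y| + 1 ≤ Real.exp |y| := Real.add_one_le_exp _
  have h0 := abs_nonneg y
  have h2 : Real.exp (-2 * |y|) = (Real.exp |y| ^ 2)⁻¹ := by
    rw [← Real.exp_nat_mul, ← Real.exp_neg]
    congr 1
    push_cast
    ring
  rw [h2]
  refine inv_anti₀ (by positivity) ?_
  have : y ^ 2 = |y| ^ 2 := (sq_abs y).symm
  nlinarith

theorem exp_mul_le (y : ℝ) :
    Real.exp |y| * Real.exp (-2 * Real.pi * |y|) ≤ Real.exp (-2 * |y|) := by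
  rw [← Real.exp_add]
  refine Real.exp_le_exp.2 ?_
  have := Real.pi_gt_three
  have h0 := abs_nonneg y
  nlinarith

theorem integrable_of_le {E : Type} [NormedAddCommGroup E] (g : ℝ → E) (hg : Continuous g) (C : ℝ)
    (h : ∀ y, ‖g y‖ ≤ C * (Real.exp |y| * Real.exp (-2 * Real.pi * |y|))) : Integrable g := by
  have hC : 0 ≤ C := by
    have h1 := (norm_nonneg _).trans (h 0)
    simpa using h1
  refine Integrable.mono' (integrable_inv_one_add_sq.const_mul C) hg.aestronglyMeasurable
    (Eventually.of_forall fun y => (h y).trans ?_)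
  exact mul_le_mul_of_nonneg_left ((exp_mul_le y).trans (exp_neg_two_le y)) hC

theorem integrable_om (a b : ℝ) (g : ℝ → ℂ) (hg : Continuous g) (C : ℝ)
    (h : ∀ y, ‖g y‖ ≤ C * Real.exp |y|) : Integrable fun y => g y * om a b y := by
  refine integrable_of_le _ (hg.mul (continuous_om a b)) (C * kc a b) fun y => ?_
  rw [norm_mul]
  refine (mul_le_mul (h y) (norm_om_le a b y) (norm_nonneg _)
    ((norm_nonneg _).trans (h y))).trans (le_of_eq ?_)
  ring

/-! ### Elementary integrals -/

theorem hasDerivAt_th (y : ℝ) : HasDerivAt th (Real.pi * sh y) y := by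
  have hc := (Real.cosh_pos (Real.pi * y)).ne'
  have h0 : HasDerivAt (fun y : ℝ => Real.pi * y) Real.pi y := by
    simpa using (hasDerivAt_id y).const_mul Real.pi
  have h := (h0.sinh).div (h0.cosh) hc
  refine HasDerivAt.congr_deriv h ?_
  unfold sh
  have := Real.cosh_sq_sub_sinh_sq (Real.pi * y)
  field_simp
  nlinarith

theorem sh_eq (y : ℝ) : sh y = 1 - th y ^ 2 := by
  have hc := (Real.cosh_pos (Real.pi * y)).ne'
  unfold sh th
  have := Real.cosh_sq_sub_sinh_sq (Real.pi * y)
  field_simp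
  nlinarith

theorem hasDerivAt_sh (y : ℝ) : HasDerivAt sh (-2 * Real.pi * (sh y * th y)) y := by
  have h1 := ((hasDerivAt_th y).pow 2).const_sub 1
  have h2 : HasDerivAt sh _ y :=
    h1.congr_of_eventuallyEq (Eventually.of_forall fun y => sh_eq y)
  refine HasDerivAt.congr_deriv h2 ?_
  push_cast
  ring

theorem th_neg (y : ℝ) : th (-y) = -th y := by
  simp [th_eq]

theorem sh_neg (y : ℝ) : sh (-y) = sh y := by
  simp [sh]

theorem abs_le_exp (y : ℝ) : |y| ≤ Real.exp |y| := by
  have := Real.add_one_le_exp |y|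
  linarith

theorem one_le_exp_abs (y : ℝ) : 1 ≤ Real.exp |y| := Real.one_le_exp (abs_nonneg y)

theorem tendsto_exp_atTop : Tendsto (fun y : ℝ => Real.exp (-2 * |y|)) atTop (𝓝 0) := by
  refine Real.tendsto_exp_atBot.comp ?_
  exact tendsto_abs_atTop_atTop.const_mul_atTop_of_neg (by norm_num)

theorem abs_mul_sh_le (y : ℝ) :
    |y * sh y| ≤ 4 * (Real.exp |y| * Real.exp (-2 * Real.pi * |y|)) := by
  rw [abs_mul, abs_of_pos (sh_pos y)]
  have := mul_le_mul (abs_le_exp y) (sh_le y) (sh_pos y).le (Real.exp_pos _).le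
  linarith

theorem abs_sh_le (y : ℝ) : |sh y| ≤ 4 * (Real.exp |y| * Real.exp (-2 * Real.pi * |y|)) := by
  rw [abs_of_pos (sh_pos y)]
  have := mul_le_mul (one_le_exp_abs y) (sh_le y) (sh_pos y).le (Real.exp_pos _).le
  linarith

theorem tendsto_mul_sh : Tendsto (fun y : ℝ => y * sh y) atTop (𝓝 0) := by
  refine squeeze_zero_norm (fun y => ?_) (by simpa using tendsto_exp_atTop.const_mul 4)
  rw [Real.norm_eq_abs]
  refine (abs_mul_sh_le y).trans ?_
  have := exp_mul_le y
  simp only [neg_mul] at this ⊢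
  linarith

theorem tendsto_sh : Tendsto sh atTop (𝓝 0) := by
  refine squeeze_zero_norm (fun y => ?_) (by simpa using tendsto_exp_atTop.const_mul 4)
  rw [Real.norm_eq_abs]
  refine (abs_sh_le y).trans ?_
  have := exp_mul_le y
  simp only [neg_mul] at this ⊢
  linarith

theorem tendsto_th : Tendsto th atTop (𝓝 1) := by
  have h1 : Tendsto (fun y => Real.sqrt (1 - sh y)) atTop (𝓝 (Real.sqrt (1 - 0))) :=
    (tendsto_sh.const_sub 1).sqrt
  simp only [sub_zero, Real.sqrt_one] at h1
  refine h1.congr' ?_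
  filter_upwards [eventually_ge_atTop 0] with y hy
  rw [sh_eq, sub_sub_cancel, Real.sqrt_sq]
  unfold th
  have := Real.pi_pos
  exact div_nonneg (Real.sinh_nonneg_iff.2 (by positivity)) (Real.cosh_pos _).le

theorem tendsto_th_bot : Tendsto th atBot (𝓝 (-1)) := by
  have h := (tendsto_th.comp tendsto_neg_atBot_atTop).neg
  refine h.congr fun y => ?_
  simp [th_neg]

theorem tendsto_mul_sh_bot : Tendsto (fun y : ℝ => y * sh y) atBot (𝓝 0) := by
  have h := (tendsto_mul_sh.comp tendsto_neg_atBot_atTop).neg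
  simp only [neg_zero] at h
  refine h.congr fun y => ?_
  simp [sh_neg]

theorem integrable_sh : Integrable sh :=
  integrable_of_le _ continuous_sh 4 fun y => abs_sh_le y

theorem integrable_mul_sh : Integrable fun y => y * sh y :=
  integrable_of_le _ (continuous_id.mul continuous_sh) 4 fun y => abs_mul_sh_le y

theorem integrable_sh_th : Integrable fun y => sh y * th y := by
  refine integrable_of_le _ (continuous_sh.mul continuous_th) 4 fun y => ?_
  rw [Real.norm_eq_abs, abs_mul]
  have := mul_le_mul (abs_sh_le y) (abs_th_le y) (abs_nonneg _) (by positivity)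
  linarith

theorem integrable_mul_sh_th : Integrable fun y => y * sh y * th y := by
  refine integrable_of_le _ ((continuous_id.mul continuous_sh).mul continuous_th) 4 fun y => ?_
  rw [Real.norm_eq_abs, abs_mul]
  have := mul_le_mul (abs_mul_sh_le y) (abs_th_le y) (abs_nonneg _) (by positivity)
  linarith

theorem integral_odd (g : ℝ → ℝ) (h : ∀ y, g (-y) = -g y) : ∫ y, g y = 0 := by
  have h1 := integral_neg_eq_self g volume
  simp only [h, integral_neg] at h1
  linarith

theorem integral_sh : ∫ y, sh y = 2 / Real.pi := by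
  have h := integral_of_hasDerivAt_of_tendsto hasDerivAt_th (integrable_sh.const_mul _)
    tendsto_th_bot tendsto_th
  rw [integral_const_mul] at h
  have := Real.pi_pos
  field_simp
  linarith

theorem integral_sh_th : ∫ y, sh y * th y = 0 :=
  integral_odd _ fun y => by rw [sh_neg, th_neg]; ring

theorem integral_mul_sh : ∫ y, y * sh y = 0 :=
  integral_odd _ fun y => by rw [sh_neg]; ring

theorem integral_mul_sh_th : ∫ y, y * sh y * th y = 1 / Real.pi ^ 2 := by
  have hd : ∀ y, HasDerivAt (fun y => th y - Real.pi * (y * sh y))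
      (2 * Real.pi ^ 2 * (y * sh y * th y)) y := by
    intro y
    have h := (hasDerivAt_th y).sub (((hasDerivAt_id y).mul (hasDerivAt_sh y)).const_mul Real.pi)
    refine HasDerivAt.congr_deriv h ?_
    simp only [id]
    ring
  have h := integral_of_hasDerivAt_of_tendsto hd (integrable_mul_sh_th.const_mul _)
    (tendsto_th_bot.sub (tendsto_mul_sh_bot.const_mul _))
    (tendsto_th.sub (tendsto_mul_sh.const_mul _))
  rw [integral_const_mul] at h
  have := Real.pi_pos
  field_simp
  linarith

theorem integral_om (a b : ℝ) : ∫ y, om a b y = a := by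
  have h : ∀ y, om a b y = ((Real.pi / 2 * a : ℝ) : ℂ) * (sh y : ℂ)
      + ((Real.pi / 2 * b * Real.pi : ℝ) : ℂ) * Complex.I * ((sh y * th y : ℝ) : ℂ) := by
    intro y
    unfold om
    push_cast
    ring
  simp only [h]
  rw [integral_add (integrable_sh.ofReal.const_mul _) (integrable_sh_th.ofReal.const_mul _),
    integral_const_mul, integral_const_mul, integral_complex_ofReal, integral_complex_ofReal, integral_sh,
    integral_sh_th]
  have : (Real.pi : ℂ) ≠ 0 := by exact_mod_cast Real.pi_ne_zero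
  push_cast
  field_simp
  ring

theorem integral_mul_om (a b : ℝ) : ∫ y : ℝ, (2 * (y : ℂ) * Complex.I) * om a b y = -b := by
  have h : ∀ y : ℝ, (2 * (y : ℂ) * Complex.I) * om a b y =
      ((Real.pi * a : ℝ) : ℂ) * Complex.I * ((y * sh y : ℝ) : ℂ)
      + ((-Real.pi * b * Real.pi : ℝ) : ℂ) * ((y * sh y * th y : ℝ) : ℂ) := by
    intro y
    unfold om
    push_cast
    linear_combination (Real.pi * b * Real.pi * (y * sh y * th y) : ℂ) * Complex.I_mul_I
  simp only [h]
  rw [integral_add (integrable_mul_sh.ofReal.const_mul _)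
    (integrable_mul_sh_th.ofReal.const_mul _),
    integral_const_mul, integral_const_mul, integral_complex_ofReal, integral_complex_ofReal, integral_mul_sh,
    integral_mul_sh_th]
  have : (Real.pi : ℂ) ≠ 0 := by exact_mod_cast Real.pi_ne_zero
  push_cast
  field_simp
  ring

/-! ### The shift of the line -/

/-- The kernel as a function of a complex variable. -/
noncomputable def kern (a b : ℝ) (z : ℂ) : ℂ :=
  (Real.pi : ℂ) / 2 * (a / Complex.sin (Real.pi * z) ^ 2
    - b * Real.pi * Complex.cos (Real.pi * z) / Complex.sin (Real.pi * z) ^ 3)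

theorem kern_right (a b y : ℝ) : kern a b (1 / 2 + y * Complex.I) = om a b y := by
  have h : (Real.pi : ℂ) * (1 / 2 + y * Complex.I) = (Real.pi * y : ℝ) * Complex.I + Real.pi / 2 := by
    push_cast; ring
  have hc : (Real.cosh (Real.pi * y) : ℂ) ≠ 0 := by exact_mod_cast (Real.cosh_pos _).ne'
  unfold kern om sh th
  rw [h, Complex.sin_add_pi_div_two, Complex.cos_add_pi_div_two, Complex.cos_mul_I,
    Complex.sin_mul_I, ← Complex.ofReal_cosh, ← Complex.ofReal_sinh]
  simp only [Complex.ofReal_mul, Complex.ofReal_div, Complex.ofReal_pow, Complex.ofReal_one,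
    Complex.ofReal_ofNat]
  field_simp
  ring

theorem kern_left (a b y : ℝ) : kern a b (-1 / 2 + y * Complex.I) = om a b y := by
  have h : (Real.pi : ℂ) * (-1 / 2 + y * Complex.I) = (Real.pi * y : ℝ) * Complex.I - Real.pi / 2 := by
    push_cast; ring
  have hc : (Real.cosh (Real.pi * y) : ℂ) ≠ 0 := by exact_mod_cast (Real.cosh_pos _).ne'
  unfold kern om sh th
  rw [h, Complex.sin_sub_pi_div_two, Complex.cos_sub_pi_div_two, Complex.cos_mul_I,
    Complex.sin_mul_I, ← Complex.ofReal_cosh, ← Complex.ofReal_sinh]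
  simp only [Complex.ofReal_mul, Complex.ofReal_div, Complex.ofReal_pow, Complex.ofReal_one,
    Complex.ofReal_ofNat]
  field_simp
  ring

theorem norm_cos_le (w : ℂ) : ‖Complex.cos w‖ ≤ Real.exp |w.im| := by
  have h : Complex.cos w = (Complex.exp (w * Complex.I) + Complex.exp (-w * Complex.I)) / 2 := rfl
  rw [h, norm_div, Complex.norm_two]
  have h1 := norm_add_le (Complex.exp (w * Complex.I)) (Complex.exp (-w * Complex.I))
  rw [Complex.norm_exp, Complex.norm_exp] at h1
  have h2 : Real.exp (w * Complex.I).re ≤ Real.exp |w.im| :=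
    Real.exp_le_exp.2 (by simpa using neg_le_abs _)
  have h3 : Real.exp (-w * Complex.I).re ≤ Real.exp |w.im| :=
    Real.exp_le_exp.2 (by simpa using le_abs_self _)
  linarith

theorem le_norm_sin (w : ℂ) (hw : 1 ≤ |w.im|) : Real.exp |w.im| / 4 ≤ ‖Complex.sin w‖ := by
  have h : Complex.sin w =
    (Complex.exp (-w * Complex.I) - Complex.exp (w * Complex.I)) * Complex.I / 2 := rfl
  rw [h, norm_div, Complex.norm_two, norm_mul, Complex.norm_I, mul_one]
  have h1 := abs_norm_sub_norm_le (Complex.exp (-w * Complex.I)) (Complex.exp (w * Complex.I))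
  rw [Complex.norm_exp, Complex.norm_exp] at h1
  have e1 : (-w * Complex.I).re = w.im := by simp
  have e2 : (w * Complex.I).re = -w.im := by simp
  rw [e1, e2] at h1
  have h2 : 2 ≤ Real.exp |w.im| := by
    have := Real.add_one_le_exp |w.im|
    linarith
  have h3 : Real.exp (-|w.im|) ≤ 1 := Real.exp_le_one_iff.2 (by linarith)
  rcases abs_cases w.im with h4 | h4
  · rw [h4.1] at h2 h3 ⊢
    have := le_abs_self (Real.exp w.im - Real.exp (-w.im))
    linarith
  · rw [h4.1] at h2 h3 ⊢
    rw [neg_neg] at h3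
    have := neg_le_abs (Real.exp w.im - Real.exp (-w.im))
    linarith

theorem norm_kern_le (a b : ℝ) (z : ℂ) (hz : 1 ≤ |z.im|) :
    ‖kern a b z‖ ≤ 16 * kc a b * Real.exp (-2 * Real.pi * |z.im|) := by
  have hp := Real.pi_pos
  have him : |((Real.pi : ℂ) * z).im| = Real.pi * |z.im| := by
    simp [abs_mul, abs_of_pos hp]
  have h1 : 1 ≤ |((Real.pi : ℂ) * z).im| := by
    rw [him]
    have := Real.pi_gt_three
    nlinarith
  have hs := le_norm_sin _ h1
  have hc := norm_cos_le ((Real.pi : ℂ) * z)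
  rw [him] at hs hc
  set E := Real.exp (Real.pi * |z.im|) with hE
  have hE0 : 0 < E := Real.exp_pos _
  have h2 : Real.exp (-2 * Real.pi * |z.im|) = 1 / E ^ 2 := by
    rw [hE, ← Real.exp_nat_mul, one_div, ← Real.exp_neg]
    congr 1
    push_cast
    ring
  have hA : ‖(a : ℂ) / Complex.sin (Real.pi * z) ^ 2‖ ≤ |a| / (E / 4) ^ 2 := by
    rw [norm_div, norm_pow, Complex.norm_real, Real.norm_eq_abs]
    gcongr
  have hB : ‖(b : ℂ) * Real.pi * Complex.cos (Real.pi * z) / Complex.sin (Real.pi * z) ^ 3‖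
      ≤ |b| * Real.pi * E / (E / 4) ^ 3 := by
    rw [norm_div, norm_pow, norm_mul, norm_mul, Complex.norm_real, Complex.norm_real,
      Real.norm_eq_abs, Real.norm_eq_abs, abs_of_pos hp]
    gcongr
  unfold kern
  rw [norm_mul, norm_div, Complex.norm_two, Complex.norm_real, Real.norm_eq_abs, abs_of_pos hp, h2]
  have h3 := (norm_sub_le _ _).trans (add_le_add hA hB)
  refine (mul_le_mul_of_nonneg_left h3 (by positivity)).trans ?_
  unfold kc
  have e : Real.pi / 2 * (|a| / (E / 4) ^ 2 + |b| * Real.pi * E / (E / 4) ^ 3) =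
      (8 * Real.pi * |a| + 32 * Real.pi * (Real.pi * |b|)) * (1 / E ^ 2) := by
    field_simp
    ring
  rw [e]
  refine mul_le_mul_of_nonneg_right ?_ (by positivity)
  have : 0 ≤ Real.pi * |a| := by positivity
  nlinarith

/-- The function `z / sin (π z)`, extended at zero. -/
noncomputable def sg (z : ℂ) : ℂ := (dslope (fun z : ℂ => Complex.sin (Real.pi * z)) 0 z)⁻¹

theorem sg_of_ne (z : ℂ) (hz : z ≠ 0) : sg z = z / Complex.sin (Real.pi * z) := by
  unfold sg
  rw [dslope_of_ne _ hz, slope_def_field]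
  simp

theorem differentiableOn_sg : DifferentiableOn ℂ sg {z | |z.re| ≤ 1 / 2} := by
  have h1 : DifferentiableOn ℂ (dslope (fun z : ℂ => Complex.sin (Real.pi * z)) 0) univ :=
    (Complex.differentiableOn_dslope univ_mem).2 (by fun_prop)
  refine (h1.mono (subset_univ _)).inv fun z hz => ?_
  have hp : (Real.pi : ℂ) ≠ 0 := by exact_mod_cast Real.pi_ne_zero
  by_cases h0 : z = 0
  · subst h0
    rw [dslope_same]
    have h : HasDerivAt (fun z : ℂ => Complex.sin (Real.pi * z))
        (Complex.cos (Real.pi * 0) * (Real.pi * 1)) 0 :=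
      ((hasDerivAt_id (0 : ℂ)).const_mul (Real.pi : ℂ)).csin
    rw [h.deriv]
    simp
  · rw [dslope_of_ne _ h0, slope_def_field]
    simp only [mul_zero, Complex.sin_zero, sub_zero]
    refine div_ne_zero (fun h => ?_) h0
    obtain ⟨k, hk⟩ := Complex.sin_eq_zero_iff.1 h
    have hz' : z = k := by
      apply mul_left_cancel₀ hp
      rw [hk, mul_comm]
    rw [hz'] at hz h0
    simp only [mem_ofPred_eq, Complex.intCast_re] at hz
    have hk0 : k ≠ 0 := by
      rintro rfl
      simp at h0
    have : (1 : ℝ) ≤ |(k : ℝ)| := by exact_mod_cast Int.one_le_abs hk0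
    linarith

/-- The kernel times `z ^ 3`, extended at zero. -/
noncomputable def kern3 (a b : ℝ) (z : ℂ) : ℂ :=
  (Real.pi : ℂ) / 2 * (a * z * sg z ^ 2 - b * Real.pi * Complex.cos (Real.pi * z) * sg z ^ 3)

theorem kern3_of_ne (a b : ℝ) (z : ℂ) (hz : z ≠ 0) : kern3 a b z = z ^ 3 * kern a b z := by
  unfold kern3 kern
  rw [sg_of_ne z hz]
  ring

theorem differentiableOn_kern3 (a b : ℝ) :
    DifferentiableOn ℂ (kern3 a b) {z | |z.re| ≤ 1 / 2} := by
  have h := differentiableOn_sg
  unfold kern3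
  fun_prop

theorem horizontal_le (a b : ℝ) (F : ℂ → ℂ) (C : ℝ)
    (hb : ∀ z : ℂ, |z.re| ≤ 1 / 2 → ‖z ^ 3 * F z‖ ≤ C * Real.exp |z.im|) (T : ℝ) (hT : 1 ≤ |T|) :
    ‖∫ x : ℝ in (-1 / 2 : ℝ)..(1 / 2 : ℝ), F (x + T * Complex.I) * kern3 a b (x + T * Complex.I)‖
      ≤ C * (16 * kc a b) * Real.exp (-2 * |T|) := by
  have hC : 0 ≤ C := by
    have h1 := (norm_nonneg _).trans (hb 0 (by simp))
    simpa using h1
  have hk := kc_nonneg a b
  refine (intervalIntegral.norm_integral_le_of_norm_le_const
    (C := C * (16 * kc a b) * Real.exp (-2 * |T|)) fun x hx => ?_).trans (by norm_num)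
  rw [uIoc_of_le (by norm_num)] at hx
  have hre : ((x : ℂ) + T * Complex.I).re = x := by simp
  have him : ((x : ℂ) + T * Complex.I).im = T := by simp
  have hne : (x : ℂ) + T * Complex.I ≠ 0 := by
    intro h
    rw [h] at him
    simp only [Complex.zero_im] at him
    rw [← him] at hT
    norm_num at hT
  have h1 := hb (x + T * Complex.I) (by
    rw [hre, abs_le]; constructor <;> linarith [hx.1, hx.2])
  have h2 := norm_kern_le a b (x + T * Complex.I) (by rwa [him])
  rw [him] at h1 h2
  rw [kern3_of_ne _ _ _ hne, ← mul_assoc, mul_comm (F _), norm_mul]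
  refine (mul_le_mul h1 h2 (norm_nonneg _) (by positivity)).trans ?_
  have h3 := mul_le_mul_of_nonneg_left (exp_mul_le T) (show 0 ≤ C * (16 * kc a b) by positivity)
  linarith

theorem shift (a b : ℝ) (F : ℂ → ℂ) (hd : DifferentiableOn ℂ F {z | |z.re| ≤ 1 / 2}) (C : ℝ)
    (hb : ∀ z : ℂ, |z.re| ≤ 1 / 2 → ‖z ^ 3 * F z‖ ≤ C * Real.exp |z.im|) :
    ∫ y : ℝ, ((1 / 2 + y * Complex.I) ^ 3 * F (1 / 2 + y * Complex.I)) * om a b y =
      ∫ y : ℝ, ((-1 / 2 + y * Complex.I) ^ 3 * F (-1 / 2 + y * Complex.I)) * om a b y := by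
  set G : ℂ → ℂ := fun z => F z * kern3 a b z with hG
  have hGd : DifferentiableOn ℂ G {z | |z.re| ≤ 1 / 2} := hd.mul (differentiableOn_kern3 a b)
  have hline : ∀ σ : ℝ, |σ| = 1 / 2 → Integrable fun y : ℝ =>
      (((σ : ℂ) + y * Complex.I) ^ 3 * F (σ + y * Complex.I)) * om a b y := by
    intro σ hσ
    refine integrable_om a b _ ?_ C fun y => ?_
    · refine Continuous.mul (by fun_prop) ?_
      refine hd.continuousOn.comp_continuous (by fun_prop) fun y => ?_
      simp [hσ]
    · simpa using hb ((σ : ℂ) + y * Complex.I) (by simp [hσ])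
  have hR : ∀ y : ℝ, G (((1 / 2 : ℝ) : ℂ) + y * Complex.I) =
      ((1 / 2 + y * Complex.I) ^ 3 * F (1 / 2 + y * Complex.I)) * om a b y := by
    intro y
    have hne : (1 / 2 : ℂ) + y * Complex.I ≠ 0 := by
      intro h
      have := congrArg Complex.re h
      simp at this
    simp only [hG]
    push_cast
    rw [kern3_of_ne _ _ _ hne, kern_right]
    ring
  have hL : ∀ y : ℝ, G (((-1 / 2 : ℝ) : ℂ) + y * Complex.I) =
      ((-1 / 2 + y * Complex.I) ^ 3 * F (-1 / 2 + y * Complex.I)) * om a b y := by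
    intro y
    have hne : (-1 / 2 : ℂ) + y * Complex.I ≠ 0 := by
      intro h
      have := congrArg Complex.re h
      simp at this
    simp only [hG]
    push_cast
    rw [kern3_of_ne _ _ _ hne, kern_left]
    ring
  have hiR := hline (1 / 2) (by norm_num)
  have hiL := hline (-1 / 2) (by norm_num [abs_div])
  push_cast at hiR hiL
  have tR := intervalIntegral_tendsto_integral hiR tendsto_neg_atTop_atBot tendsto_id
  have tL := intervalIntegral_tendsto_integral hiL tendsto_neg_atTop_atBot tendsto_id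
  have tH : ∀ ε : ℝ, |ε| = 1 → Tendsto (fun T : ℝ => ∫ x : ℝ in (-1 / 2 : ℝ)..(1 / 2 : ℝ),
      G (x + ((ε * T : ℝ) : ℂ) * Complex.I)) atTop (𝓝 0) := by
    intro ε hε
    refine squeeze_zero_norm' ?_ (by simpa using tendsto_exp_atTop.const_mul (C * (16 * kc a b)))
    filter_upwards [eventually_ge_atTop 1] with T hT
    have h1 : |ε * T| = |T| := by rw [abs_mul, hε, one_mul]
    have h := horizontal_le a b F C hb (ε * T) (by rw [h1]; exact hT.trans (le_abs_self _))
    rw [h1] at h
    simpa using h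
  have hlim := (((tH (-1) (by simp)).sub (tH 1 (by simp))).add (tR.const_smul Complex.I)).sub
    (tL.const_smul Complex.I)
  have hzero : ∀ T : ℝ,
      (∫ x : ℝ in (-1 / 2 : ℝ)..(1 / 2 : ℝ), G (x + ((-1 * T : ℝ) : ℂ) * Complex.I)) -
      (∫ x : ℝ in (-1 / 2 : ℝ)..(1 / 2 : ℝ), G (x + ((1 * T : ℝ) : ℂ) * Complex.I)) +
      Complex.I • (∫ y : ℝ in (-T)..(id T),
        ((1 / 2 + y * Complex.I) ^ 3 * F (1 / 2 + y * Complex.I)) * om a b y) -
      Complex.I • (∫ y : ℝ in (-T)..(id T),
        ((-1 / 2 + y * Complex.I) ^ 3 * F (-1 / 2 + y * Complex.I)) * om a b y) = 0 := by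
    intro T
    have h := Complex.integral_boundary_rect_eq_zero_of_differentiableOn G
      ⟨-1 / 2, -1 * T⟩ ⟨1 / 2, 1 * T⟩ (hGd.mono fun z hz => by
        have h1 := hz.1
        simp only [mem_preimage] at h1
        rw [uIcc_of_le (by norm_num)] at h1
        simp only [mem_ofPred_eq, abs_le]
        constructor <;> linarith [h1.1, h1.2])
    simp only [hR, hL] at h
    simpa using h
  simp only [hzero] at hlim
  have h := tendsto_nhds_unique hlim tendsto_const_nhds
  simp only [sub_self, zero_add, smul_eq_mul] at h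
  have h2 := sub_eq_zero.1 h
  exact mul_left_cancel₀ Complex.I_ne_zero h2

end Pool.Agent.P.MP_a89d6d_nt.Z23.Integral
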