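import Pool.Agent.P.MP_a89d6d_nt.Z23.Core
import Pool.Agent.P.MP_a89d6d_nt.Z23.Integral1

/-!
Integral representation of the functional `L` and the resulting bound.
-/

namespace Pool.Agent.P.MP_a89d6d_nt.Z23

open Polynomial Finset Filter MeasureTheory Topology

namespace Integral

theorem poly_le (P : ℚ[X]) (R : ℝ) :
    ∃ C : ℝ, 0 ≤ C ∧ ∀ z : ℂ, |z.re| ≤ R → ‖aeval z P‖ ≤ C * Real.exp |z.im| := by
  induction P using Polynomial.induction_on' with
  | add p q hp hq =>
    obtain ⟨C1, h0, h1⟩ := hp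
    obtain ⟨C2, h0', h2⟩ := hq
    refine ⟨C1 + C2, by positivity, fun z hz => ?_⟩
    rw [map_add]
    refine (norm_add_le _ _).trans ?_
    have := h1 z hz
    have := h2 z hz
    linarith
  | monomial n c =>
    refine ⟨‖(c : ℂ)‖ * (n.factorial * Real.exp R), by positivity, fun z hz => ?_⟩
    rw [aeval_monomial, norm_mul, norm_pow, eq_ratCast, mul_assoc]
    refine mul_le_mul_of_nonneg_left ?_ (norm_nonneg _)
    have h1 := Real.pow_div_factorial_le_exp ‖z‖ (norm_nonneg z) n
    have h2 : Real.exp ‖z‖ ≤ Real.exp R * Real.exp |z.im| := by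
      rw [← Real.exp_add]
      refine Real.exp_le_exp.2 ((Complex.norm_le_abs_re_add_abs_im z).trans ?_)
      linarith
    have h3 : (0 : ℝ) < n.factorial := by positivity
    rw [div_le_iff₀ h3] at h1
    nlinarith

theorem aeval_D (K : ℕ) (z : ℂ) : aeval z (D K) = ∏ j ∈ range K, (z + j + 1) := by
  unfold D
  rw [map_prod]
  refine prod_congr rfl fun j _ => ?_
  simp [add_assoc]

theorem half_le_norm (z : ℂ) (hz : -1 / 2 ≤ z.re) (j : ℕ) : (j : ℝ) + 1 / 2 ≤ ‖z + j + 1‖ := by
  refine le_trans ?_ (Complex.re_le_norm _)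
  simp only [Complex.add_re, Complex.natCast_re, Complex.one_re]
  linarith

theorem le_norm_D (K : ℕ) (z : ℂ) (hz : -1 / 2 ≤ z.re) : (1 / 2 : ℝ) ^ K ≤ ‖aeval z (D K)‖ := by
  rw [aeval_D, norm_prod]
  have h : (1 / 2 : ℝ) ^ K = ∏ _j ∈ range K, (1 / 2 : ℝ) := by simp
  rw [h]
  refine prod_le_prod (fun _ _ => by norm_num) fun j _ => le_trans ?_ (half_le_norm z hz j)
  have : (0 : ℝ) ≤ j := by positivity
  linarith

theorem aeval_D_ne (K : ℕ) (z : ℂ) (hz : -1 / 2 ≤ z.re) : aeval z (D K) ≠ 0 := by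
  have h := le_norm_D K z hz
  intro h0
  rw [h0, norm_zero] at h
  exact absurd h (not_le.2 (by positivity))

theorem ratio_le (K : ℕ) (P : ℚ[X]) (R : ℝ) :
    ∃ C : ℝ, ∀ z : ℂ, -1 / 2 ≤ z.re → z.re ≤ R →
      ‖aeval z P / aeval z (D K)‖ ≤ C * Real.exp |z.im| := by
  obtain ⟨C, hC, h⟩ := poly_le P (|R| + 1)
  refine ⟨C / (1 / 2) ^ K, fun z h1 h2 => ?_⟩
  have h3 : |z.re| ≤ |R| + 1 := by
    rw [abs_le]
    have := abs_nonneg R
    have := le_abs_self R
    constructor <;> linarith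
  rw [norm_div, div_mul_eq_mul_div]
  exact div_le_div₀ (by positivity) (h z h3) (by positivity) (le_norm_D K z h1)

theorem zpt_re (s : ℕ) (y : ℝ) : (zpt s y).re = s - 1 / 2 := by
  simp [zpt]

theorem zpt_im (s : ℕ) (y : ℝ) : (zpt s y).im = y := by
  simp [zpt]

theorem le_zpt_re (s : ℕ) (y : ℝ) : -1 / 2 ≤ (zpt s y).re := by
  rw [zpt_re]
  have : (0 : ℝ) ≤ s := by positivity
  linarith

theorem continuous_zpt (s : ℕ) : Continuous (zpt s) := by
  unfold zpt
  fun_prop

/-- The integral of `P / D K` against the kernel along the line of abscissa `s - 1/2`. -/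
noncomputable def Lam (a b : ℝ) (K : ℕ) (P : ℚ[X]) (s : ℕ) : ℂ :=
  ∫ y : ℝ, aeval (zpt s y) P / aeval (zpt s y) (D K) * om a b y

theorem integrable_Lam (a b : ℝ) (K : ℕ) (P : ℚ[X]) (s : ℕ) :
    Integrable fun y : ℝ => aeval (zpt s y) P / aeval (zpt s y) (D K) * om a b y := by
  obtain ⟨C, h⟩ := ratio_le K P s
  refine integrable_om a b _ ?_ C fun y => ?_
  · refine Continuous.div ((P.continuous_aeval).comp (continuous_zpt s))
      (((D K).continuous_aeval).comp (continuous_zpt s)) fun y => aeval_D_ne K _ (le_zpt_re s y)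
  · have := h (zpt s y) (le_zpt_re s y) (by rw [zpt_re]; linarith)
    rwa [zpt_im] at this

theorem differentiable_shift (P : ℚ[X]) (w : ℂ) :
    Differentiable ℂ fun z : ℂ => aeval (z + w) P := by
  have h1 : Differentiable ℂ fun z : ℂ => aeval z P := P.differentiable_aeval
  have h2 : Differentiable ℂ fun z : ℂ => z + w := by fun_prop
  exact h1.comp h2

theorem Lam_shift_zero (a b : ℝ) (K : ℕ) (P : ℚ[X]) (s : ℕ) :
    Lam a b K ((X - C (s : ℚ)) ^ 3 * P) (s + 1) = Lam a b K ((X - C (s : ℚ)) ^ 3 * P) s := by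
  obtain ⟨C0, h⟩ := ratio_le K ((X - C (s : ℚ)) ^ 3 * P) (s + 1)
  have hs : (0 : ℝ) ≤ s := by positivity
  have e : ∀ z : ℂ, z ^ 3 * (aeval (z + s) P / aeval (z + s) (D K)) =
      aeval (z + s) ((X - C (s : ℚ)) ^ 3 * P) / aeval (z + s) (D K) := by
    intro z
    simp [mul_div_assoc]
  have key := shift a b (fun z => aeval (z + s) P / aeval (z + s) (D K)) ?_ C0 ?_
  · simp only [e] at key
    unfold Lam
    have e1 : ∀ y : ℝ, zpt (s + 1) y = 1 / 2 + y * Complex.I + s := by
      intro y; unfold zpt; push_cast; ring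
    have e2 : ∀ y : ℝ, zpt s y = -1 / 2 + y * Complex.I + s := by
      intro y; unfold zpt; ring
    simp only [e1, e2]
    exact key
  · refine DifferentiableOn.div ?_ ?_ fun z hz => aeval_D_ne K _ ?_
    · exact (differentiable_shift P s).differentiableOn
    · exact (differentiable_shift (D K) s).differentiableOn
    · have h1 : |z.re| ≤ 1 / 2 := hz
      rw [abs_le] at h1
      simp only [Complex.add_re, Complex.natCast_re]
      linarith [h1.1]
  · intro z hz
    rw [e]
    rw [abs_le] at hz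
    have := h (z + s) (by simp only [Complex.add_re, Complex.natCast_re]; linarith [hz.1])
      (by simp only [Complex.add_re, Complex.natCast_re]; linarith [hz.2])
    simpa using this

theorem integrable_om_one (a b : ℝ) : Integrable (om a b) := by
  simpa using integrable_om a b (fun _ => 1) continuous_const 1 fun y => by
    simp

theorem integrable_om_lin (a b : ℝ) :
    Integrable fun y : ℝ => (2 * (y : ℂ) * Complex.I) * om a b y := by
  refine integrable_om a b _ (by fun_prop) 2 fun y => ?_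
  have := abs_le_exp y
  simpa using this

theorem Lam_shift (a b : ℝ) (K : ℕ) (P P1 : ℚ[X]) (s : ℕ) (c0 c1 c2 : ℂ)
    (h : ∀ z : ℂ, aeval z P = (c0 + c1 * (z - s) + c2 * (z - s) ^ 2) * aeval z (D K)
      + (z - s) ^ 3 * aeval z P1) :
    Lam a b K P (s + 1) - Lam a b K P s = a * c1 - b * c2 := by
  have h0 := Lam_shift_zero a b K P1 s
  set P3 := (X - C (s : ℚ)) ^ 3 * P1 with hP3
  have h1 : Lam a b K P (s + 1) - Lam a b K P s =
      (Lam a b K P (s + 1) - Lam a b K P3 (s + 1)) - (Lam a b K P s - Lam a b K P3 s) := by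
    rw [h0]; ring
  rw [h1]
  unfold Lam
  have hi : ∀ t : ℕ, Integrable fun y : ℝ =>
      aeval (zpt t y) P / aeval (zpt t y) (D K) * om a b y -
        aeval (zpt t y) P3 / aeval (zpt t y) (D K) * om a b y := fun t =>
    (integrable_Lam a b K P t).sub (integrable_Lam a b K P3 t)
  rw [← integral_sub (integrable_Lam a b K P _) (integrable_Lam a b K P3 _),
    ← integral_sub (integrable_Lam a b K P _) (integrable_Lam a b K P3 _),
    ← integral_sub (hi _) (hi _)]
  have e : ∀ (t : ℕ) (y : ℝ), aeval (zpt t y) P / aeval (zpt t y) (D K) * om a b y -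
      aeval (zpt t y) P3 / aeval (zpt t y) (D K) * om a b y =
      (c0 + c1 * (zpt t y - s) + c2 * (zpt t y - s) ^ 2) * om a b y := by
    intro t y
    have hD := aeval_D_ne K _ (le_zpt_re t y)
    have h3 : aeval (zpt t y) P3 = (zpt t y - s) ^ 3 * aeval (zpt t y) P1 := by
      simp [hP3]
    rw [h, h3]
    field_simp
    ring
  have e2 : ∀ y : ℝ, (c0 + c1 * (zpt (s + 1) y - s) + c2 * (zpt (s + 1) y - s) ^ 2) * om a b y -
      (c0 + c1 * (zpt s y - s) + c2 * (zpt s y - s) ^ 2) * om a b y =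
      c1 * om a b y + c2 * ((2 * (y : ℂ) * Complex.I) * om a b y) := by
    intro y
    unfold zpt
    push_cast
    ring
  simp only [e, e2]
  rw [integral_add ((integrable_om_one a b).const_mul _) ((integrable_om_lin a b).const_mul _),
    integral_const_mul, integral_const_mul, integral_om, integral_mul_om]
  ring

theorem exists_diff (Q : ℚ[X]) : ∃ S : ℚ[X], Q = S.comp (X + 1) - S := by
  induction Q using Polynomial.induction_on' with
  | add p q hp hq =>
    obtain ⟨S1, h1⟩ := hp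
    obtain ⟨S2, h2⟩ := hq
    refine ⟨S1 + S2, ?_⟩
    rw [add_comp, h1, h2]
    ring
  | monomial n c =>
    refine ⟨C (c / (n + 1)) * Polynomial.bernoulli (n + 1), ?_⟩
    rw [mul_comp, C_comp, add_comm X 1, Polynomial.bernoulli_comp_one_add_X, ← C_mul_X_pow_eq_monomial]
    have h : (C c : ℚ[X]) = C (c / (n + 1)) * ((n + 1 : ℕ) : ℚ[X]) := by
      rw [← map_natCast C, ← map_mul]
      congr 1
      have : (n : ℚ) + 1 ≠ 0 := by positivity
      push_cast
      field_simp
    rw [Nat.add_sub_cancel, nsmul_eq_mul]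
    conv_lhs => rw [h]
    ring

theorem Lam_poly (a b : ℚ) (Q : ℚ[X]) : Lam a b 0 Q 0 = (Lpoly a b Q : ℂ) := by
  obtain ⟨S, rfl⟩ := exists_diff Q
  have hd : (X : ℚ[X]) ^ 3 ∣ S - (C (S.coeff 0) + C (S.coeff 1) * X + C (S.coeff 2) * X ^ 2) := by
    rw [X_pow_dvd_iff]
    intro d hd
    interval_cases d <;> simp [coeff_X, coeff_X_pow, coeff_C]
  obtain ⟨S3, hS3⟩ := hd
  have h := Lam_shift a b 0 S S3 0 (S.coeff 0) (S.coeff 1) (S.coeff 2) fun z => by
    have h1 := congrArg (aeval z) hS3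
    simp only [map_sub, map_add, map_mul, aeval_C, aeval_X, map_pow, eq_ratCast] at h1
    simp only [D, range_zero, prod_empty, map_one, Nat.cast_zero, sub_zero, mul_one]
    linear_combination h1
  rw [Lpoly_diff]
  push_cast at h ⊢
  rw [← h]
  unfold Lam
  rw [← integral_sub (integrable_Lam _ _ _ _ _) (integrable_Lam _ _ _ _ _)]
  refine integral_congr_ae (Eventually.of_forall fun y => ?_)
  have e : zpt 1 y = zpt 0 y + 1 := by
    unfold zpt; push_cast; ring
  simp only [D, range_zero, prod_empty, map_one, div_one, map_sub, aeval_comp, map_add, aeval_X, e]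
  ring

theorem Lam_one_eq (a b : ℝ) (j : ℕ) :
    Lam a b 1 1 j = ∫ y : ℝ, 1 / (zpt 0 y + j + 1) * om a b y := by
  unfold Lam
  refine integral_congr_ae (Eventually.of_forall fun y => ?_)
  have e : zpt j y = zpt 0 y + j := by
    unfold zpt; push_cast; ring
  simp [aeval_D, e]

theorem integrable_pole (a b : ℝ) (j : ℕ) :
    Integrable fun y : ℝ => 1 / (zpt 0 y + j + 1) * om a b y := by
  refine (integrable_Lam a b 1 1 j).congr (Eventually.of_forall fun y => ?_)
  have e : zpt j y = zpt 0 y + j := by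
    unfold zpt; push_cast; ring
  simp [aeval_D, e]

theorem Lam_one_succ (a b : ℝ) (j : ℕ) :
    Lam a b 1 1 (j + 1) - Lam a b 1 1 j = -a / ((j : ℂ) + 1) ^ 2 - b / ((j : ℂ) + 1) ^ 3 := by
  have hj : (j : ℂ) + 1 ≠ 0 := by exact_mod_cast Nat.succ_ne_zero j
  have h := Lam_shift a b 1 1 (C (-1 / ((j : ℚ) + 1) ^ 3)) j (1 / ((j : ℂ) + 1))
    (-1 / ((j : ℂ) + 1) ^ 2) (1 / ((j : ℂ) + 1) ^ 3) fun z => by
      simp only [map_one, aeval_D, range_one, prod_singleton, aeval_C, eq_ratCast]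
      push_cast
      field_simp
      ring
  rw [h]
  ring

theorem Lam_one_sub (a b : ℝ) (j : ℕ) :
    Lam a b 1 1 j = Lam a b 1 1 0 - a * (H 2 j : ℂ) - b * (H 3 j : ℂ) := by
  induction j with
  | zero => simp [H]
  | succ j ih =>
    have h := Lam_one_succ a b j
    unfold H at ih ⊢
    rw [sum_range_succ, sum_range_succ]
    push_cast at ih ⊢
    linear_combination h + ih

theorem tendsto_Lam_one (a b : ℝ) : Tendsto (fun j => Lam a b 1 1 j) atTop (𝓝 0) := by
  have hi := (integrable_om_one a b).norm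
  have hb : ∀ j : ℕ, ‖Lam a b 1 1 j‖ ≤ (∫ y, ‖om a b y‖) * (2 * (1 / ((j : ℝ) + 1))) := by
    intro j
    rw [Lam_one_eq, ← integral_mul_const]
    refine norm_integral_le_of_norm_le (hi.mul_const _) (Eventually.of_forall fun y => ?_)
    rw [norm_mul, mul_comm]
    refine mul_le_mul_of_nonneg_left ?_ (norm_nonneg _)
    have h1 := half_le_norm (zpt 0 y) (le_zpt_re 0 y) j
    have hj : (0 : ℝ) ≤ j := by positivity
    rw [norm_div, norm_one, mul_one_div, div_le_div_iff₀ (by linarith) (by positivity)]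
    linarith
  refine squeeze_zero_norm hb ?_
  simpa using (tendsto_one_div_add_atTop_nhds_zero_nat.const_mul 2).const_mul (∫ y, ‖om a b y‖)

theorem tendsto_H (s : ℕ) (hs : 1 < s) :
    Tendsto (fun j => (H s j : ℂ)) atTop (𝓝 (riemannZeta s)) := by
  have h1 : 1 < (s : ℂ).re := by simpa using hs
  have h2 : Summable fun n : ℕ => 1 / ((n : ℂ) + 1) ^ (s : ℂ) := by
    have := (summable_nat_add_iff 1).2 (Complex.summable_one_div_nat_cpow.2 h1)
    simpa using this
  rw [zeta_eq_tsum_one_div_nat_add_one_cpow h1]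
  refine h2.hasSum.tendsto_sum_nat.congr fun j => ?_
  unfold H
  push_cast
  simp

theorem Lam_one (a b : ℝ) (j : ℕ) :
    Lam a b 1 1 j = a * riemannZeta 2 + b * riemannZeta 3 - a * (H 2 j : ℂ) - b * (H 3 j : ℂ) := by
  have h1 := ((tendsto_const_nhds (x := Lam a b 1 1 0)).sub
    ((tendsto_H 2 (by norm_num)).const_mul (a : ℂ))).sub
    ((tendsto_H 3 (by norm_num)).const_mul (b : ℂ))
  simp only [← Lam_one_sub] at h1
  have h2 := tendsto_nhds_unique h1 (tendsto_Lam_one a b)
  rw [Lam_one_sub]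
  push_cast at h2
  linear_combination h2

theorem Lam_eq_L (a b x : ℚ) (hx : (x : ℂ) = a * riemannZeta 2 + b * riemannZeta 3) (K : ℕ)
    (P : ℚ[X]) : Lam a b K P 0 = (L a b x K P : ℂ) := by
  have e : ∀ y : ℝ, aeval (zpt 0 y) P / aeval (zpt 0 y) (D K) * om a b y =
      aeval (zpt 0 y) (P /ₘ D K) / aeval (zpt 0 y) (D 0) * om a b y +
      ∑ j ∈ range K, (res K P j : ℂ) * (1 / (zpt 0 y + j + 1) * om a b y) := by
    intro y
    have hD := aeval_D_ne K _ (le_zpt_re 0 y)
    have h1 := congrArg (aeval (zpt 0 y)) (partial_fractions K P)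
    simp only [map_add, map_mul, map_sum, map_prod, aeval_C, aeval_X, eq_ratCast] at h1
    have h0 : aeval (zpt 0 y) (D 0) = 1 := by simp [D]
    rw [h0, div_one, h1, add_div, mul_div_cancel_right₀ _ hD, add_mul, sum_div, sum_mul]
    congr 1
    refine sum_congr rfl fun j hj => ?_
    rw [aeval_D] at hD ⊢
    rw [← mul_prod_erase _ _ hj] at hD ⊢
    have h2 := left_ne_zero_of_mul hD
    have h3 := right_ne_zero_of_mul hD
    have h4 : ∏ k ∈ (range K).erase j, (zpt 0 y + (((k : ℚ) : ℂ) + ((1 : ℚ) : ℂ))) =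
        ∏ k ∈ (range K).erase j, (zpt 0 y + k + 1) :=
      prod_congr rfl fun k _ => by push_cast; ring
    rw [h4]
    field_simp
  have h1 : Lam a b K P 0 = Lam a b 0 (P /ₘ D K) 0 +
      ∑ j ∈ range K, (res K P j : ℂ) * Lam a b 1 1 j := by
    simp only [Lam_one_eq]
    unfold Lam
    simp only [e]
    rw [integral_add (integrable_Lam _ _ _ _ _)
      (integrable_finsetSum _ fun j _ => (integrable_pole _ _ j).const_mul _),
      integral_finsetSum _ fun j _ => (integrable_pole _ _ j).const_mul _]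
    simp only [integral_const_mul]
  rw [h1, Lam_poly]
  unfold L
  simp only [Lam_one]
  push_cast
  rw [hx]

theorem Lam_W (a b : ℝ) (K n : ℕ) (P : ℚ[X]) (s : ℕ) (hs : s ≤ n) :
    Lam a b K (W n ^ 3 * P) s = Lam a b K (W n ^ 3 * P) 0 := by
  induction s with
  | zero => rfl
  | succ s ih =>
    rw [← ih (by omega)]
    have h : W n ^ 3 * P = (X - C (s : ℚ)) ^ 3 *
        ((∏ i ∈ (range n).erase s, (X - C (i : ℚ))) ^ 3 * P) := by
      unfold W
      rw [← mul_prod_erase _ _ (mem_range.2 (show s < n by omega))]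
      ring
    rw [h, Lam_shift_zero]

theorem norm_Lam_le (a b : ℝ) (n : ℕ) (P : ℚ[X]) (B : ℝ) (h : ∀ y : ℝ, wt n P y ≤ B) :
    ‖Lam a b (6 * n) P n‖ ≤ kc a b * Real.pi * B := by
  have hk := kc_nonneg a b
  have h1 : kc a b * Real.pi * B = ∫ y : ℝ, kc a b * B * (1 + y ^ 2)⁻¹ := by
    rw [integral_const_mul, integral_univ_inv_one_add_sq]
    ring
  rw [h1]
  refine norm_integral_le_of_norm_le (integrable_inv_one_add_sq.const_mul _)
    (Eventually.of_forall fun y => ?_)
  rw [norm_mul, norm_div]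
  have h2 := h y
  unfold wt at h2
  have h3 : (0 : ℝ) < 1 + y ^ 2 := by positivity
  set N := ‖aeval (zpt n y) P‖ / ‖aeval (zpt n y) (D (6 * n))‖ with hN
  have hN0 : 0 ≤ N := by positivity
  rw [mul_div_assoc, ← hN] at h2
  refine (mul_le_mul_of_nonneg_left (norm_om_le a b y) hN0).trans ?_
  rw [← div_eq_mul_inv, le_div_iff₀ h3]
  have := mul_le_mul_of_nonneg_left h2 hk
  linarith

end Integral

theorem L_bound (a b : ℤ) (x : ℚ) (hx : (x : ℂ) = a * riemannZeta 2 + b * riemannZeta 3) :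
    ∃ Cst : ℝ, 0 < Cst ∧ ∀ (n : ℕ) (P : ℚ[X]) (B : ℝ),
      (∀ y : ℝ, wt n (W n ^ 3 * P) y ≤ B) → |(L a b x (6 * n) (W n ^ 3 * P) : ℝ)| ≤ Cst * B := by
  have hk := Integral.kc_nonneg ((a : ℚ) : ℝ) ((b : ℚ) : ℝ)
  have hp := Real.pi_pos
  refine ⟨Integral.kc ((a : ℚ) : ℝ) ((b : ℚ) : ℝ) * Real.pi + 1, by positivity, fun n P B h => ?_⟩
  have hB : 0 ≤ B := by
    refine le_trans ?_ (h 0)
    unfold wt
    positivity
  have h1 := Integral.norm_Lam_le ((a : ℚ) : ℝ) ((b : ℚ) : ℝ) n _ B h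
  rw [Integral.Lam_W _ _ _ _ _ _ le_rfl,
    Integral.Lam_eq_L (a : ℚ) (b : ℚ) x (by simpa using hx), ← Complex.ofReal_ratCast,
    Complex.norm_real, Real.norm_eq_abs] at h1
  linarith

end Pool.Agent.P.MP_a89d6d_nt.Z23
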