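import Pool.Agent.P.MP_a89d6d_nt.Z23.Core

/-!
The six by six determinant with six poles.
-/

namespace Pool.Agent.P.MP_a89d6d_nt.Z23.Nonzero

open Polynomial Finset

/-- Residues of `t ^ e / ((t+1)...(t+6))`. -/
def rho (e j : ℕ) : ℚ := (-((j : ℚ) + 1)) ^ e / ∏ k ∈ (range 6).erase j, ((k : ℚ) - (j : ℚ))

/-- The functional on `t ^ e / ((t+1)...(t+6))`. -/
def gam (e : ℕ) : ℚ :=
  ∑ m ∈ range (9 + 1), (∑ i ∈ range (m + 1), (-1) ^ (m - i) * (m.choose i : ℚ) *
    ((i : ℚ) ^ e / ∏ j ∈ range 6, ((i : ℚ) + j + 1) - ∑ j ∈ range 6, rho e j / ((i : ℚ) + j + 1)))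
      * lam 0 1 m
  + ∑ j ∈ range 6, rho e j * (0 - 0 * H 2 j - 1 * H 3 j)

theorem L_X_pow (e : ℕ) (he : e ≤ 15) : L 0 1 0 6 (X ^ e) = gam e := by
  have h2 : ((X ^ e : ℚ[X]) /ₘ D 6).natDegree ≤ 9 := by
    rw [natDegree_divByMonic _ (D_monic _), D_natDegree, natDegree_X_pow]; omega
  have h3 : ∀ j, res 6 (X ^ e) j = rho e j := fun j => by simp [res, rho]
  unfold L gam
  rw [Lpoly_newton _ _ _ _ h2]
  simp only [nc, eval_divByMonic, h3, eval_pow, eval_X]

theorem W_one : W 1 = X := by simp [W]

def Lm : Matrix (Fin 6) (Fin 6) ℚ :=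
  !![1, 0, 0, 0, 0, 0;
    2387/3873, 1, 0, 0, 0, 0;
    10385851/1291, -74528433/3447643, 1, 0, 0, 0;
    -654304693/3873, 6732129823/24133501, -17139870348930/820181942813, 1, 0, 0;
    2762615011/1291, -9688055373/3447643, 216612569364407/820181942813, -849242092261470243/42487917750228151, 1, 0;
    -82442254573/3873, 590275163839/24133501, -2151945900128430/820181942813, 31233805977900337262/127463753250684453, -8361609339536636778105/413884742892711959866, 1]

def Um : Matrix (Fin 6) (Fin 6) ℚ :=
  !![-1291/8640000, -2387/25920000, -10385851/8640000, 654304693/25920000, -2762615011/8640000, 82442254573/25920000;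
    0, -24133501/20077632, 57966559/2230848, -6732129823/20077632, 7535154179/2230848, -590275163839/20077632;
    0, 0, 820181942813/82743432, -2856645058155/13790572, 216612569364407/82743432, -358657650021405/13790572;
    0, 0, 0, 42487917750228151/22965094398764, -121320298894495749/3280727771252, 15616902988950168631/34447641598146;
    0, 0, 0, 0, -206942371446355979933/127463753250684453, 2787203113178878926035/84975835500456302;
    0, 0, 0, 0, 0, 12828768801067113656069/7449925372068815277588]

theorem gam_LU : ∀ i k : Fin 6, gam (3 + i + k) = (Lm * Um) i k := by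
  decide +kernel

theorem gram_loc : gram 0 1 0 1 (fun i : Fin (6 * 1) => (X : ℚ[X]) ^ (i : ℕ)) = Lm * Um := by
  ext i k
  have h := gam_LU i k
  have hi : (i : ℕ) < 6 := i.2
  have hk : (k : ℕ) < 6 := k.2
  rw [← L_X_pow _ (by omega)] at h
  rw [← h]
  simp only [gram, Matrix.of_apply, W_one, pow_add]

theorem det_Lm : Lm.det = 1 := by
  rw [Matrix.det_of_isLowerTriangular Lm (by
    intro i j; revert i j; decide +kernel)]
  decide +kernel

theorem det_Um : Um.det = -12828768801067113656069 / 1393140695040000 := by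
  rw [Matrix.det_of_isUpperTriangular (by
    intro i j; revert i j; decide +kernel)]
  decide +kernel

theorem Delta_loc' : Delta 0 1 0 1 = -12828768801067113656069 / 1393140695040000 := by
  unfold Delta
  rw [gram_loc]
  exact (Matrix.det_mul Lm Um).trans (by rw [det_Lm, det_Um, one_mul])

end Pool.Agent.P.MP_a89d6d_nt.Z23.Nonzero
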