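import Pool.Agent.P.MP_a89d6d_nt.Z23.Nonzero3
import Pool.Agent.P.MP_a89d6d_nt.Z23.Nonzero4

/-!
The Hankel determinant does not vanish when `n` is a large prime.
-/

namespace Pool.Agent.P.MP_a89d6d_nt.Z23

open Polynomial Finset Filter

namespace Nonzero

/-- The product of `z - c'` over the residues `c' ≠ c`. -/
noncomputable def Wc (p c : ℕ) : ℚ[X] := ∏ c' ∈ (range p).erase c, (X - C (c' : ℚ))

/-- A basis adapted to the residue classes. -/
noncomputable def phi (p : ℕ) (t : Fin (6 * 1) × Fin p) : ℚ[X] :=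
  (-W p) ^ (t.1 : ℕ) * Wc p t.2

theorem Wc_natDegree_le (p c : ℕ) (hc : c < p) : (Wc p c).natDegree ≤ p - 1 := by
  unfold Wc
  refine (natDegree_prod_le _ _).trans ?_
  simp only [natDegree_X_sub_C, sum_const, smul_eq_mul, mul_one]
  rw [card_erase_of_mem (mem_range.mpr hc), card_range]

theorem phi_natDegree_le (p : ℕ) (t : Fin (6 * 1) × Fin p) :
    (phi p t).natDegree ≤ 5 * p + (p - 1) := by
  unfold phi
  refine natDegree_mul_le.trans (add_le_add (natDegree_pow_le.trans ?_)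
    (Wc_natDegree_le p _ t.2.2))
  rw [natDegree_neg, W_natDegree]
  have : (t.1 : ℕ) < 6 := t.1.2
  exact Nat.mul_le_mul_right p (by omega)

variable {p : ℕ} [hp : Fact p.Prime]

theorem cg_Wc_self (c : ℕ) (hc : c < p) (w : ℤ) :
    Cg p ((Wc p c).eval ((c : ℚ) + (p : ℚ) * (w : ℚ))) (-1) := by
  have := wilson (p := p) (fun d => (c : ℤ) + (p : ℤ) * w - (d : ℤ)) c hc (by simp) ?_
  · refine this.congr ?_ rfl
    unfold Wc
    rw [eval_prod]
    refine prod_congr rfl fun d _ => ?_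
    simp
  · intro d hd d' hd' h
    push_cast at h
    have h1 : (d : ZMod p) = d' := by linear_combination -h
    have h2 := (ZMod.natCast_eq_natCast_iff' _ _ _).mp h1
    rwa [Nat.mod_eq_of_lt hd, Nat.mod_eq_of_lt hd'] at h2

theorem cg_Wc (c c' : ℕ) (hc : c < p) (w : ℤ) :
    Cg p ((Wc p c').eval ((c : ℚ) + (p : ℚ) * (w : ℚ))) (if c' = c then -1 else 0) := by
  by_cases h : c' = c
  · rw [if_pos h, h]; exact cg_Wc_self c hc w
  · rw [if_neg h]
    have hm : c ∈ (range p).erase c' := mem_erase.mpr ⟨fun h' => h h'.symm, mem_range.mpr hc⟩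
    unfold Wc
    rw [eval_prod, ← mul_prod_erase _ _ hm]
    have h1 : Cg p (∏ d ∈ ((range p).erase c').erase c,
        eval ((c : ℚ) + (p : ℚ) * (w : ℚ)) (X - C (d : ℚ)))
        (∏ d ∈ ((range p).erase c').erase c,
          eval ((c : ℚ) + (p : ℚ) * (w : ℚ)) (X - C (d : ℚ))) := by
      refine Cg.prod _ fun d _ => ?_
      have := Cg.int (p := p) ((c : ℤ) + (p : ℤ) * w - (d : ℤ))
      simpa using this
    have h2 := Cg.p_mul ((Cg.int (p := p) w).mul h1)
    refine h2.congr ?_ rfl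
    simp only [eval_sub, eval_X, eval_C]
    ring

theorem cg_W (c : ℕ) (hc : c < p) (w : ℤ) :
    Cg p ((p : ℚ)⁻¹ * (W p).eval ((c : ℚ) + (p : ℚ) * (w : ℚ))) (-(w : ℚ)) := by
  have h1 := (Cg.int (p := p) w).mul (cg_Wc_self c hc w)
  refine h1.congr ?_ (by ring)
  unfold W Wc
  rw [eval_prod, eval_prod, ← mul_prod_erase _ _ (mem_range.mpr hc)]
  have := p_ne_zero (p := p)
  simp only [eval_sub, eval_X, eval_C]
  field_simp
  ring

theorem cg_entry (hp16 : 16 ≤ p) (a b : ℤ) (x : ℚ) (hx : Cg p x x)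
    (t t' : Fin (6 * 1) × Fin p) :
    Cg p ((p : ℚ) ^ 8 * ((p : ℚ)⁻¹) ^ (3 + (t.1 : ℕ)) * gram a b x p (phi p) t t'
        * ((p : ℚ)⁻¹) ^ (t'.1 : ℕ))
      (Matrix.blockDiagonal (fun _ : Fin p => (-(b : ℚ)) •
        gram 0 1 0 1 (fun i : Fin (6 * 1) => (X : ℚ[X]) ^ (i : ℕ))) t t') := by
  obtain ⟨i, c⟩ := t
  obtain ⟨k, c'⟩ := t'
  have hi : (i : ℕ) < 6 := i.2
  have hk : (k : ℕ) < 6 := k.2
  have key := cg_L hp16
    (((p : ℚ)⁻¹) ^ (3 + (i : ℕ) + (k : ℕ)) • (W p ^ 3 * phi p (i, c) * phi p (k, c')))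
    (W 1 ^ 3 * X ^ (i : ℕ) * X ^ (k : ℕ))
    (fun c'' => -((if (c : ℕ) = c'' then -1 else 0) * (if (c' : ℕ) = c'' then -1 else 0)))
    ?_ a b x hx ?_ ?_
  · refine key.congr ?_ ?_
    · rw [L_smul]
      simp only [gram, Matrix.of_apply]
      ring
    · have hs : ∑ c'' ∈ range p, -((if (c : ℕ) = c'' then (-1 : ℚ) else 0) *
          (if (c' : ℕ) = c'' then -1 else 0)) = if c = c' then -1 else 0 := by
        rw [sum_eq_single (c : ℕ)]
        · by_cases h : c = c'
          · simp [h]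
          · have : (c' : ℕ) ≠ c := fun h' => h (Fin.ext h'.symm)
            simp [h, this]
        · intro d _ hd
          simp [hd.symm]
        · intro h
          exact absurd (mem_range.mpr c.2) h
      rw [hs, Matrix.blockDiagonal_apply]
      by_cases h : c = c'
      · simp only [h, if_true, gram, Matrix.smul_apply, Matrix.of_apply, smul_eq_mul]
        ring
      · simp [h]
  · intro c'' hc'' w
    have h1 := cg_W (p := p) c'' hc'' w
    have h2 := cg_Wc (p := p) c'' c hc'' w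
    have h3 := cg_Wc (p := p) c'' c' hc'' w
    have h4 := ((h1.pow 3).mul ((h1.neg.pow i).mul h2)).mul ((h1.neg.pow k).mul h3)
    refine h4.congr ?_ ?_
    · simp only [phi, eval_smul, eval_mul, eval_pow, eval_neg, smul_eq_mul]
      rw [← mul_neg, mul_pow, mul_pow, mul_pow]
      ring
    · simp only [W_one, eval_mul, eval_pow, eval_X, neg_neg]
      ring
  · refine (natDegree_smul_le _ _).trans_lt ?_
    have h1 := phi_natDegree_le p (i, c)
    have h2 := phi_natDegree_le p (k, c')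
    have h3 : (W p ^ 3).natDegree ≤ 3 * p := natDegree_pow_le.trans (by rw [W_natDegree])
    have h4 : (W p ^ 3 * phi p (i, c) * phi p (k, c')).natDegree ≤
        (W p ^ 3).natDegree + (phi p (i, c)).natDegree + (phi p (k, c')).natDegree :=
      natDegree_mul_le.trans (add_le_add natDegree_mul_le le_rfl)
    omega
  · rw [W_one, ← pow_add, ← pow_add, natDegree_X_pow]
    omega

theorem det_ne_zero (hp16 : 16 ≤ p) (a b : ℤ) (x : ℚ) (hx : Cg p x x) (hb : Un p b)
    (hD : Un p (Delta 0 1 0 1)) : (gram a b x p (phi p)).det ≠ 0 := by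
  set M' : Matrix (Fin (6 * 1) × Fin p) (Fin (6 * 1) × Fin p) ℚ :=
    Matrix.diagonal (fun t => (p : ℚ) ^ 8 * ((p : ℚ)⁻¹) ^ (3 + (t.1 : ℕ))) *
      gram a b x p (phi p) * Matrix.diagonal (fun t => ((p : ℚ)⁻¹) ^ (t.1 : ℕ)) with hM'
  have h1 : Cg p M'.det (Matrix.blockDiagonal (fun _ : Fin p => (-(b : ℚ)) •
      gram 0 1 0 1 (fun i : Fin (6 * 1) => (X : ℚ[X]) ^ (i : ℕ)))).det := by
    refine Cg.det fun t t' => ?_
    rw [hM', Matrix.mul_diagonal, Matrix.diagonal_mul]
    exact cg_entry hp16 a b x hx t t'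
  have hb' : Un p (-(b : ℚ)) := by
    have := (Un.small (p := p) (n := -1) (by omega) (by simp; omega)).mul hb
    simpa using this
  have h2 : Un p (Matrix.blockDiagonal (fun _ : Fin p => (-(b : ℚ)) •
      gram 0 1 0 1 (fun i : Fin (6 * 1) => (X : ℚ[X]) ^ (i : ℕ)))).det := by
    rw [Matrix.det_blockDiagonal]
    refine Un.prod _ fun _ _ => ?_
    rw [Matrix.det_smul]
    exact (hb'.pow _).mul hD
  have h3 := (h1.un h2).ne_zero
  intro h0
  apply h3
  rw [hM', Matrix.det_mul, Matrix.det_mul, h0, mul_zero, zero_mul]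

end Nonzero

theorem Delta_loc : Delta 0 1 0 1 = -12828768801067113656069 / 1393140695040000 :=
  Nonzero.Delta_loc'

theorem nonzero (a b : ℤ) (hb : b ≠ 0) (x : ℚ) :
    ∀ᶠ p : ℕ in atTop, p.Prime → Delta a b x p ≠ 0 := by
  have hD : Delta 0 1 0 1 ≠ 0 := by rw [Delta_loc]; norm_num
  have hb' : (b : ℚ) ≠ 0 := by exact_mod_cast hb
  filter_upwards [eventually_ge_atTop 16, eventually_gt_atTop x.den,
    eventually_gt_atTop (b : ℚ).den, eventually_gt_atTop (b : ℚ).num.natAbs,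
    eventually_gt_atTop (Delta 0 1 0 1).den, eventually_gt_atTop (Delta 0 1 0 1).num.natAbs]
    with p h16 h1 h2 h3 h4 h5 hp
  haveI : Fact p.Prime := ⟨hp⟩
  refine Delta_ne_zero_of_gram a b x p (ι := Fin (6 * 1) × Fin p) (by simp) (Nonzero.phi p)
    (fun t => ?_) ?_
  · have := Nonzero.phi_natDegree_le p t
    omega
  · exact Nonzero.det_ne_zero h16 a b x (Nonzero.cg_of_large h1) (Nonzero.un_of_large hb' h2 h3)
      (Nonzero.un_of_large hD h4 h5)

end Pool.Agent.P.MP_a89d6d_nt.Z23
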