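import Mathlib

/-!
The square of pi is irrational (Cartwright's argument, adapted from the Mathlib proof for pi).
-/

namespace Pool.Agent.P.MP_a89d6d_nt.Z23.PiSq

open intervalIntegral MeasureTheory.MeasureSpace Set Real Filter
open scoped Nat

/-- The sequence of integrals of Cartwright's proof. -/
noncomputable def I (n : ℕ) (θ : ℝ) : ℝ := ∫ x in (-1)..1, (1 - x ^ 2) ^ n * cos (x * θ)

lemma I_zero (θ : ℝ) : I 0 θ * θ = 2 * sin θ := by
  rw [mul_comm, I]
  simp [mul_integral_comp_mul_right, two_mul]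

lemma recursion' (θ : ℝ) (n : ℕ) :
    I (n + 1) θ * θ ^ 2 = - (2 * 2 * ((n + 1) * (0 ^ n * cos θ))) +
      2 * (n + 1) * (2 * n + 1) * I n θ - 4 * (n + 1) * n * I (n - 1) θ := by
  rw [I]
  let f (x : ℝ) : ℝ := 1 - x ^ 2
  let u₁ (x : ℝ) : ℝ := f x ^ (n + 1)
  let u₁' (x : ℝ) : ℝ := - (2 * (n + 1) * x * f x ^ n)
  let v₁ (x : ℝ) : ℝ := sin (x * θ)
  let v₁' (x : ℝ) : ℝ := cos (x * θ) * θ
  let u₂ (x : ℝ) : ℝ := x * (f x) ^ n
  let u₂' (x : ℝ) : ℝ := (f x) ^ n - 2 * n * x ^ 2 * (f x) ^ (n - 1)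
  let v₂ (x : ℝ) : ℝ := cos (x * θ)
  let v₂' (x : ℝ) : ℝ := -sin (x * θ) * θ
  have hfd : Continuous f := by fun_prop
  have hu₁d : Continuous u₁' := by fun_prop
  have hv₁d : Continuous v₁' := by fun_prop
  have hu₂d : Continuous u₂' := by fun_prop
  have hv₂d : Continuous v₂' := by fun_prop
  have hu₁_eval_one : u₁ 1 = 0 := by simp only [u₁, f]; simp
  have hu₁_eval_neg_one : u₁ (-1) = 0 := by simp only [u₁, f]; simp
  have t : u₂ 1 * v₂ 1 - u₂ (-1) * v₂ (-1) = 2 * (0 ^ n * cos θ) := by simp [u₂, v₂, f, ← two_mul]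
  have hf (x) : HasDerivAt f (- 2 * x) x := by
    convert! (hasDerivAt_pow 2 x).const_sub 1 using 1
    simp
  have hu₁ (x) : HasDerivAt u₁ (u₁' x) x := by
    convert! (hf x).pow _ using 1
    simp only [Nat.add_succ_sub_one, u₁', Nat.cast_add_one]
    ring
  have hv₁ (x) : HasDerivAt v₁ (v₁' x) x := (hasDerivAt_mul_const θ).sin
  have hu₂ (x) : HasDerivAt u₂ (u₂' x) x := by
    convert! (hasDerivAt_id' x).fun_mul ((hf x).fun_pow _) using 1
    simp only [u₂']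
    ring
  have hv₂ (x) : HasDerivAt v₂ (v₂' x) x := (hasDerivAt_mul_const θ).cos
  convert_to (∫ (x : ℝ) in (-1)..1, u₁ x * v₁' x) * θ = _ using 1
  · simp_rw [u₁, v₁', f, ← intervalIntegral.integral_mul_const, sq θ, mul_assoc]
  rw [integral_mul_deriv_eq_deriv_mul (fun x _ => hu₁ x) (fun x _ => hv₁ x)
    (hu₁d.intervalIntegrable _ _) (hv₁d.intervalIntegrable _ _), hu₁_eval_one, hu₁_eval_neg_one,
    zero_mul, zero_mul, sub_zero, zero_sub, ← integral_neg, ← integral_mul_const]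
  convert_to ((-2 : ℝ) * (n + 1)) * ∫ (x : ℝ) in (-1)..1, (u₂ x * v₂' x) = _ using 1
  · rw [← integral_const_mul]
    congr 1 with x
    dsimp [u₁', v₁, u₂, v₂']
    ring
  rw [integral_mul_deriv_eq_deriv_mul (fun x _ => hu₂ x) (fun x _ => hv₂ x)
    (hu₂d.intervalIntegrable _ _) (hv₂d.intervalIntegrable _ _),
    mul_sub, t, neg_mul, neg_mul, neg_mul, sub_neg_eq_add]
  have (x : _) : u₂' x = (2 * n + 1) * f x ^ n - 2 * n * f x ^ (n - 1) := by
    cases n with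
    | zero => simp [u₂']
    | succ n => ring!
  simp_rw [this, sub_mul, mul_assoc _ _ (v₂ _)]
  have : Continuous v₂ := by fun_prop
  rw [mul_mul_mul_comm, integral_sub, mul_sub, add_sub_assoc]
  · congr 1
    simp_rw [integral_const_mul]
    ring!
  all_goals exact Continuous.intervalIntegrable (by fun_prop) _ _

lemma recursion (θ : ℝ) (n : ℕ) :
    I (n + 2) θ * θ ^ 2 =
      2 * (n + 2) * (2 * n + 3) * I (n + 1) θ - 4 * (n + 2) * (n + 1) * I n θ := by
  rw [recursion' θ (n + 1)]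
  push_cast
  ring

lemma I_one (θ : ℝ) : I 1 θ * θ ^ 3 = 4 * sin θ - 4 * θ * cos θ := by
  rw [_root_.pow_succ, ← mul_assoc, recursion' θ 0, sub_mul, add_mul, mul_assoc _ (I 0 θ), I_zero]
  ring

lemma I_pos (n : ℕ) : 0 < I n (π / 2) := by
  refine integral_pos (by simp) (by fun_prop) ?_ ⟨0, by simp⟩
  refine fun x hx => mul_nonneg (pow_nonneg ?_ _) ?_
  · rw [sub_nonneg, sq_le_one_iff_abs_le_one, abs_le]
    exact ⟨hx.1.le, hx.2⟩
  refine cos_nonneg_of_neg_pi_div_two_le_of_le ?_ ?_ <;>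
  nlinarith [hx.1, hx.2, pi_pos]

lemma I_le (n : ℕ) : I n (π / 2) ≤ 2 := by
  rw [← norm_of_nonneg (I_pos n).le]
  refine (norm_integral_le_of_norm_le_const ?_).trans (show (1 : ℝ) * _ ≤ _ by norm_num)
  intro x hx
  simp only [uIoc_of_le, neg_le_self_iff, zero_le_one, mem_Ioc] at hx
  rw [norm_eq_abs, abs_mul, abs_pow]
  refine mul_le_one₀ (pow_le_one₀ (abs_nonneg _) ?_) (abs_nonneg _) (abs_cos_le_one _)
  rw [abs_le]
  constructor <;> nlinarith

/-- The normalised sequence. -/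
noncomputable def J (n : ℕ) : ℝ := I n (π / 2) * (π / 2) ^ (2 * n + 1) / n !

lemma J_zero : J 0 = 2 := by
  have := I_zero (π / 2)
  simp only [J]
  simpa [sin_pi_div_two] using this

lemma J_one : J 1 = 4 := by
  have := I_one (π / 2)
  simp only [J]
  simpa [sin_pi_div_two, cos_pi_div_two] using this

lemma J_rec (n : ℕ) : J (n + 2) = 2 * (2 * n + 3) * J (n + 1) - π ^ 2 * J n := by
  have h := recursion (π / 2) n
  have h0 : (n ! : ℝ) ≠ 0 := by positivity
  have h1 : ((n : ℝ) + 1) ≠ 0 := by positivity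
  have h2 : ((n : ℝ) + 2) ≠ 0 := by positivity
  have e : I (n + 2) (π / 2) * (π / 2) ^ (2 * (n + 2) + 1) =
      (I (n + 2) (π / 2) * (π / 2) ^ 2) * (π / 2) ^ (2 * n + 3) := by ring
  simp only [J]
  rw [e, h]
  simp only [Nat.factorial_succ]
  push_cast
  field_simp
  ring

lemma int_val (a : ℤ) (b : ℕ) (h : π ^ 2 * b = a) :
    ∀ n : ℕ, (∃ z : ℤ, (b : ℝ) ^ n * J n = z) ∧ ∃ z : ℤ, (b : ℝ) ^ (n + 1) * J (n + 1) = z := by
  intro n
  induction n with
  | zero => exact ⟨⟨2, by simp [J_zero]⟩, ⟨4 * b, by simp [J_one]; ring⟩⟩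
  | succ n ih =>
    obtain ⟨⟨z, hz⟩, ⟨w, hw⟩⟩ := ih
    refine ⟨⟨w, hw⟩, ⟨2 * (2 * n + 3) * b * w - a * b * z, ?_⟩⟩
    rw [J_rec]
    push_cast
    rw [← hz, ← hw, ← h]
    ring

theorem irrational : Irrational (π ^ 2) := by
  rintro ⟨q, hq⟩
  have hb : (0 : ℝ) < q.den := by exact_mod_cast q.pos
  have h : π ^ 2 * (q.den : ℕ) = (q.num : ℤ) := by
    rw [← hq]
    exact_mod_cast Rat.mul_den_eq_num q
  have ht : Tendsto (fun n : ℕ => π * ((q.den * (π / 2) ^ 2) ^ n / n !)) atTop (nhds (π * 0)) :=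
    (FloorSemiring.tendsto_pow_div_factorial_atTop _).const_mul _
  rw [mul_zero] at ht
  obtain ⟨n, hn⟩ := (ht.eventually_lt_const (show (0 : ℝ) < 1 by norm_num)).exists
  obtain ⟨⟨z, hz⟩, -⟩ := int_val q.num q.den h n
  have hpos : 0 < (q.den : ℝ) ^ n * J n := by
    have := I_pos n
    have := pi_pos
    simp only [J]
    positivity
  have hlt : (q.den : ℝ) ^ n * J n < 1 := by
    refine lt_of_le_of_lt ?_ hn
    have e : (q.den : ℝ) ^ n * J n =
        I n (π / 2) * ((π / 2) * ((q.den * (π / 2) ^ 2) ^ n / n !)) := by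
      simp only [J, mul_pow, ← pow_mul]
      ring
    rw [e]
    have hp := pi_pos
    have h2 : 0 ≤ (π / 2) * ((q.den * (π / 2) ^ 2) ^ n / n !) := by positivity
    calc _ ≤ 2 * ((π / 2) * ((q.den * (π / 2) ^ 2) ^ n / n !)) :=
          mul_le_mul_of_nonneg_right (I_le n) h2
      _ = _ := by ring
  rw [hz] at hpos hlt
  have h1 : (0 : ℤ) < z := by exact_mod_cast hpos
  have h2 : z < 1 := by exact_mod_cast hlt
  omega

end Pool.Agent.P.MP_a89d6d_nt.Z23.PiSq
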