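import Pool.Agent.P.MP_a89d6d_nt.Z23.Lower
import Pool.Agent.P.MP_a89d6d_nt.Z23.Integral
import Pool.Agent.P.MP_a89d6d_nt.Z23.Energy
import Pool.Agent.P.MP_a89d6d_nt.Z23.Nonzero
import Pool.Agent.P.MP_a89d6d_nt.Z23.PiSq

/-!
The upper bound for the determinant and the final contradiction.
-/

namespace Pool.Agent.P.MP_a89d6d_nt.Z23

open Polynomial Finset Filter

namespace Final

theorem wt_nonneg (n : ℕ) (P : ℚ[X]) (y : ℝ) : 0 ≤ wt n P y := by
  unfold wt
  positivity

theorem wt_sq (n : ℕ) (A P Q : ℚ[X]) (y : ℝ) :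
    wt n (A * (P * Q)) y ^ 2 = wt n (A * P * P) y * wt n (A * Q * Q) y := by
  simp only [wt, map_mul, norm_mul]
  ring

theorem wt_le (n : ℕ) (A P Q : ℚ[X]) (y B₁ B₂ : ℝ) (h₁ : wt n (A * P * P) y ≤ B₁)
    (h₂ : wt n (A * Q * Q) y ≤ B₂) : wt n (A * (P * Q)) y ≤ Real.sqrt B₁ * Real.sqrt B₂ := by
  have hB₁ : 0 ≤ B₁ := (wt_nonneg _ _ _).trans h₁
  rw [← Real.sqrt_mul hB₁]
  apply Real.le_sqrt_of_sq_le
  rw [wt_sq]
  exact mul_le_mul h₁ h₂ (wt_nonneg _ _ _) hB₁

theorem abs_det_le {m : ℕ} (M : Matrix (Fin m) (Fin m) ℝ) (r s : Fin m → ℝ)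
    (h : ∀ i k, |M i k| ≤ r i * s k) :
    |M.det| ≤ (m.factorial : ℝ) * ((∏ i, r i) * ∏ i, s i) := by
  rw [Matrix.det_apply]
  refine (abs_sum_le_sum_abs _ _).trans ?_
  have key : ∀ σ : Equiv.Perm (Fin m),
      |Equiv.Perm.sign σ • ∏ i, M (σ i) i| ≤ (∏ i, r i) * ∏ i, s i := by
    intro σ
    have e : |Equiv.Perm.sign σ • ∏ i, M (σ i) i| = ∏ i, |M (σ i) i| := by
      rw [← Finset.abs_prod]
      rcases Int.units_eq_one_or (Equiv.Perm.sign σ) with h1 | h1 <;> simp [h1]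
    rw [e, ← Equiv.prod_comp σ r, ← Finset.prod_mul_distrib]
    exact Finset.prod_le_prod (fun i _ => abs_nonneg _) fun i _ => h _ _
  calc _ ≤ ∑ _σ : Equiv.Perm (Fin m), (∏ i, r i) * ∏ i, s i := Finset.sum_le_sum fun σ _ => key σ
    _ = _ := by simp [Fintype.card_perm]

theorem small_terms (c : ℝ) : ∀ᶠ n : ℕ in atTop, Real.log (6 * (n : ℝ)) + c ≤ (n : ℝ) / 20 := by
  have h1 : Tendsto (fun n : ℕ => (n : ℝ)) atTop atTop := tendsto_natCast_atTop_atTop
  have h2 := (Real.isLittleO_log_id_atTop.comp_tendsto h1).bound (show (0 : ℝ) < 1 / 40 by norm_num)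
  filter_upwards [h2, h1.eventually_ge_atTop (40 * (Real.log 6 + c)), h1.eventually_gt_atTop 0]
    with n hn hn2 hn3
  rw [Real.log_mul (by norm_num) hn3.ne']
  simp only [Function.comp, id, Real.norm_eq_abs] at hn
  rw [abs_of_pos hn3] at hn
  have := le_abs_self (Real.log n)
  linarith

end Final

open Final

theorem upper (a b : ℤ) (x : ℚ) (hx : (x : ℂ) = a * riemannZeta 2 + b * riemannZeta 3) :
    ∀ᶠ n : ℕ in atTop, |(Delta a b x n : ℝ)| ≤
      Real.exp (18 * (n : ℝ) ^ 2 * Real.log n - 843 / 10 * (n : ℝ) ^ 2) := by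
  obtain ⟨Cst, hC, hL⟩ := L_bound a b x hx
  filter_upwards [exists_good_basis, small_terms (Real.log Cst), eventually_ge_atTop 1]
    with n hn hs h1
  obtain ⟨φ, B, hm, hd, hB, hw, hsum⟩ := hn
  rw [← det_gram_monic a b x n φ hm hd]
  have e : (((gram a b x n φ).det : ℚ) : ℝ) = ((gram a b x n φ).map (Rat.castHom ℝ)).det := by
    have := (Rat.castHom ℝ).map_det (gram a b x n φ)
    simpa [RingHom.mapMatrix_apply] using this
  rw [e]
  have hb := abs_det_le ((gram a b x n φ).map (Rat.castHom ℝ))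
    (fun i => Cst * Real.sqrt (B i)) (fun i => Real.sqrt (B i)) (by
      intro i k
      have := hL n (φ i * φ k) (Real.sqrt (B i) * Real.sqrt (B k))
        (fun y => wt_le n _ _ _ y _ _ (hw i y) (hw k y))
      simpa [gram, mul_assoc] using this)
  refine hb.trans ?_
  have e2 : (∏ i, Cst * Real.sqrt (B i)) * ∏ i, Real.sqrt (B i) =
      Real.exp (6 * n * Real.log Cst + ∑ t, Real.log (B t)) := by
    rw [← Finset.prod_mul_distrib, Real.exp_add, Real.exp_sum]
    have : ∀ i, Cst * Real.sqrt (B i) * Real.sqrt (B i) = Cst * Real.exp (Real.log (B i)) := by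
      intro i
      rw [mul_assoc, Real.mul_self_sqrt (hB i).le, Real.exp_log (hB i)]
    simp only [this]
    rw [Finset.prod_mul_distrib, Finset.prod_const, Finset.card_univ, Fintype.card_fin]
    congr 1
    have : (6 * n : ℝ) = ((6 * n : ℕ) : ℝ) := by push_cast; ring
    rw [this, Real.exp_nat_mul, Real.exp_log hC]
  have hn0 : (0 : ℝ) < n := by exact_mod_cast h1
  have e3 : ((6 * n).factorial : ℝ) ≤ Real.exp (6 * n * Real.log (6 * n)) := by
    have : (6 * n : ℝ) = ((6 * n : ℕ) : ℝ) := by push_cast; ring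
    rw [this, Real.exp_nat_mul, Real.exp_log (by rw [← this]; positivity)]
    exact_mod_cast Nat.factorial_le_pow (6 * n)
  rw [e2]
  refine (mul_le_mul_of_nonneg_right e3 (Real.exp_pos _).le).trans ?_
  rw [← Real.exp_add]
  apply Real.exp_le_exp.mpr
  have : 6 * (n : ℝ) * (Real.log (6 * n) + Real.log Cst) ≤ 6 * n * (n / 20) :=
    mul_le_mul_of_nonneg_left hs (by positivity)
  nlinarith

theorem irrational_pi_sq : Irrational (Real.pi ^ 2) := PiSq.irrational

namespace Final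

theorem no_relation (a b : ℤ) (hb : b ≠ 0) (x : ℚ) :
    (x : ℂ) ≠ a * riemannZeta 2 + b * riemannZeta 3 := by
  intro hx
  obtain ⟨N, hN⟩ := eventually_atTop.mp
    ((upper a b x hx).and ((lower a b x).and ((nonzero a b hb x).and (eventually_ge_atTop 1))))
  obtain ⟨p, hp, hpp⟩ := Nat.exists_infinite_primes N
  obtain ⟨hu, hl, hz, h1⟩ := hN p hp
  have h0 := hz hpp
  have hl' := hl h0
  have hpos : 0 < |(Delta a b x p : ℝ)| := abs_pos.mpr (by exact_mod_cast h0)
  have h2 := Real.log_le_log hpos hu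
  rw [Real.log_exp] at h2
  have hp0 : (0 : ℝ) < p := by exact_mod_cast h1
  nlinarith [sq_pos_of_pos hp0]

end Final

theorem main : LinearIndependent ℚ ![(1 : ℂ), (Real.pi : ℂ) ^ 2, riemannZeta 3] := by
  rw [Fintype.linearIndependent_iff]
  intro g hg
  simp only [Fin.sum_univ_three, Matrix.cons_val_zero, Matrix.cons_val_one, Matrix.cons_val,
    Rat.smul_def, mul_one] at hg
  have h2 : g 2 = 0 := by
    by_contra h2
    have hd1 : ((g 1).den : ℚ) ≠ 0 := by exact_mod_cast (g 1).den_nz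
    have hd2 : ((g 2).den : ℚ) ≠ 0 := by exact_mod_cast (g 2).den_nz
    refine no_relation (6 * (g 1).num * (g 2).den) ((g 2).num * (g 1).den) ?_
      (-(g 0) * (g 1).den * (g 2).den) ?_
    · exact mul_ne_zero (Rat.num_ne_zero.mpr h2) (by exact_mod_cast (g 1).den_nz)
    · have e1 : (((g 1).num : ℤ) : ℂ) = (g 1 : ℂ) * ((g 1).den : ℕ) := by
        exact_mod_cast (Rat.mul_den_eq_num (g 1)).symm
      have e2 : (((g 2).num : ℤ) : ℂ) = (g 2 : ℂ) * ((g 2).den : ℕ) := by
        exact_mod_cast (Rat.mul_den_eq_num (g 2)).symm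
      rw [riemannZeta_two]
      push_cast
      rw [e1, e2]
      linear_combination (-((g 1).den : ℂ) * ((g 2).den : ℂ)) * hg
  rw [h2] at hg
  have hr : (g 0 : ℝ) + g 1 * Real.pi ^ 2 = 0 := by
    have : (((g 0 : ℝ) + g 1 * Real.pi ^ 2 : ℝ) : ℂ) = 0 := by
      push_cast
      simpa using hg
    exact_mod_cast this
  have h1 : g 1 = 0 := by
    by_contra h1
    apply irrational_pi_sq
    refine ⟨-(g 0) / g 1, ?_⟩
    have : (g 1 : ℝ) ≠ 0 := by exact_mod_cast h1
    push_cast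
    field_simp
    linarith
  have h0 : g 0 = 0 := by
    rw [h1] at hr
    exact_mod_cast (by simpa using hr : (g 0 : ℝ) = 0)
  intro i
  fin_cases i
  · exact h0
  · exact h1
  · exact h2

end Pool.Agent.P.MP_a89d6d_nt.Z23
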