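import Pool.Agent.P.MP_a89d6d_nt.Z23.Local

/-!
Valuation of the Hankel determinant at the primes `p > 3 n`.
-/

namespace Pool.Agent.P.MP_a89d6d_nt.Z23

open Polynomial Finset Filter

namespace Large

/-- Polynomials with integer coefficients. -/
def IsZ (Q : ℚ[X]) : Prop := Q ∈ Polynomial.lifts (Int.castRingHom ℚ)

theorem IsZ.mul {P Q : ℚ[X]} (hP : IsZ P) (hQ : IsZ Q) : IsZ (P * Q) :=
  Subsemiring.mul_mem _ hP hQ

theorem IsZ.pow {P : ℚ[X]} (hP : IsZ P) (k : ℕ) : IsZ (P ^ k) :=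
  Subsemiring.pow_mem _ hP k

theorem IsZ.add {P Q : ℚ[X]} (hP : IsZ P) (hQ : IsZ Q) : IsZ (P + Q) :=
  Subsemiring.add_mem _ hP hQ

theorem IsZ.sub {P Q : ℚ[X]} (hP : IsZ P) (hQ : IsZ Q) : IsZ (P - Q) := by
  obtain ⟨R, hR⟩ := (Polynomial.mem_lifts _).1 hP
  obtain ⟨S, hS⟩ := (Polynomial.mem_lifts _).1 hQ
  exact (Polynomial.mem_lifts _).2 ⟨R - S, by rw [Polynomial.map_sub, hR, hS]⟩

theorem isZ_X : IsZ (X : ℚ[X]) := Polynomial.X_mem_lifts _

theorem isZ_C (z : ℤ) : IsZ (C (z : ℚ)) := Polynomial.C_mem_lifts (Int.castRingHom ℚ) z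

theorem isZ_prod {ι : Type} (s : Finset ι) (f : ι → ℚ[X]) (h : ∀ i ∈ s, IsZ (f i)) :
    IsZ (∏ i ∈ s, f i) := Subsemiring.prod_mem _ h

theorem isZ_lin (j : ℕ) : IsZ (X + C ((j : ℚ) + 1)) := by
  have := isZ_C ((j : ℤ) + 1)
  push_cast at this
  exact isZ_X.add this

theorem isZ_W (n : ℕ) : IsZ (W n) := by
  refine isZ_prod _ _ fun i _ => ?_
  have := isZ_C (i : ℤ)
  push_cast at this
  exact isZ_X.sub this

theorem isZ_D (K : ℕ) : IsZ (D K) := isZ_prod _ _ fun j _ => isZ_lin j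

theorem IsZ.divByMonic {P Q : ℚ[X]} (hP : IsZ P) (hQ : IsZ Q) (hm : Q.Monic) :
    IsZ (P /ₘ Q) := by
  obtain ⟨R, hR⟩ := (Polynomial.mem_lifts _).1 hP
  obtain ⟨S, hS, -, hSm⟩ := Polynomial.lifts_and_natDegree_eq_and_monic hQ hm
  exact (Polynomial.mem_lifts _).2 ⟨R /ₘ S, by rw [Polynomial.map_divByMonic _ hSm, hR, hS]⟩

theorem IsZ.coeff {P : ℚ[X]} (hP : IsZ P) (i : ℕ) : ∃ z : ℤ, P.coeff i = z := by
  obtain ⟨R, hR⟩ := (Polynomial.mem_lifts _).1 hP
  exact ⟨R.coeff i, by rw [← hR, Polynomial.coeff_map]; rfl⟩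

theorem IsZ.eval {P : ℚ[X]} (hP : IsZ P) (y : ℤ) : ∃ z : ℤ, P.eval (y : ℚ) = z := by
  obtain ⟨R, hR⟩ := (Polynomial.mem_lifts _).1 hP
  refine ⟨R.eval y, ?_⟩
  rw [← hR]
  exact Polynomial.eval_intCast_map (Int.castRingHom ℚ) R y

variable (p : ℕ) [Fact p.Prime]

theorem norm_int_le (z : ℤ) : ‖(((z : ℚ) : ℚ) : ℚ_[p])‖ ≤ 1 := by
  rw [Rat.cast_intCast]
  exact Padic.norm_int_le_one z

theorem IsZ.norm_eval {P : ℚ[X]} (hP : IsZ P) (y : ℤ) :
    ‖((P.eval (y : ℚ) : ℚ) : ℚ_[p])‖ ≤ 1 := by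
  obtain ⟨z, hz⟩ := hP.eval y
  rw [hz]
  exact norm_int_le p z

theorem norm_inv_nat (k e : ℕ) (hk : 0 < k) (h : k < p ^ (e + 1)) :
    ‖((k : ℚ_[p]))⁻¹‖ ≤ (p : ℝ) ^ e := by
  have hp : p.Prime := Fact.out
  have hk0 : (k : ℚ_[p]) ≠ 0 := by exact_mod_cast hk.ne'
  rw [norm_inv, Padic.norm_eq_zpow_neg_valuation hk0, Padic.valuation_natCast, ← zpow_neg,
    neg_neg, zpow_natCast]
  have h1 : p ^ padicValNat p k ≤ k := Nat.le_of_dvd hk pow_padicValNat_dvd
  have h2 : padicValNat p k < e + 1 := (Nat.pow_lt_pow_iff_right hp.one_lt).1 (h1.trans_lt h)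
  exact pow_le_pow_right₀ (by exact_mod_cast hp.one_lt.le) (by omega)

theorem fact_mul_H (m : ℕ) : ∃ z : ℤ, (m.factorial : ℚ) * H 1 m = z := by
  refine ⟨∑ i ∈ range m, ((m.factorial / (i + 1) : ℕ) : ℤ), ?_⟩
  unfold H
  rw [Finset.mul_sum]
  push_cast [Int.cast_sum]
  refine Finset.sum_congr rfl fun i hi => ?_
  have hd : (i + 1) ∣ m.factorial :=
    Nat.dvd_factorial (Nat.succ_pos i) (by simpa using Finset.mem_range.1 hi)
  obtain ⟨c, hc⟩ := hd
  have h1 : (((m.factorial : ℕ) : ℤ) / ((i : ℤ) + 1)) = c := by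
    rw [hc]
    push_cast
    exact Int.mul_ediv_cancel_left _ (by positivity)
  rw [h1, hc]
  push_cast
  field_simp

theorem norm_Lpoly_W (a b : ℤ) (m e : ℕ) (h : m + 1 < p ^ (e + 1)) :
    ‖((Lpoly a b (W m) : ℚ) : ℚ_[p])‖ ≤ (p : ℝ) ^ e := by
  obtain ⟨z, hz⟩ := fact_mul_H m
  have h1 : Lpoly a b (W m) =
      (((-1) ^ m * (a * m.factorial + b * z) : ℤ) : ℚ) * (((m + 1 : ℕ) : ℚ))⁻¹ := by
    rw [Lpoly_W, lam]
    push_cast
    rw [← hz]
    field_simp
  rw [h1, Rat.cast_mul, norm_mul, Rat.cast_inv, Rat.cast_natCast]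
  calc _ ≤ 1 * (p : ℝ) ^ e :=
        mul_le_mul (norm_int_le p _) (norm_inv_nat p _ e (Nat.succ_pos m) h) (norm_nonneg _)
          zero_le_one
    _ = _ := one_mul _

theorem norm_add_le (u v : ℚ) (E : ℝ) (hu : ‖(u : ℚ_[p])‖ ≤ E) (hv : ‖(v : ℚ_[p])‖ ≤ E) :
    ‖((u + v : ℚ) : ℚ_[p])‖ ≤ E := by
  rw [Rat.cast_add]
  exact (Padic.nonarchimedean _ _).trans (max_le hu hv)

theorem norm_sub_le' (u v : ℚ) (E : ℝ) (hu : ‖(u : ℚ_[p])‖ ≤ E) (hv : ‖(v : ℚ_[p])‖ ≤ E) :
    ‖((u - v : ℚ) : ℚ_[p])‖ ≤ E := by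
  rw [sub_eq_add_neg]
  refine norm_add_le p _ _ E hu ?_
  rw [Rat.cast_neg, norm_neg]
  exact hv

theorem norm_sum_le {ι : Type} (s : Finset ι) (f : ι → ℚ) (E : ℝ) (hE : 0 ≤ E)
    (h : ∀ i ∈ s, ‖(f i : ℚ_[p])‖ ≤ E) : ‖((∑ i ∈ s, f i : ℚ) : ℚ_[p])‖ ≤ E := by
  classical
  induction s using Finset.induction_on with
  | empty => simpa using hE
  | insert i s hi ih =>
    rw [Finset.sum_insert hi]
    exact norm_add_le p _ _ E (h i (Finset.mem_insert_self _ _))
      (ih fun k hk => h k (Finset.mem_insert_of_mem hk))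

theorem norm_Lpoly_isZ (a b : ℤ) (e : ℕ) : ∀ (M : ℕ) (Q : ℚ[X]), IsZ Q → Q.degree < M →
    M < p ^ (e + 1) → ‖((Lpoly a b Q : ℚ) : ℚ_[p])‖ ≤ (p : ℝ) ^ e := by
  intro M
  induction M with
  | zero =>
    intro Q _ hd _
    have : Q = 0 := by
      rw [← Polynomial.degree_eq_bot]
      simpa using hd
    subst this
    simp
  | succ M ih =>
    intro Q hQ hd hM
    obtain ⟨z, hz⟩ := hQ.coeff M
    have hW : (W M).degree = M := by
      rw [Polynomial.degree_eq_natDegree (W_monic M).ne_zero, W_natDegree]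
    have hWc : (W M).coeff M = 1 := by
      have := (W_monic M).coeff_natDegree
      rwa [W_natDegree] at this
    have hR : (Q - C (z : ℚ) * W M).degree < M := by
      rw [Polynomial.degree_lt_iff_coeff_zero]
      intro k hk
      rw [Polynomial.coeff_sub, Polynomial.coeff_C_mul]
      rcases hk.eq_or_lt with rfl | hk'
      · rw [hz, hWc]
        simp
      · have h1 : Q.coeff k = 0 :=
          Polynomial.coeff_eq_zero_of_degree_lt (hd.trans_le (by exact_mod_cast hk'))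
        have h2 : (W M).coeff k = 0 :=
          Polynomial.coeff_eq_zero_of_degree_lt (by rw [hW]; exact_mod_cast hk')
        rw [h1, h2]
        simp
    have h1 := ih _ (hQ.sub ((isZ_C z).mul (isZ_W M))) hR (by omega)
    have h2 : Lpoly a b Q = Lpoly a b (Q - C (z : ℚ) * W M) + (z : ℚ) * Lpoly a b (W M) := by
      rw [map_sub, ← Polynomial.smul_eq_C_mul, map_smul, smul_eq_mul]
      ring
    rw [h2]
    refine norm_add_le p _ _ _ h1 ?_
    rw [Rat.cast_mul, norm_mul]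
    calc _ ≤ 1 * (p : ℝ) ^ e :=
          mul_le_mul (norm_int_le p _) (norm_Lpoly_W p a b M e hM) (norm_nonneg _) zero_le_one
      _ = _ := one_mul _

theorem L_cancel (a b x : ℚ) (K : ℕ) (P : ℚ[X]) :
    L a b x (K + 1) ((X + C ((K : ℚ) + 1)) * P) = L a b x K P := by
  have hl : (X + C ((K : ℚ) + 1)).Monic := Polynomial.monic_X_add_C _
  have hD : D (K + 1) = (X + C ((K : ℚ) + 1)) * D K := by
    unfold D
    rw [Finset.prod_range_succ, mul_comm]
  have hdiv : ((X + C ((K : ℚ) + 1)) * P) /ₘ D (K + 1) = P /ₘ D K := by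
    refine (Polynomial.div_modByMonic_unique (P /ₘ D K)
      ((X + C ((K : ℚ) + 1)) * (P %ₘ D K)) (D_monic _) ⟨?_, ?_⟩).1
    · rw [hD]
      conv_rhs => rw [← Polynomial.modByMonic_add_div P (D K)]
      ring
    · rw [hD, Polynomial.degree_mul, Polynomial.degree_mul]
      exact WithBot.add_lt_add_left (Polynomial.degree_ne_bot.2 hl.ne_zero)
        (Polynomial.degree_modByMonic_lt P (D_monic K))
  unfold L
  rw [hdiv, Finset.sum_range_succ]
  have hlast : res (K + 1) ((X + C ((K : ℚ) + 1)) * P) K = 0 := by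
    unfold res
    simp
  rw [hlast, zero_mul, add_zero]
  congr 1
  refine Finset.sum_congr rfl fun j hj => ?_
  have hjK : j < K := Finset.mem_range.1 hj
  congr 1
  unfold res
  have he : (range (K + 1)).erase j = insert K ((range K).erase j) := by
    ext k
    simp only [Finset.mem_erase, Finset.mem_range, Finset.mem_insert]
    omega
  have hne : (K : ℚ) - j ≠ 0 := by
    have : (j : ℚ) < K := by exact_mod_cast hjK
    linarith [this] |> fun h : (0 : ℚ) < K - j => h.ne'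
  rw [he, Finset.prod_insert (by simp)]
  simp only [eval_mul, eval_add, eval_X, eval_C]
  rw [show -((j : ℚ) + 1) + ((K : ℚ) + 1) = K - j by ring]
  exact mul_div_mul_left _ _ hne

/-- The product of the linear factors with index in `[A, A + d)`. -/
noncomputable def Pi (A d : ℕ) : ℚ[X] := ∏ j ∈ range d, (X + C (((A + j : ℕ) : ℚ) + 1))

theorem Pi_monic (A d : ℕ) : (Pi A d).Monic :=
  Polynomial.monic_prod_of_monic _ _ fun _ _ => Polynomial.monic_X_add_C _

theorem Pi_natDegree (A d : ℕ) : (Pi A d).natDegree = d := by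
  unfold Pi
  rw [Polynomial.natDegree_prod_of_monic _ _ fun _ _ => Polynomial.monic_X_add_C _]
  simp only [Polynomial.natDegree_X_add_C]
  simp

theorem isZ_Pi (A d : ℕ) : IsZ (Pi A d) := isZ_prod _ _ fun j _ => isZ_lin (A + j)

theorem L_cancel_Pi (a b x : ℚ) (A : ℕ) : ∀ (d : ℕ) (P : ℚ[X]),
    L a b x (A + d) (Pi A d * P) = L a b x A P := by
  intro d
  induction d with
  | zero => intro P; simp [Pi]
  | succ d ih =>
    intro P
    have h1 : Pi A (d + 1) * P = (X + C (((A + d : ℕ) : ℚ) + 1)) * (Pi A d * P) := by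
      unfold Pi
      rw [Finset.prod_range_succ]
      ring
    rw [h1, ← add_assoc, L_cancel, ih]

theorem norm_x_le (x : ℚ) (hx : ¬ p ∣ x.den) : ‖(x : ℚ_[p])‖ ≤ 1 :=
  Padic.norm_rat_le_one hx

theorem norm_L_small (a b : ℤ) (x : ℚ) (hx : ¬ p ∣ x.den) (A : ℕ) (hA : A ≤ p) (P : ℚ[X])
    (hP : IsZ P) (e : ℕ) (h : P.natDegree - A + 1 < p ^ (e + 1)) :
    ‖((L a b x A P : ℚ) : ℚ_[p])‖ ≤ (p : ℝ) ^ e := by
  have hp : p.Prime := Fact.out
  have h1e : (1 : ℝ) ≤ (p : ℝ) ^ e := one_le_pow₀ (by exact_mod_cast hp.one_lt.le)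
  unfold L
  refine norm_add_le p _ _ _ ?_ ?_
  · refine norm_Lpoly_isZ p a b e _ _ (hP.divByMonic (isZ_D A) (D_monic A)) ?_ h
    refine Polynomial.degree_le_natDegree.trans_lt ?_
    rw [Polynomial.natDegree_divByMonic _ (D_monic A), D_natDegree]
    exact_mod_cast Nat.lt_succ_self _
  · refine norm_sum_le p _ _ _ (by positivity) fun j hj => ?_
    have hj' : j < A := Finset.mem_range.1 hj
    have hH : ∀ s : ℕ, ‖((H s j : ℚ) : ℚ_[p])‖ ≤ 1 := by
      intro s
      have := norm_H_le p s j j le_rfl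
      rwa [Nat.log_of_lt (by omega), mul_zero, pow_zero] at this
    have hc : ∀ (z : ℤ) (s : ℕ), ‖(((z : ℚ) * H s j : ℚ) : ℚ_[p])‖ ≤ 1 := by
      intro z s
      rw [Rat.cast_mul, norm_mul]
      exact mul_le_one₀ (norm_int_le p z) (norm_nonneg _) (hH s)
    have h2 : ‖((x - a * H 2 j - b * H 3 j : ℚ) : ℚ_[p])‖ ≤ 1 :=
      norm_sub_le' p _ _ _ (norm_sub_le' p _ _ _ (norm_x_le p x hx) (hc a 2)) (hc b 3)
    have h3 : ‖((res A P j : ℚ) : ℚ_[p])‖ ≤ 1 := by
      unfold res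
      rw [div_eq_mul_inv, Rat.cast_mul, norm_mul]
      refine mul_le_one₀ ?_ (norm_nonneg _) ?_
      · have := hP.norm_eval p (-((j : ℤ) + 1))
        push_cast at this
        exact this
      · rw [← Finset.prod_inv_distrib, Rat.cast_prod, norm_prod]
        refine Finset.prod_le_one (fun _ _ => norm_nonneg _) fun k hk => ?_
        have hk1 : k ≠ j := (Finset.mem_erase.1 hk).1
        have hk2 : k < A := Finset.mem_range.1 (Finset.mem_erase.1 hk).2
        rcases lt_or_gt_of_ne hk1 with hlt | hlt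
        · have := norm_inv_nat p (j - k) 0 (by omega) (by simp; omega)
          rw [Nat.cast_sub hlt.le, pow_zero] at this
          push_cast
          rw [← neg_sub, inv_neg, norm_neg]
          exact this
        · have := norm_inv_nat p (k - j) 0 (by omega) (by simp; omega)
          rw [Nat.cast_sub hlt.le, pow_zero] at this
          push_cast
          exact this
    rw [Rat.cast_mul, norm_mul]
    exact (mul_le_one₀ h3 (norm_nonneg _) h2).trans h1e

theorem card_class_le (K : ℕ) (hK : K ≤ 2 * p) (y : ℤ) :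
    ((range K).filter fun j : ℕ => (p : ℤ) ∣ y + j + 1).card ≤ 2 := by
  have hp : p.Prime := Fact.out
  have hp0 : 0 < p := hp.pos
  have h2 : (range 2).card = 2 := Finset.card_range 2
  rw [← h2]
  refine Finset.card_le_card_of_injOn (fun j => j / p) ?_ ?_
  · intro j hj
    have hj' : j < K := Finset.mem_range.1 (Finset.mem_filter.1 hj).1
    simp only [Finset.coe_range, Set.mem_Iio]
    rw [Nat.div_lt_iff_lt_mul hp0]
    omega
  · intro j hj k hk hjk
    have h1 := (Finset.mem_filter.1 hj).2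
    have h3 := (Finset.mem_filter.1 hk).2
    have h4 : (p : ℤ) ∣ (k : ℤ) - j := by
      have := dvd_sub h3 h1
      rwa [show y + k + 1 - (y + j + 1) = (k : ℤ) - j by ring] at this
    have h5 : j % p = k % p := (Nat.modEq_iff_dvd.2 h4)
    have h6 : j / p = k / p := hjk
    rw [← Nat.div_add_mod j p, ← Nat.div_add_mod k p, h5, h6]

theorem norm_L_big (a b : ℤ) (x : ℚ) (hx : ¬ p ∣ x.den) (K : ℕ) (hK : K ≤ 2 * p)
    (hK2 : K < p ^ 2) (P : ℚ[X]) (hP : IsZ P) (h : P.natDegree + 1 < p ^ 2) :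
    ‖((L a b x K P : ℚ) : ℚ_[p])‖ ≤ (p : ℝ) ^ (4 : ℕ) := by
  have hp : p.Prime := Fact.out
  have := local_bound p a b x hx K P hK2 h (-2) fun y => by
    refine (hP.norm_eval p y).trans ?_
    refine one_le_zpow₀ (by exact_mod_cast hp.one_lt.le) ?_
    have := card_class_le p K hK y
    omega
  simpa using this

end Large

open Large in
theorem val_large (a b : ℤ) (x : ℚ) (n p : ℕ) (hp : p.Prime) (hn : 1 ≤ n)
    (h3 : 3 * n < p) (hx : ¬ p ∣ x.den) (h0 : Delta a b x n ≠ 0) :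
    -4 * max (6 * (n : ℝ) - p) 0 - max (min (p : ℝ) (9 * n - p)) 0 ≤
      (padicValRat p (Delta a b x n) : ℝ) := by
  have : Fact p.Prime := ⟨hp⟩
  set N : ℕ := 6 * n - p with hN
  set A : ℕ := min (6 * n) p with hA
  have hAN : A + N = 6 * n := by omega
  have hsq : 15 * n < p ^ 2 := by nlinarith
  let φ : Fin (6 * n) → ℚ[X] := fun t =>
    if (t : ℕ) < N then X ^ (t : ℕ) else Pi A N * X ^ ((t : ℕ) - N)
  have hm : ∀ t, (φ t).Monic := by
    intro t
    simp only [φ]
    split_ifs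
    · exact Polynomial.monic_X_pow _
    · exact (Pi_monic A N).mul (Polynomial.monic_X_pow _)
  have hd : ∀ t, (φ t).natDegree = (t : ℕ) := by
    intro t
    simp only [φ]
    split_ifs with h
    · exact Polynomial.natDegree_X_pow _
    · rw [(Pi_monic A N).natDegree_mul (Polynomial.monic_X_pow _), Pi_natDegree,
        Polynomial.natDegree_X_pow]
      omega
  have hZ : ∀ t, IsZ (φ t) := by
    intro t
    simp only [φ]
    split_ifs
    · exact isZ_X.pow _
    · exact (isZ_Pi A N).mul (isZ_X.pow _)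
  let ex : ℕ → ℕ := fun t => if t < N then 4 else if t + 3 * n < p then 0 else 1
  have hW3 : (W n ^ 3).Monic := (W_monic n).pow 3
  have hW3d : (W n ^ 3).natDegree = 3 * n := by
    rw [(W_monic n).natDegree_pow, W_natDegree]
  have hentry : ∀ t u : Fin (6 * n),
      ‖((gram a b x n φ t u : ℚ) : ℚ_[p])‖ ≤ (p : ℝ) ^ ex t * 1 := by
    intro t u
    have ht := t.2
    have hu := u.2
    rw [mul_one]
    simp only [gram, Matrix.of_apply, ex]
    by_cases h : (t : ℕ) < N
    · rw [if_pos h]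
      refine norm_L_big p a b x hx _ (by omega) (by omega) _
        ((((isZ_W n).pow 3).mul (hZ t)).mul (hZ u)) ?_
      rw [(hW3.mul (hm t)).natDegree_mul (hm u), hW3.natDegree_mul (hm t), hW3d, hd, hd]
      omega
    · rw [if_neg h]
      have h1 : W n ^ 3 * φ t * φ u = Pi A N * (W n ^ 3 * X ^ ((t : ℕ) - N) * φ u) := by
        have : φ t = Pi A N * X ^ ((t : ℕ) - N) := if_neg h
        rw [this]
        ring
      have h2 : L a b x (6 * n) (W n ^ 3 * φ t * φ u) =
          L a b x A (W n ^ 3 * X ^ ((t : ℕ) - N) * φ u) := by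
        rw [h1, ← L_cancel_Pi a b x A N, hAN]
      rw [h2]
      refine norm_L_small p a b x hx A (by omega) _
        ((((isZ_W n).pow 3).mul (isZ_X.pow _)).mul (hZ u)) _ ?_
      rw [(hW3.mul (Polynomial.monic_X_pow _)).natDegree_mul (hm u),
        hW3.natDegree_mul (Polynomial.monic_X_pow _), hW3d, hd, Polynomial.natDegree_X_pow]
      split_ifs with h4
      · rw [zero_add, pow_one]
        omega
      · rw [show 1 + 1 = 2 from rfl]
        omega
  have hdet := det_norm_le p (gram a b x n φ) (fun t => (p : ℝ) ^ ex t) (fun _ => 1)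
    (fun _ => by positivity) (fun _ => zero_le_one) hentry
  rw [det_gram_monic a b x n φ hm hd, Finset.prod_const_one, mul_one, Finset.prod_pow_eq_pow_sum,
    Fin.sum_univ_eq_sum_range ex (6 * n)] at hdet
  have hsum : ∑ t ∈ range (6 * n), ex t ≤ 4 * N + (6 * n - max N (p - 3 * n)) := by
    have h1 : ∀ t ∈ range (6 * n), ex t ≤
        4 * (if t ∈ range N then 1 else 0) +
          (if t ∈ Ico (max N (p - 3 * n)) (6 * n) then 1 else 0) := by
      intro t ht
      have ht' := Finset.mem_range.1 ht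
      simp only [ex, Finset.mem_range, Finset.mem_Ico]
      split_ifs <;> omega
    refine (Finset.sum_le_sum h1).trans ?_
    rw [Finset.sum_add_distrib, ← Finset.mul_sum, Finset.sum_ite_mem, Finset.sum_ite_mem]
    simp only [Finset.sum_const, smul_eq_mul, mul_one]
    have h2 : (range (6 * n) ∩ range N).card ≤ N :=
      (Finset.card_le_card Finset.inter_subset_right).trans (by simp)
    have h4 : (range (6 * n) ∩ Ico (max N (p - 3 * n)) (6 * n)).card ≤
        6 * n - max N (p - 3 * n) :=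
      (Finset.card_le_card Finset.inter_subset_right).trans (by simp)
    omega
  have hval := le_val_of_norm_le p _ h0 (-((∑ t ∈ range (6 * n), ex t : ℕ) : ℝ))
    (by rw [neg_neg, Real.rpow_natCast]; exact hdet)
  refine le_trans ?_ hval
  have hs : ((∑ t ∈ range (6 * n), ex t : ℕ) : ℝ) ≤
      4 * (N : ℝ) + ((6 * n - max N (p - 3 * n) : ℕ) : ℝ) := by exact_mod_cast hsum
  have hN' : (N : ℝ) ≤ max (6 * (n : ℝ) - p) 0 := by
    rcases le_total p (6 * n) with h | h
    · refine le_max_of_le_left ?_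
      rw [hN, Nat.cast_sub h]
      push_cast
      exact le_rfl
    · refine le_max_of_le_right ?_
      have : N = 0 := by omega
      rw [this]
      simp
  have hM' : ((6 * n - max N (p - 3 * n) : ℕ) : ℝ) ≤ max (min (p : ℝ) (9 * n - p)) 0 := by
    rcases le_total p (9 * n) with h | h
    · refine le_max_of_le_left (le_min ?_ ?_)
      · exact_mod_cast (by omega : 6 * n - max N (p - 3 * n) ≤ p)
      · have h5 : 6 * n - max N (p - 3 * n) + p ≤ 9 * n := by omega
        have h6 : ((6 * n - max N (p - 3 * n) : ℕ) : ℝ) + p ≤ 9 * n := by exact_mod_cast h5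
        linarith
    · refine le_max_of_le_right ?_
      have : 6 * n - max N (p - 3 * n) = 0 := by omega
      rw [this]
      simp
  linarith

end Pool.Agent.P.MP_a89d6d_nt.Z23
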