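import Pool.Agent.P.MP_a89d6d_nt.Z23.Core

/-! Local estimates at a prime `p`. -/

namespace Pool.Agent.P.MP_a89d6d_nt.Z23

open Polynomial Finset Filter

namespace Local

theorem one_le_p (p : ℕ) [hp : Fact p.Prime] : (1 : ℝ) ≤ p := by
  exact_mod_cast hp.out.one_lt.le

theorem one_lt_p (p : ℕ) [hp : Fact p.Prime] : (1 : ℝ) < p := by
  exact_mod_cast hp.out.one_lt

theorem norm_add_le_of {p : ℕ} [Fact p.Prime] {u v : ℚ_[p]} {c : ℝ} (hu : ‖u‖ ≤ c)
    (hv : ‖v‖ ≤ c) : ‖u + v‖ ≤ c := (Padic.nonarchimedean u v).trans (max_le hu hv)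

theorem norm_sub_le_of {p : ℕ} [Fact p.Prime] {u v : ℚ_[p]} {c : ℝ} (hu : ‖u‖ ≤ c)
    (hv : ‖v‖ ≤ c) : ‖u - v‖ ≤ c := by
  rw [sub_eq_add_neg]
  exact norm_add_le_of hu (by rwa [norm_neg])

theorem norm_sum_le_of {p : ℕ} [Fact p.Prime] {ι : Type*} {s : Finset ι} {f : ι → ℚ_[p]} {c : ℝ}
    (hc : 0 ≤ c) (h : ∀ i ∈ s, ‖f i‖ ≤ c) : ‖∑ i ∈ s, f i‖ ≤ c :=
  IsUltrametricDist.norm_sum_le_of_forall_le_of_nonneg hc h

/-- The inverse of an integer not divisible by `p ^ (k + 1)` has norm at most `p ^ k`. -/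
theorem norm_inv_int_le (p : ℕ) [Fact p.Prime] (z : ℤ) (k : ℕ) (h : ¬ (p : ℤ) ^ (k + 1) ∣ z) :
    ‖((z : ℚ_[p]))⁻¹‖ ≤ (p : ℝ) ^ k := by
  have hz : (z : ℚ_[p]) ≠ 0 := by
    intro h0
    have : z = 0 := by exact_mod_cast h0
    exact h (this ▸ dvd_zero _)
  rw [← Padic.norm_int_le_pow_iff_dvd, not_le, Padic.norm_eq_zpow_neg_valuation hz,
    zpow_lt_zpow_iff_right₀ (one_lt_p p)] at h
  rw [norm_inv, Padic.norm_eq_zpow_neg_valuation hz, ← zpow_neg, neg_neg, ← zpow_natCast]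
  apply zpow_le_zpow_right₀ (one_le_p p)
  push_cast at h
  omega

theorem norm_inv_nat_le (p : ℕ) [hp : Fact p.Prime] (n N : ℕ) (hn : 0 < n) (h : n ≤ N) :
    ‖((n : ℚ_[p]))⁻¹‖ ≤ (p : ℝ) ^ Nat.log p N := by
  have := norm_inv_int_le p (n : ℤ) (Nat.log p N) (by
    intro hd
    have h1 : p ^ (Nat.log p N + 1) ∣ n := by exact_mod_cast hd
    have h2 := Nat.le_of_dvd hn h1
    have h3 := Nat.lt_pow_succ_log_self hp.out.one_lt N
    rw [Nat.succ_eq_add_one] at h3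
    omega)
  simpa using this

theorem norm_inv_small (p : ℕ) [Fact p.Prime] (z : ℤ) (hz : z ≠ 0) (h : |z| < (p : ℤ) ^ 2) :
    ‖((z : ℚ_[p]))⁻¹‖ ≤ (p : ℝ) ^ (if (p : ℤ) ∣ z then 1 else 0) := by
  split_ifs with hd
  · apply norm_inv_int_le
    intro h1
    have := Int.le_of_dvd (abs_pos.2 hz) ((dvd_abs _ _).2 h1)
    norm_num at this
    omega
  · apply norm_inv_int_le
    simpa using hd

theorem norm_inv_small' (p : ℕ) [Fact p.Prime] (z : ℤ) (hz : z ≠ 0) (h : |z| < (p : ℤ) ^ 2) :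
    ‖((z : ℚ_[p]))⁻¹‖ ≤ (p : ℝ) := by
  refine (norm_inv_small p z hz h).trans ?_
  split_ifs
  · simp
  · simpa using one_le_p p

theorem norm_inv_prod_small (p : ℕ) [Fact p.Prime] (s : Finset ℕ) (z : ℕ → ℤ)
    (hz : ∀ i ∈ s, z i ≠ 0 ∧ |z i| < (p : ℤ) ^ 2) :
    ‖(∏ i ∈ s, (z i : ℚ_[p]))⁻¹‖ ≤ (p : ℝ) ^ (s.filter fun i => (p : ℤ) ∣ z i).card := by
  rw [← Finset.prod_inv_distrib, norm_prod, Finset.card_filter, ← Finset.prod_pow_eq_pow_sum]
  exact Finset.prod_le_prod (fun _ _ => norm_nonneg _)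
    fun i hi => norm_inv_small p _ (hz i hi).1 (hz i hi).2

theorem log_le_one (p N : ℕ) [hp : Fact p.Prime] (h : N < p ^ 2) : Nat.log p N ≤ 1 := by
  by_cases h0 : N = 0
  · simp [h0]
  · have := (Nat.log_lt_iff_lt_pow hp.out.one_lt h0).2 h
    omega

end Local

open Local

theorem det_norm_le (p : ℕ) [Fact p.Prime] {ι : Type} [Fintype ι] [DecidableEq ι]
    (M : Matrix ι ι ℚ) (r s : ι → ℝ) (hr : ∀ i, 0 ≤ r i) (hs : ∀ i, 0 ≤ s i)
    (h : ∀ i k, ‖((M i k : ℚ) : ℚ_[p])‖ ≤ r i * s k) :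
    ‖((M.det : ℚ) : ℚ_[p])‖ ≤ (∏ i, r i) * ∏ i, s i := by
  rw [Matrix.det_apply', Rat.cast_sum]
  apply norm_sum_le_of
    (mul_nonneg (Finset.prod_nonneg fun i _ => hr i) (Finset.prod_nonneg fun i _ => hs i))
  intro σ _
  rw [Rat.cast_mul, Rat.cast_prod, norm_mul, norm_prod, Rat.cast_intCast]
  calc _ ≤ 1 * ∏ i, (r (σ i) * s i) :=
        mul_le_mul (Padic.norm_int_le_one _)
          (Finset.prod_le_prod (fun _ _ => norm_nonneg _) fun i _ => h _ _)
          (Finset.prod_nonneg fun _ _ => norm_nonneg _) zero_le_one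
    _ = _ := by rw [one_mul, Finset.prod_mul_distrib, Equiv.prod_comp σ r]

theorem le_val_of_norm_le (p : ℕ) [Fact p.Prime] (q : ℚ) (hq : q ≠ 0) (e : ℝ)
    (h : ‖(q : ℚ_[p])‖ ≤ (p : ℝ) ^ (-e)) : e ≤ (padicValRat p q : ℝ) := by
  rw [Padic.eq_padicNorm, padicNorm.eq_zpow_of_nonzero hq] at h
  push_cast at h
  rw [← Real.rpow_intCast, Real.rpow_le_rpow_left_iff (one_lt_p p)] at h
  push_cast at h
  linarith

theorem norm_H_le (p : ℕ) [Fact p.Prime] (s m N : ℕ) (h : m ≤ N) :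
    ‖((H s m : ℚ) : ℚ_[p])‖ ≤ (p : ℝ) ^ (s * Nat.log p N) := by
  unfold H
  rw [Rat.cast_sum]
  apply norm_sum_le_of (by positivity)
  intro i hi
  have h1 := norm_inv_nat_le p (i + 1) N (Nat.succ_pos i) (by
    have := Finset.mem_range.1 hi; omega)
  push_cast at h1 ⊢
  rw [one_div, ← inv_pow, norm_pow, mul_comm s, pow_mul]
  exact pow_le_pow_left₀ (norm_nonneg _) h1 s

theorem norm_Lpoly_le (p : ℕ) [Fact p.Prime] (a b : ℤ) (Q : ℚ[X]) (M : ℕ) (h : Q.natDegree ≤ M)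
    (E : ℝ) (hE : ∀ m : ℕ, m ≤ M → ‖((Q.eval (m : ℚ) : ℚ) : ℚ_[p])‖ ≤ E) :
    ‖((Lpoly a b Q : ℚ) : ℚ_[p])‖ ≤ E * (p : ℝ) ^ (2 * Nat.log p (M + 1)) := by
  have hE0 : 0 ≤ E := (norm_nonneg _).trans (hE 0 (Nat.zero_le _))
  rw [Lpoly_newton a b Q M h, Rat.cast_sum]
  apply norm_sum_le_of (by positivity)
  intro m hm
  have hm' : m ≤ M := by have := Finset.mem_range.1 hm; omega
  rw [Rat.cast_mul, norm_mul]
  refine mul_le_mul ?_ ?_ (norm_nonneg _) hE0
  · unfold nc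
    rw [Rat.cast_sum]
    apply norm_sum_le_of hE0
    intro i hi
    have hi' : i ≤ M := by have := Finset.mem_range.1 hi; omega
    rw [Rat.cast_mul, norm_mul]
    have h1 : ‖(((-1) ^ (m - i) * (m.choose i : ℚ) : ℚ) : ℚ_[p])‖ ≤ 1 := by
      have := Padic.norm_int_le_one (p := p) ((-1) ^ (m - i) * (m.choose i : ℤ))
      simpa using this
    calc _ ≤ 1 * E := mul_le_mul h1 (hE i hi') (norm_nonneg _) zero_le_one
      _ = E := one_mul E
  · unfold lam
    have h1 := norm_inv_nat_le p (m + 1) (M + 1) (Nat.succ_pos m) (by omega)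
    have h2 := norm_H_le p 1 m (M + 1) (by omega)
    rw [one_mul] at h2
    have h3 : (1 : ℝ) ≤ (p : ℝ) ^ Nat.log p (M + 1) := one_le_pow₀ (one_le_p p)
    have h4 : ‖((a : ℚ_[p]) + (b : ℚ_[p]) * ((H 1 m : ℚ) : ℚ_[p]))‖ ≤
        (p : ℝ) ^ Nat.log p (M + 1) := by
      apply norm_add_le_of ((Padic.norm_int_le_one a).trans h3)
      rw [norm_mul]
      calc _ ≤ 1 * (p : ℝ) ^ Nat.log p (M + 1) :=
            mul_le_mul (Padic.norm_int_le_one b) h2 (norm_nonneg _) zero_le_one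
        _ = _ := one_mul _
    push_cast at h1 ⊢
    rw [div_eq_mul_inv, norm_mul, norm_mul, norm_pow, norm_neg, norm_one, one_pow, one_mul,
      two_mul, pow_add]
    exact mul_le_mul h4 h1 (norm_nonneg _) (by positivity)

namespace Local

theorem norm_res_le (p : ℕ) [Fact p.Prime] (K : ℕ) (P : ℚ[X]) (hK : K < p ^ 2) (e : ℤ)
    (h : ∀ y : ℤ, ‖((P.eval (y : ℚ) : ℚ) : ℚ_[p])‖ ≤
      (p : ℝ) ^ (-(e + (((range K).filter fun j : ℕ => (p : ℤ) ∣ y + j + 1).card : ℤ))))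
    (j : ℕ) (hj : j < K) : ‖((res K P j : ℚ) : ℚ_[p])‖ ≤ (p : ℝ) ^ (-e - 1) := by
  have hp0 : (p : ℝ) ≠ 0 := by have := one_lt_p p; positivity
  have h1 := h (-((j : ℤ) + 1))
  have h2 := norm_inv_prod_small p ((range K).erase j) (fun k => (k : ℤ) - j) (by
    intro k hk
    obtain ⟨hk1, hk2⟩ := Finset.mem_erase.1 hk
    have hk3 := Finset.mem_range.1 hk2
    have hK' : (K : ℤ) < (p : ℤ) ^ 2 := by exact_mod_cast hK
    refine ⟨by omega, ?_⟩
    rw [abs_lt]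
    constructor <;> omega)
  have h3 : ((range K).filter fun k : ℕ => (p : ℤ) ∣ -((j : ℤ) + 1) + k + 1).card =
      (((range K).erase j).filter fun k : ℕ => (p : ℤ) ∣ (k : ℤ) - j).card + 1 := by
    rw [Finset.filter_erase, Finset.card_erase_add_one (by simpa using hj)]
    congr 1
    apply Finset.filter_congr
    intro k _
    rw [show -((j : ℤ) + 1) + k + 1 = (k : ℤ) - j by ring]
  rw [h3] at h1
  unfold res
  push_cast at h1 h2 ⊢
  rw [div_eq_mul_inv, norm_mul]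
  refine (mul_le_mul h1 h2 (norm_nonneg _) (by positivity)).trans (le_of_eq ?_)
  rw [← zpow_natCast, ← zpow_add₀ hp0]
  congr 1
  ring

end Local

theorem local_bound (p : ℕ) [Fact p.Prime] (a b : ℤ) (x : ℚ) (hx : ¬ p ∣ x.den) (K : ℕ)
    (P : ℚ[X]) (hK : K < p ^ 2) (hP : P.natDegree + 1 < p ^ 2) (e : ℤ)
    (h : ∀ y : ℤ, ‖((P.eval (y : ℚ) : ℚ) : ℚ_[p])‖ ≤
      (p : ℝ) ^ (-(e + (((range K).filter fun j : ℕ => (p : ℤ) ∣ y + j + 1).card : ℤ)))) :
    ‖((L a b x K P : ℚ) : ℚ_[p])‖ ≤ (p : ℝ) ^ (2 - e) := by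
  have hp1 := one_le_p p
  have hp0 : (p : ℝ) ≠ 0 := by have := one_lt_p p; positivity
  have hres := norm_res_le p K P hK e h
  unfold L
  rw [Rat.cast_add]
  apply norm_add_le_of
  · by_cases hd : P.natDegree < K
    · have : P /ₘ D K = 0 := by
        rw [divByMonic_eq_zero_iff (D_monic K)]
        exact degree_lt_degree (by rwa [D_natDegree])
      rw [this, map_zero, Rat.cast_zero, norm_zero]
      positivity
    have hdeg : (P /ₘ D K).natDegree ≤ P.natDegree - K := by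
      rw [natDegree_divByMonic _ (D_monic K), D_natDegree]
    have hP' : ((P.natDegree : ℤ) + 1) < (p : ℤ) ^ 2 := by exact_mod_cast hP
    have h1 := norm_Lpoly_le p a b (P /ₘ D K) (P.natDegree - K) hdeg ((p : ℝ) ^ (-e)) (by
      intro m hm
      have hz : ∀ j ∈ range K, (m : ℤ) + j + 1 ≠ 0 ∧ |(m : ℤ) + j + 1| < (p : ℤ) ^ 2 := by
        intro j hj
        have := Finset.mem_range.1 hj
        refine ⟨by omega, ?_⟩
        rw [abs_lt]
        constructor <;> omega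
      rw [eval_divByMonic, Rat.cast_sub]
      apply norm_sub_le_of
      · have h2 := h (m : ℤ)
        have h3 := norm_inv_prod_small p (range K) (fun j => (m : ℤ) + j + 1) hz
        push_cast at h2 h3 ⊢
        rw [div_eq_mul_inv, norm_mul]
        refine (mul_le_mul h2 h3 (norm_nonneg _) (by positivity)).trans (le_of_eq ?_)
        rw [← zpow_natCast, ← zpow_add₀ hp0]
        congr 1
        ring
      · rw [Rat.cast_sum]
        apply norm_sum_le_of (by positivity)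
        intro j hj
        have h2 := hres j (Finset.mem_range.1 hj)
        have h3 := norm_inv_small' p _ (hz j hj).1 (hz j hj).2
        push_cast at h3 ⊢
        rw [div_eq_mul_inv, norm_mul]
        refine (mul_le_mul h2 h3 (norm_nonneg _) (by positivity)).trans (le_of_eq ?_)
        rw [← zpow_add_one₀ hp0]
        congr 1
        ring)
    refine h1.trans ?_
    have h2 := log_le_one p (P.natDegree - K + 1) (by omega)
    calc _ ≤ (p : ℝ) ^ (-e) * (p : ℝ) ^ 2 :=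
          mul_le_mul_of_nonneg_left (pow_le_pow_right₀ hp1 (by omega)) (by positivity)
      _ = _ := by
          rw [← zpow_natCast, ← zpow_add₀ hp0]
          congr 1
          push_cast
          ring
  · rw [Rat.cast_sum]
    apply norm_sum_le_of (by positivity)
    intro j hj
    have hj' := Finset.mem_range.1 hj
    have h2 := hres j hj'
    have h3 := log_le_one p j (by omega)
    have h4 : ∀ (c : ℤ) (s : ℕ), s ≤ 3 →
        ‖(c : ℚ_[p]) * ((H s j : ℚ) : ℚ_[p])‖ ≤ (p : ℝ) ^ 3 := by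
      intro c s hs
      rw [norm_mul]
      calc _ ≤ 1 * (p : ℝ) ^ (s * Nat.log p j) :=
            mul_le_mul (Padic.norm_int_le_one c) (norm_H_le p s j j le_rfl) (norm_nonneg _)
              zero_le_one
        _ ≤ _ := by
            rw [one_mul]
            exact pow_le_pow_right₀ hp1 (by nlinarith)
    have h5 : ‖(x : ℚ_[p]) - (a : ℚ_[p]) * ((H 2 j : ℚ) : ℚ_[p]) -
        (b : ℚ_[p]) * ((H 3 j : ℚ) : ℚ_[p])‖ ≤ (p : ℝ) ^ 3 :=
      norm_sub_le_of (norm_sub_le_of ((Padic.norm_rat_le_one hx).trans (one_le_pow₀ hp1))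
        (h4 a 2 (by norm_num))) (h4 b 3 le_rfl)
    push_cast
    rw [norm_mul]
    refine (mul_le_mul h2 h5 (norm_nonneg _) (by positivity)).trans (le_of_eq ?_)
    rw [← zpow_natCast, ← zpow_add₀ hp0]
    congr 1
    push_cast
    ring

end Pool.Agent.P.MP_a89d6d_nt.Z23
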