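import Pool.Agent.P.MP_a89d6d_nt.Z23.Local

/-!
The valuation of the Hankel determinant at primes `p` with `15 n ≤ p ^ 2`.
-/

namespace Pool.Agent.P.MP_a89d6d_nt.Z23

open Polynomial Finset Filter

namespace Medium

/-- The ceiling of `(l - e) / 2`, truncated at zero. -/
def nu (e l : ℤ) : ℕ := ((l - e + 1) / 2).toNat

theorem le_nu (e l : ℤ) : l ≤ 2 * (nu e l : ℤ) + e := by
  unfold nu; omega

theorem nu_eq_zero {e l : ℤ} (h : l ≤ e) : nu e l = 0 := by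
  unfold nu; omega

theorem sum_nu_aux (e l0 : ℤ) (M : ℕ) :
    4 * ∑ m ∈ range M, nu e (l0 + m + 1) + (l0 + M + 1 - e).toNat % 2 ≤
      (l0 + M + 1 - e).toNat * (l0 + M + 1 - e).toNat := by
  induction M with
  | zero =>
    generalize (l0 + (0 : ℕ) + 1 - e).toNat = w
    rcases w with _ | w
    · simp
    · have : (w + 1) % 2 ≤ 1 := by omega
      simp only [range_zero, sum_empty]
      nlinarith
  | succ M ih =>
    rw [sum_range_succ]
    by_cases hu : 0 ≤ l0 + M + 1 - e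
    · have h1 : (l0 + (M + 1 : ℕ) + 1 - e).toNat = (l0 + M + 1 - e).toNat + 1 := by
        push_cast; omega
      have h2 : nu e (l0 + M + 1) = ((l0 + M + 1 - e).toNat + 1) / 2 := by
        unfold nu; omega
      rw [h1, h2]
      generalize (l0 + M + 1 - e).toNat = w at *
      have h3 : (w + 1) * (w + 1) = w * w + 2 * w + 1 := by ring
      omega
    · have h1 : (l0 + (M + 1 : ℕ) + 1 - e).toNat = 0 := by push_cast; omega
      have h2 : (l0 + M + 1 - e).toNat = 0 := by omega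
      have h3 : nu e (l0 + M + 1) = 0 := nu_eq_zero (by omega)
      rw [h2] at ih
      rw [h1, h3]
      simpa using ih

theorem sum_nu_le (e l0 : ℤ) (M : ℕ) :
    4 * ∑ m ∈ range M, (nu e (l0 + m + 1) : ℤ) ≤ (l0 + M + 1 - e) ^ 2 := by
  have h := sum_nu_aux e l0 M
  have h1 : (4 * ∑ m ∈ range M, nu e (l0 + m + 1) : ℕ) ≤
      (l0 + M + 1 - e).toNat * (l0 + M + 1 - e).toNat := le_trans (Nat.le_add_right _ _) h
  have h2 : ((4 * ∑ m ∈ range M, nu e (l0 + m + 1) : ℕ) : ℤ) ≤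
      ((l0 + M + 1 - e).toNat : ℤ) * ((l0 + M + 1 - e).toNat : ℤ) := by exact_mod_cast h1
  push_cast at h2
  refine h2.trans ?_
  generalize l0 + M + 1 - e = u
  rcases le_total 0 u with hu | hu
  · rw [Int.toNat_of_nonneg hu, sq]
  · rw [Int.toNat_of_nonpos hu]; simpa using sq_nonneg u

theorem exists_levels (p h : ℕ) (e : ℕ → ℤ) (Λ l0 : ℤ) (h0 : l0 ≤ Λ) (he : ∀ c, l0 ≤ e c) :
    ∃ l : ℕ → ℤ, (∀ t, ∑ c ∈ range p, nu (e c) (l t) ≤ t) ∧
      4 * ∑ t ∈ range h, (Λ - l t) ≤ ∑ c ∈ range p, (Λ + 1 - e c) ^ 2 := by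
  classical
  obtain ⟨M, rfl⟩ : ∃ M : ℕ, Λ = l0 + M := ⟨(Λ - l0).toNat, by omega⟩
  let N : ℕ → ℕ := fun m => ∑ c ∈ range p, nu (e c) (l0 + m)
  let g : ℕ → ℕ := fun t => Nat.findGreatest (fun m => N m ≤ t) M
  refine ⟨fun t => l0 + g t, fun t => ?_, ?_⟩
  · refine Nat.findGreatest_spec (P := fun m => N m ≤ t) (Nat.zero_le M) ?_
    have : N 0 = 0 := sum_eq_zero fun c _ => nu_eq_zero (by simpa using he c)
    omega
  · have h1 : ∀ t, (l0 + M - (l0 + g t) : ℤ) ≤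
        ∑ m ∈ range M, (if t < N (m + 1) then (1 : ℤ) else 0) := by
      intro t
      have hg : g t ≤ M := Nat.findGreatest_le M
      rw [sum_boole]
      have : Ico (g t) M ⊆ (range M).filter fun m => t < N (m + 1) := by
        intro m hm
        rw [mem_Ico] at hm
        rw [mem_filter, mem_range]
        refine ⟨hm.2, not_le.1 ?_⟩
        exact Nat.findGreatest_is_greatest (P := fun m => N m ≤ t) (n := M) (Nat.lt_succ_of_le hm.1) hm.2
      have h2 := card_le_card this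
      rw [Nat.card_Ico] at h2
      omega
    have h2 : ∀ m, ∑ t ∈ range h, (if t < N (m + 1) then (1 : ℤ) else 0) ≤ N (m + 1) := by
      intro m
      rw [sum_boole]
      have : (range h).filter (fun t => t < N (m + 1)) ⊆ range (N (m + 1)) := by
        intro t ht
        exact mem_range.2 (mem_filter.1 ht).2
      have h3 := card_le_card this
      rw [card_range] at h3
      exact_mod_cast h3
    calc 4 * ∑ t ∈ range h, (l0 + M - (l0 + g t) : ℤ)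
        ≤ 4 * ∑ t ∈ range h, ∑ m ∈ range M, (if t < N (m + 1) then (1 : ℤ) else 0) := by
          gcongr with t _; exact h1 t
      _ ≤ 4 * ∑ m ∈ range M, (N (m + 1) : ℤ) := by
          rw [sum_comm]; gcongr with m _; exact h2 m
      _ = ∑ c ∈ range p, 4 * ∑ m ∈ range M, (nu (e c) (l0 + m + 1) : ℤ) := by
          rw [← mul_sum, sum_comm]
          simp only [N, Nat.cast_sum, Nat.cast_add, Nat.cast_one, add_assoc]
      _ ≤ _ := sum_le_sum fun c _ => sum_nu_le _ _ _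

/-- Number of `i < m` congruent to `v` modulo `p`. -/
def cnt (p m : ℕ) (v : ℤ) : ℕ := ((range m).filter fun i : ℕ => (p : ℤ) ∣ i - v).card

theorem cnt_eq {p : ℕ} (hp : 0 < p) (m : ℕ) (v : ℤ) :
    cnt p m v = m / p + if (v % p).toNat % p < m % p then 1 else 0 := by
  rw [← Nat.count_modEq_card m hp, Nat.count_eq_card_filter_range, cnt]
  congr 1
  refine filter_congr fun i _ => ?_
  have h0 : (0 : ℤ) ≤ v % p := Int.emod_nonneg _ (by omega)
  rw [Nat.ModEq.comm, Nat.modEq_iff_dvd, Int.toNat_of_nonneg h0]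
  have : (i : ℤ) - v % p = (i - v) + p * (v / p) := by
    have := Int.emod_add_mul_ediv v p
    linarith
  rw [this, dvd_add_left (dvd_mul_right _ _)]

theorem cnt_congr (p m : ℕ) {v w : ℤ} (h : (p : ℤ) ∣ v - w) : cnt p m v = cnt p m w := by
  unfold cnt
  congr 1
  refine filter_congr fun i _ => ?_
  have : (i : ℤ) - w = (i - v) + (v - w) := by ring
  rw [this, dvd_add_left h]

theorem cnt_self {p : ℕ} (hp : 0 < p) (v : ℤ) : cnt p p v = 1 := by
  rw [cnt_eq hp]; simp [Nat.div_self hp]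

theorem sum_cnt {p : ℕ} (hp : 0 < p) (m : ℕ) : ∑ c ∈ range p, cnt p m c = m := by
  have : ∀ c : ℕ, cnt p m c = ∑ i ∈ range m, if (p : ℤ) ∣ (c : ℤ) - i then 1 else 0 := by
    intro c
    rw [cnt, card_filter]
    exact sum_congr rfl fun i _ => by simp only [dvd_sub_comm]
  simp only [this]
  rw [sum_comm]
  have h2 : ∀ i : ℕ, ∑ c ∈ range p, (if (p : ℤ) ∣ (c : ℤ) - i then 1 else 0) = 1 := by
    intro i
    rw [← card_filter]
    exact cnt_self hp i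
  simp [h2]

theorem sum_cnt' {p : ℕ} (hp : 0 < p) (m : ℕ) :
    ∑ c ∈ range p, cnt p m (-(c : ℤ) - 1) = m := by
  have : ∀ c : ℕ, cnt p m (-(c : ℤ) - 1) =
      ∑ i ∈ range m, if (p : ℤ) ∣ (c : ℤ) - (-(i : ℤ) - 1) then 1 else 0 := by
    intro c
    rw [cnt, card_filter]
    refine sum_congr rfl fun i _ => ?_
    rw [show (i : ℤ) - (-(c : ℤ) - 1) = (c : ℤ) - (-(i : ℤ) - 1) by ring]
  simp only [this]
  rw [sum_comm]
  have h2 : ∀ i : ℕ, ∑ c ∈ range p, (if (p : ℤ) ∣ (c : ℤ) - (-(i : ℤ) - 1) then 1 else 0) = 1 := by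
    intro i
    rw [← card_filter]
    exact cnt_self hp _
  simp [h2]

/-- The order of `W n ^ 3 / D (6 n)` on the residue class of `y`. -/
def ee (p n : ℕ) (y : ℤ) : ℤ := 3 * (cnt p n y : ℤ) - cnt p (6 * n) (-y - 1)

theorem sum_ee {p : ℕ} (hp : 0 < p) (n : ℕ) : ∑ c ∈ range p, ee p n c = -3 * n := by
  unfold ee
  rw [sum_sub_distrib, ← mul_sum, ← Nat.cast_sum, ← Nat.cast_sum, sum_cnt hp, sum_cnt' hp]
  push_cast; ring

theorem ee_bounds {p : ℕ} (hp : 0 < p) (n : ℕ) (y : ℤ) :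
    3 * ((n / p : ℕ) : ℤ) - ((6 * n / p : ℕ) : ℤ) - 1 ≤ ee p n y ∧
      ee p n y ≤ 3 * ((n / p : ℕ) : ℤ) - ((6 * n / p : ℕ) : ℤ) + 3 := by
  unfold ee
  rw [cnt_eq hp, cnt_eq hp]
  generalize n / p = u
  generalize 6 * n / p = w
  split_ifs <;> push_cast <;> omega

theorem ee_congr (p n : ℕ) {v w : ℤ} (h : (p : ℤ) ∣ v - w) : ee p n v = ee p n w := by
  unfold ee
  rw [cnt_congr p n h, cnt_congr p (6 * n) (v := -v - 1) (w := -w - 1)]
  rw [show -v - 1 - (-w - 1) = -(v - w) by ring]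
  exact h.neg_right

theorem variance {p : ℕ} (hp : 0 < p) (n : ℕ) (L : ℝ) :
    ∑ c ∈ range p, (L - ee p n c) ^ 2 ≤ p * (L + 3 * n / p) ^ 2 + 4 * p := by
  obtain ⟨m, hm⟩ : ∃ m : ℤ, ∀ c : ℕ, ((m : ℝ) - ee p n c) ^ 2 ≤ 4 := by
    refine ⟨3 * ((n / p : ℕ) : ℤ) - ((6 * n / p : ℕ) : ℤ) + 1, fun c => ?_⟩
    obtain ⟨h1, h2⟩ := ee_bounds hp n c
    generalize ((n / p : ℕ) : ℤ) = u at *
    generalize ((6 * n / p : ℕ) : ℤ) = w at *
    have : (3 * u - w + 1 - ee p n c) ^ 2 ≤ 4 := by nlinarith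
    exact_mod_cast this
  have hS : ∑ c ∈ range p, (ee p n c : ℝ) = -3 * n := by exact_mod_cast sum_ee hp n
  have h1 : ∑ c ∈ range p, ((m : ℝ) - ee p n c) ^ 2 ≤ 4 * p := by
    have := sum_le_sum (s := range p) fun c _ => hm c
    simpa [mul_comm] using this
  have h2 : ∑ c ∈ range p, (L - ee p n c) ^ 2 =
      ∑ c ∈ range p, ((m : ℝ) - ee p n c) ^ 2 + p * (L ^ 2 - m ^ 2) + 2 * (L - m) * (3 * n) := by
    have : ∀ c : ℕ, (L - ee p n c) ^ 2 =
        ((m : ℝ) - ee p n c) ^ 2 + (L ^ 2 - m ^ 2) - 2 * (L - m) * ee p n c := fun c => by ring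
    simp only [this, sum_sub_distrib, sum_add_distrib, ← mul_sum, hS, sum_const, card_range,
      nsmul_eq_mul]
    ring
  have hp' : (0 : ℝ) < p := by exact_mod_cast hp
  obtain ⟨μ, hμ⟩ : ∃ μ : ℝ, (3 * n : ℝ) = p * μ := ⟨3 * n / p, by field_simp⟩
  rw [h2, hμ, mul_div_cancel_left₀ _ hp'.ne']
  nlinarith [mul_nonneg hp'.le (sq_nonneg ((m : ℝ) + μ))]

theorem pow_cnt_dvd (p n : ℕ) (y : ℤ) : (p : ℤ) ^ cnt p n y ∣ ∏ i ∈ range n, (y - i) := by
  rw [cnt, ← prod_const]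
  refine (prod_dvd_prod_of_dvd _ (fun i : ℕ => y - i) fun i hi => ?_).trans
    (prod_dvd_prod_of_subset _ _ _ (filter_subset _ _))
  exact dvd_sub_comm.1 (mem_filter.1 hi).2

/-- The monic polynomial of degree `t` adapted to the level `l`. -/
noncomputable def phi (p n : ℕ) (l : ℤ) (t : ℕ) : ℚ[X] :=
  (∏ c ∈ range p, (X - C (c : ℚ)) ^ nu (ee p n c) l) * X ^ (t - ∑ c ∈ range p, nu (ee p n c) l)

theorem phi_monic (p n : ℕ) (l : ℤ) (t : ℕ) : (phi p n l t).Monic :=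
  (monic_prod_of_monic _ _ fun _ _ => (monic_X_sub_C _).pow _).mul (monic_X_pow _)

theorem phi_natDegree (p n : ℕ) (l : ℤ) (t : ℕ) (h : ∑ c ∈ range p, nu (ee p n c) l ≤ t) :
    (phi p n l t).natDegree = t := by
  rw [phi, Monic.natDegree_mul (monic_prod_of_monic _ _ fun _ _ => (monic_X_sub_C _).pow _)
    (monic_X_pow _), natDegree_prod_of_monic _ _ fun _ _ => (monic_X_sub_C _).pow _,
    natDegree_X_pow]
  simp only [natDegree_pow, natDegree_X_sub_C, mul_one]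
  omega

theorem phi_eval {p : ℕ} (hp : 0 < p) (n : ℕ) (l : ℤ) (t : ℕ) (y : ℤ) :
    ∃ z : ℤ, (phi p n l t).eval (y : ℚ) = z ∧ (p : ℤ) ^ nu (ee p n y) l ∣ z := by
  refine ⟨(∏ c ∈ range p, (y - c) ^ nu (ee p n c) l) * y ^ (t - ∑ c ∈ range p, nu (ee p n c) l),
    by simp [phi, eval_prod], Dvd.dvd.mul_right ?_ _⟩
  have h0 : (0 : ℤ) ≤ y % p := Int.emod_nonneg _ (by omega)
  have h1 : y % p < p := Int.emod_lt_of_pos _ (by omega)
  have h2 : (p : ℤ) ∣ y - ((y % p).toNat : ℕ) := by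
    rw [Int.toNat_of_nonneg h0]
    exact Int.dvd_self_sub_emod
  rw [ee_congr p n h2]
  exact (pow_dvd_pow_of_dvd h2 _).trans
    (dvd_prod_of_mem (fun c : ℕ => (y - c) ^ nu (ee p n c) l) (mem_range.2 (by omega)))

theorem entry_bound (p : ℕ) [hp : Fact p.Prime] (a b : ℤ) (x : ℚ) (n : ℕ)
    (h15 : 15 * n ≤ p ^ 2) (hx : ¬ p ∣ x.den) (l l' : ℤ) (t u : ℕ) (ht : t < 6 * n)
    (hu : u < 6 * n) (hl : ∑ c ∈ range p, nu (ee p n c) l ≤ t)
    (hl' : ∑ c ∈ range p, nu (ee p n c) l' ≤ u) :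
    ‖((L a b x (6 * n) (W n ^ 3 * phi p n l t * phi p n l' u) : ℚ) : ℚ_[p])‖ ≤
      (p : ℝ) ^ (1 - (l : ℝ) / 2) * (p : ℝ) ^ (1 - (l' : ℝ) / 2) := by
  have hp0 := hp.out.pos
  have hp1 : (1 : ℝ) ≤ p := by exact_mod_cast hp0
  refine (local_bound p a b x hx (6 * n) _ (by omega) ?_ ((l + l' + 1) / 2) fun y => ?_).trans ?_
  · rw [Monic.natDegree_mul (((W_monic n).pow 3).mul (phi_monic _ _ _ _)) (phi_monic _ _ _ _),
      Monic.natDegree_mul ((W_monic n).pow 3) (phi_monic _ _ _ _), natDegree_pow, W_natDegree,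
      phi_natDegree _ _ _ _ hl, phi_natDegree _ _ _ _ hl']
    omega
  · obtain ⟨z, hz, hdz⟩ := phi_eval hp0 n l t y
    obtain ⟨w, hw, hdw⟩ := phi_eval hp0 n l' u y
    have e1 : (W n ^ 3 * phi p n l t * phi p n l' u).eval (y : ℚ) =
        (((∏ i ∈ range n, (y - i)) ^ 3 * z * w : ℤ) : ℚ) := by
      simp [hz, hw, W, eval_prod]
    have e2 : (p : ℤ) ^ (cnt p n y * 3 + nu (ee p n y) l + nu (ee p n y) l') ∣
        (∏ i ∈ range n, (y - i)) ^ 3 * z * w := by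
      rw [pow_add, pow_add, pow_mul]
      exact mul_dvd_mul (mul_dvd_mul (pow_dvd_pow_of_dvd (pow_cnt_dvd p n y) 3) hdz) hdw
    rw [e1, Rat.cast_intCast]
    refine ((Padic.norm_int_le_pow_iff_dvd _ _).2 e2).trans (zpow_le_zpow_right₀ hp1 ?_)
    have e3 : ((range (6 * n)).filter fun j : ℕ => (p : ℤ) ∣ y + j + 1).card =
        cnt p (6 * n) (-y - 1) := by
      unfold cnt
      congr 1
      refine filter_congr fun j _ => ?_
      rw [show (j : ℤ) - (-y - 1) = y + j + 1 by ring]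
    rw [e3]
    have h1 := le_nu (ee p n y) l
    have h2 := le_nu (ee p n y) l'
    have h3 : ee p n y = 3 * (cnt p n y : ℤ) - cnt p (6 * n) (-y - 1) := rfl
    push_cast
    omega
  · rw [← Real.rpow_add (by positivity), ← Real.rpow_intCast]
    refine Real.rpow_le_rpow_of_exponent_le hp1 ?_
    have : l + l' ≤ 2 * ((l + l' + 1) / 2) := by omega
    have h2 : (l : ℝ) + l' ≤ 2 * (((l + l' + 1) / 2 : ℤ) : ℝ) := by exact_mod_cast this
    push_cast [Int.cast_sub]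
    linarith

end Medium

open Medium in
theorem val_medium (a b : ℤ) (x : ℚ) (n p : ℕ) (hp : p.Prime) (hn : 1 ≤ n)
    (h15 : 15 * n ≤ p ^ 2) (hx : ¬ p ∣ x.den) (h0 : Delta a b x n ≠ 0) :
    18 * (n : ℝ) ^ 2 / p - 18 * n - 17 * p / 16 ≤ (padicValRat p (Delta a b x n) : ℝ) := by
  have : Fact p.Prime := ⟨hp⟩
  have hp0 := hp.pos
  have hp' : (0 : ℝ) < p := by exact_mod_cast hp0
  set Λ : ℤ := round (9 * (n : ℝ) / p - 1) with hΛ
  obtain ⟨l, hl, hs⟩ := exists_levels p (6 * n) (fun c => ee p n c) Λ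
    (min Λ (3 * ((n / p : ℕ) : ℤ) - ((6 * n / p : ℕ) : ℤ) - 1)) (min_le_left _ _)
    fun c => (min_le_right _ _).trans (ee_bounds hp0 n c).1
  have hdet := det_gram_monic a b x n (fun t : Fin (6 * n) => phi p n (l t) t)
    (fun t => phi_monic _ _ _ _) fun t => phi_natDegree _ _ _ _ (hl t)
  have hn' := det_norm_le p (gram a b x n fun t : Fin (6 * n) => phi p n (l t) t)
    (fun t => (p : ℝ) ^ (1 - (l t : ℝ) / 2)) (fun t => (p : ℝ) ^ (1 - (l t : ℝ) / 2))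
    (fun t => by positivity) (fun t => by positivity)
    fun t u => entry_bound p a b x n h15 hx _ _ t u t.2 u.2 (hl t) (hl u)
  rw [hdet, ← Real.rpow_sum_of_pos hp', ← Real.rpow_add hp'] at hn'
  have hv := le_val_of_norm_le p _ h0
    (-(∑ t : Fin (6 * n), (1 - (l t : ℝ) / 2) + ∑ t : Fin (6 * n), (1 - (l t : ℝ) / 2)))
    (by rwa [neg_neg])
  refine le_trans ?_ hv
  rw [Fin.sum_univ_eq_sum_range (fun t => 1 - (l t : ℝ) / 2)]
  have hs' : 4 * ∑ t ∈ range (6 * n), ((Λ : ℝ) - l t) ≤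
      ∑ c ∈ range p, ((Λ : ℝ) + 1 - ee p n c) ^ 2 := by exact_mod_cast hs
  have hvar := variance hp0 n ((Λ : ℝ) + 1)
  have e1 : ∑ t ∈ range (6 * n), (1 - (l t : ℝ) / 2) =
      (∑ t ∈ range (6 * n), ((Λ : ℝ) - l t)) / 2 + 6 * n * (1 - Λ / 2) := by
    have : ∀ t, 1 - (l t : ℝ) / 2 = ((Λ : ℝ) - l t) / 2 + (1 - Λ / 2) := fun t => by ring
    simp only [this, sum_add_distrib, ← sum_div, sum_const, card_range, nsmul_eq_mul]
    push_cast; ring
  rw [e1]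
  have hd := abs_sub_round (9 * (n : ℝ) / p - 1)
  rw [← hΛ] at hd
  obtain ⟨μ, hμ⟩ : ∃ μ : ℝ, (n : ℝ) = p * μ := ⟨n / p, by field_simp⟩
  have e2 : 9 * (n : ℝ) / p = 9 * μ := by rw [hμ]; field_simp
  have e3 : 3 * (n : ℝ) / p = 3 * μ := by rw [hμ]; field_simp
  have e4 : 18 * (n : ℝ) ^ 2 / p = 18 * p * μ ^ 2 := by rw [hμ]; field_simp
  rw [e2] at hd
  rw [e3] at hvar
  rw [e4]
  obtain ⟨d, hd'⟩ : ∃ d : ℝ, (Λ : ℝ) = 9 * μ - 1 + d := ⟨Λ - (9 * μ - 1), by ring⟩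
  have hd2 : d ^ 2 ≤ 1 / 4 := by
    rw [hd', show 9 * μ - 1 - (9 * μ - 1 + d) = -d by ring, abs_neg, abs_le] at hd
    nlinarith [hd.1, hd.2]
  generalize ∑ t ∈ range (6 * n), ((Λ : ℝ) - l t) = S at *
  rw [hd'] at hvar hs' ⊢
  rw [hμ]
  nlinarith [mul_le_mul_of_nonneg_left hd2 hp'.le]

end Pool.Agent.P.MP_a89d6d_nt.Z23
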