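import Pool.Agent.P.MP_a89d6d_nt.Z23.Local

namespace Pool.Agent.P.MP_a89d6d_nt.Z23

open Polynomial Finset Filter

namespace SmallP

/-- Norm of a nonzero natural number. -/
theorem norm_nat (p : ℕ) [Fact p.Prime] (m : ℕ) (hm : m ≠ 0) :
    ‖(m : ℚ_[p])‖ = (p : ℝ) ^ (-(padicValNat p m : ℝ)) := by
  have h : (m : ℚ_[p]) ≠ 0 := by exact_mod_cast hm
  rw [Padic.norm_eq_zpow_neg_valuation h, Padic.valuation_natCast, ← Real.rpow_intCast,
    Int.cast_neg, Int.cast_natCast]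

theorem norm_inv_nat_le (p : ℕ) [hp : Fact p.Prime] (m N : ℕ) (hm : m ≠ 0) (h : m ≤ N) :
    ‖(m : ℚ_[p])⁻¹‖ ≤ (p : ℝ) ^ (Nat.log p N) := by
  have hp1 : (1 : ℝ) ≤ p := by exact_mod_cast hp.out.one_lt.le
  rw [norm_inv, norm_nat p m hm, Real.rpow_neg (by positivity), inv_inv, Real.rpow_natCast]
  refine pow_le_pow_right₀ hp1 ?_
  exact (padicValNat_le_nat_log m).trans (Nat.log_mono_right h)

theorem W_eval_int (m : ℕ) (y : ℤ) :
    (W m).eval (y : ℚ) = (m.factorial : ℚ) * ((Ring.choose y m : ℤ) : ℚ) := by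
  have h1 := Ring.descPochhammer_eq_factorial_smul_choose y m
  rw [← Polynomial.eval_eq_smeval, descPochhammer_eval_eq_prod_range, nsmul_eq_mul] at h1
  have h2 : (W m).eval (y : ℚ) = ((∏ j ∈ range m, (y - (j : ℤ)) : ℤ) : ℚ) := by
    simp [W, Polynomial.eval_prod]
  rw [h2, h1]
  push_cast
  rfl

theorem norm_W_le (p : ℕ) [Fact p.Prime] (m : ℕ) (y : ℤ) :
    ‖(((W m).eval (y : ℚ) : ℚ) : ℚ_[p])‖ ≤ ‖(m.factorial : ℚ_[p])‖ := by
  rw [W_eval_int]
  push_cast
  rw [norm_mul]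
  exact mul_le_of_le_one_right (norm_nonneg _) (Padic.norm_int_le_one _)

theorem prod_erase (K j : ℕ) (hj : j < K) :
    ∏ k ∈ (range K).erase j, ((k : ℚ) - (j : ℚ)) =
      (-1) ^ j * (j.factorial : ℚ) * ((K - 1 - j).factorial : ℚ) := by
  induction K with
  | zero => omega
  | succ K ih =>
    rcases Nat.lt_succ_iff_lt_or_eq.mp hj with h | h
    · have e : (range (K + 1)).erase j = insert K ((range K).erase j) := by
        ext t
        simp only [mem_erase, mem_range, mem_insert]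
        omega
      rw [e, prod_insert (by simp), ih h]
      have e2 : K + 1 - 1 - j = (K - 1 - j) + 1 := by omega
      rw [e2, Nat.factorial_succ]
      have e3 : ((K - 1 - j + 1 : ℕ) : ℚ) = (K : ℚ) - j := by
        have : K - 1 - j + 1 + j = K := by omega
        have h' : ((K - 1 - j + 1 + j : ℕ) : ℚ) = K := by rw [this]
        push_cast at h' ⊢
        linarith
      push_cast at e3 ⊢
      rw [e3]
      ring
    · subst h
      have e : (range (j + 1)).erase j = range j := by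
        ext t
        simp only [mem_erase, mem_range]
        omega
      rw [e]
      have e2 : j + 1 - 1 - j = 0 := by omega
      rw [e2]
      have h3 : ∀ k ∈ range j, ((k : ℚ) - j) = (-1) * ((j - 1 - k + 1 : ℕ) : ℚ) := by
        intro k hk
        have hk' := mem_range.mp hk
        have : j - 1 - k + 1 + k = j := by omega
        have h' : ((j - 1 - k + 1 + k : ℕ) : ℚ) = j := by rw [this]
        push_cast at h' ⊢
        linarith
      rw [prod_congr rfl h3, prod_mul_distrib, prod_const, card_range,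
        prod_range_reflect (fun k => ((k + 1 : ℕ) : ℚ)) j, ← Nat.cast_prod,
        Finset.prod_range_add_one_eq_factorial]
      simp

theorem norm_inv_prod_le (p : ℕ) [Fact p.Prime] (K j : ℕ) (hj : j < K) :
    ‖(((∏ k ∈ (range K).erase j, ((k : ℚ) - (j : ℚ)))⁻¹ : ℚ) : ℚ_[p])‖ ≤
      ‖(K.factorial : ℚ_[p])‖⁻¹ := by
  have hK : (K.factorial : ℚ) ≠ 0 := by exact_mod_cast K.factorial_ne_zero
  have hj' : (j.factorial : ℚ) ≠ 0 := by exact_mod_cast j.factorial_ne_zero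
  have hk' : ((K - 1 - j).factorial : ℚ) ≠ 0 := by exact_mod_cast (K - 1 - j).factorial_ne_zero
  have h1 := Nat.choose_mul_factorial_mul_factorial (show j + 1 ≤ K from hj)
  have e : K - (j + 1) = K - 1 - j := by omega
  rw [e, Nat.factorial_succ] at h1
  have h2 : (K.factorial : ℚ) =
      (K.choose (j + 1) : ℚ) * (((j : ℚ) + 1) * j.factorial) * ((K - 1 - j).factorial : ℚ) := by
    exact_mod_cast h1.symm
  have h3 : (∏ k ∈ (range K).erase j, ((k : ℚ) - (j : ℚ)))⁻¹ =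
      (((-1) ^ j * (K.choose (j + 1) : ℤ) * ((j : ℤ) + 1) : ℤ) : ℚ) * (K.factorial : ℚ)⁻¹ := by
    rw [prod_erase K j hj]
    have hs : ((-1 : ℚ) ^ j) * ((-1 : ℚ) ^ j) = 1 := by
      rw [← mul_pow]; simp
    have hs' : ((-1 : ℚ) ^ j) ≠ 0 := by positivity
    push_cast
    field_simp
    rw [h2]
    linear_combination
      (-((K.choose (j + 1) : ℚ) * ((j : ℚ) + 1) * j.factorial * ((K - 1 - j).factorial : ℚ))) * hs
  rw [h3, Rat.cast_mul, norm_mul, Rat.cast_inv, norm_inv, Rat.cast_natCast, Rat.cast_intCast]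
  exact mul_le_of_le_one_left (by positivity) (Padic.norm_int_le_one _)

theorem norm_res_le (p : ℕ) [Fact p.Prime] (K j : ℕ) (hj : j < K) (P : ℚ[X]) (F : ℝ)
    (hF : ∀ y : ℤ, ‖((P.eval (y : ℚ) : ℚ) : ℚ_[p])‖ ≤ F) :
    ‖((res K P j : ℚ) : ℚ_[p])‖ ≤ F * ‖(K.factorial : ℚ_[p])‖⁻¹ := by
  have h := hF (-((j : ℤ) + 1))
  have hF0 : 0 ≤ F := (norm_nonneg _).trans h
  rw [res, div_eq_mul_inv, Rat.cast_mul, norm_mul]
  refine mul_le_mul ?_ (norm_inv_prod_le p K j hj) (norm_nonneg _) hF0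
  have e : ((-((j : ℤ) + 1) : ℤ) : ℚ) = -((j : ℚ) + 1) := by push_cast; rfl
  rwa [e] at h

theorem inv_D_eq (K m : ℕ) (hK : 1 ≤ K) :
    (∏ j ∈ range K, ((m : ℚ) + j + 1))⁻¹ = ∑ j ∈ range K, res K 1 j / ((m : ℚ) + j + 1) := by
  have h := eval_divByMonic K 1 m
  have h0 : (1 : ℚ[X]) /ₘ D K = 0 := by
    rw [divByMonic_eq_zero_iff (D_monic K), degree_one,
      degree_eq_natDegree (D_monic K).ne_zero, D_natDegree]
    exact_mod_cast hK
  rw [h0, eval_zero, eval_one, one_div] at h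
  linarith

theorem norm_sum_div_le (p : ℕ) [Fact p.Prime] (K m N : ℕ) (hN : m + K ≤ N) (c : ℕ → ℚ) (E : ℝ)
    (hE : 0 ≤ E) (hc : ∀ j < K, ‖((c j : ℚ) : ℚ_[p])‖ ≤ E) :
    ‖((∑ j ∈ range K, c j / ((m : ℚ) + j + 1) : ℚ) : ℚ_[p])‖ ≤ E * (p : ℝ) ^ (Nat.log p N) := by
  rw [Rat.cast_sum]
  refine IsUltrametricDist.norm_sum_le_of_forall_le_of_nonneg (by positivity) fun j hj => ?_
  have hj' := mem_range.mp hj
  have e : ((c j / ((m : ℚ) + j + 1) : ℚ) : ℚ_[p]) =
      ((c j : ℚ) : ℚ_[p]) * (((m + j + 1 : ℕ) : ℚ_[p]))⁻¹ := by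
    push_cast
    rw [div_eq_mul_inv]
  rw [e, norm_mul]
  exact mul_le_mul (hc j hj') (norm_inv_nat_le p _ N (by omega) (by omega)) (norm_nonneg _) hE

theorem norm_Q_le (p : ℕ) [Fact p.Prime] (K m N : ℕ) (hK : 1 ≤ K) (hN : m + K ≤ N) (P : ℚ[X])
    (F : ℝ) (hF : ∀ y : ℤ, ‖((P.eval (y : ℚ) : ℚ) : ℚ_[p])‖ ≤ F) :
    ‖(((P /ₘ D K).eval (m : ℚ) : ℚ) : ℚ_[p])‖ ≤
      F * ‖(K.factorial : ℚ_[p])‖⁻¹ * (p : ℝ) ^ (Nat.log p N) := by
  have hF0 : 0 ≤ F := (norm_nonneg _).trans (hF 0)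
  rw [eval_divByMonic, div_eq_mul_inv, inv_D_eq K m hK, Rat.cast_sub, sub_eq_add_neg]
  refine (IsUltrametricDist.norm_add_le_max _ _).trans (max_le ?_ ?_)
  · rw [Rat.cast_mul, norm_mul, mul_assoc]
    have h1 := hF (m : ℤ)
    rw [Int.cast_natCast] at h1
    refine mul_le_mul h1 ?_ (norm_nonneg _) hF0
    refine norm_sum_div_le p K m N hN _ _ (by positivity) fun j hj => ?_
    have := norm_res_le p K j hj 1 1 (fun y => by simp)
    rwa [one_mul] at this
  · rw [norm_neg]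
    exact norm_sum_div_le p K m N hN _ _ (by positivity) fun j hj => norm_res_le p K j hj P F hF

theorem norm_rat_le (p : ℕ) [Fact p.Prime] (x : ℚ) :
    ‖(x : ℚ_[p])‖ ≤ (p : ℝ) ^ (padicValNat p x.den) := by
  have e : (x : ℚ_[p]) = (x.num : ℚ_[p]) * ((x.den : ℚ_[p]))⁻¹ := by
    rw [← div_eq_mul_inv, ← Rat.cast_def]
  rw [e, norm_mul, norm_inv, norm_nat p _ x.den_ne_zero, Real.rpow_neg (by positivity), inv_inv,
    Real.rpow_natCast]
  exact mul_le_of_le_one_left (by positivity) (Padic.norm_int_le_one _)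

theorem norm_L_le (p : ℕ) [hp : Fact p.Prime] (a b : ℤ) (x : ℚ) (K M N : ℕ) (hK : 1 ≤ K)
    (hN : M + K ≤ N) (P : ℚ[X]) (hP : P.natDegree ≤ M + K) (F : ℝ)
    (hF : ∀ y : ℤ, ‖((P.eval (y : ℚ) : ℚ) : ℚ_[p])‖ ≤ F) :
    ‖((L a b x K P : ℚ) : ℚ_[p])‖ ≤
      F * ‖(K.factorial : ℚ_[p])‖⁻¹ * (p : ℝ) ^ (3 * Nat.log p N + padicValNat p x.den) := by
  have hF0 : 0 ≤ F := (norm_nonneg _).trans (hF 0)
  have hp1 : (1 : ℝ) ≤ p := by exact_mod_cast hp.out.one_lt.le
  have hG : 0 ≤ F * ‖(K.factorial : ℚ_[p])‖⁻¹ := by positivity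
  rw [L, Rat.cast_add]
  refine (IsUltrametricDist.norm_add_le_max _ _).trans (max_le ?_ ?_)
  · have hdeg : (P /ₘ D K).natDegree ≤ M := by
      rw [natDegree_divByMonic P (D_monic K), D_natDegree]
      omega
    refine (norm_Lpoly_le p a b _ M hdeg _
      (fun m hm => norm_Q_le p K m N hK (by omega) P F hF)).trans ?_
    rw [mul_assoc, ← pow_add]
    refine mul_le_mul_of_nonneg_left (pow_le_pow_right₀ hp1 ?_) hG
    have : Nat.log p (M + 1) ≤ Nat.log p N := Nat.log_mono_right (by omega)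
    omega
  · rw [Rat.cast_sum]
    refine IsUltrametricDist.norm_sum_le_of_forall_le_of_nonneg (by positivity) fun j hj => ?_
    have hj' := mem_range.mp hj
    rw [Rat.cast_mul, norm_mul]
    refine mul_le_mul (norm_res_le p K j hj' P F hF) ?_ (norm_nonneg _) hG
    rw [Rat.cast_sub, Rat.cast_sub, sub_eq_add_neg, sub_eq_add_neg]
    have hH : ∀ (c : ℤ) (s : ℕ), s ≤ 3 → ‖-(((c : ℚ) * H s j : ℚ) : ℚ_[p])‖ ≤
        (p : ℝ) ^ (3 * Nat.log p N + padicValNat p x.den) := by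
      intro c s hs
      rw [norm_neg, Rat.cast_mul, norm_mul, Rat.cast_intCast]
      refine (mul_le_of_le_one_left (norm_nonneg _) (Padic.norm_int_le_one _)).trans ?_
      refine (norm_H_le p s j N (by omega)).trans (pow_le_pow_right₀ hp1 ?_)
      have := Nat.mul_le_mul_right (Nat.log p N) hs
      omega
    refine (IsUltrametricDist.norm_add_le_max _ _).trans (max_le ?_ (hH b 3 le_rfl))
    refine (IsUltrametricDist.norm_add_le_max _ _).trans (max_le ?_ (hH a 2 (by norm_num)))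
    exact (norm_rat_le p x).trans (pow_le_pow_right₀ hp1 (by omega))

theorem div_ge (i q : ℕ) (hq : 0 < q) : ((i : ℝ) + 1) / q - 1 ≤ ((i / q : ℕ) : ℝ) := by
  have hq' : (0 : ℝ) < q := by exact_mod_cast hq
  rw [sub_le_iff_le_add, div_le_iff₀ hq']
  have h1 : i + 1 ≤ (i / q + 1) * q := by
    have := Nat.lt_div_mul_add (a := i) hq
    nlinarith
  exact_mod_cast h1

theorem sum_succ (K : ℕ) : ∑ i ∈ range K, ((i : ℝ) + 1) = K * (K + 1) / 2 := by
  induction K with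
  | zero => simp
  | succ K ih => rw [sum_range_succ, ih]; push_cast; ring

theorem level_bound (n q : ℕ) (hq : 0 < q) :
    18 * (n : ℝ) ^ 2 * (1 / q) - 30 * n ≤
      18 * n * ((n / q : ℕ) : ℝ) - 6 * n * ((6 * n / q : ℕ) : ℝ)
        + 2 * ∑ i ∈ range (6 * n), ((i / q : ℕ) : ℝ) := by
  have hq' : (0 : ℝ) < q := by exact_mod_cast hq
  have hn : (0 : ℝ) ≤ n := by positivity
  have h1 := div_ge n q hq
  have h2 : ((6 * n / q : ℕ) : ℝ) ≤ 6 * n / q := by
    have := @Nat.cast_div_le ℝ _ _ _ (6 * n) q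
    push_cast at this
    exact this
  have h3 : ∑ i ∈ range (6 * n), (((i : ℝ) + 1) / q - 1) ≤
      ∑ i ∈ range (6 * n), ((i / q : ℕ) : ℝ) := sum_le_sum fun i _ => div_ge i q hq
  rw [sum_sub_distrib, ← sum_div, sum_succ, sum_const, card_range, nsmul_eq_mul] at h3
  push_cast at h3
  have h4 : 0 ≤ (n : ℝ) * (1 / q) := by positivity
  have h5 := mul_le_mul_of_nonneg_left h1 hn
  have h6 := mul_le_mul_of_nonneg_left h2 hn
  simp only [div_eq_mul_inv] at *
  nlinarith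

theorem val_fact (p : ℕ) [Fact p.Prime] (m K : ℕ) (h : m ≤ K) :
    (padicValNat p m.factorial : ℝ) = ∑ k ∈ Icc 1 (Nat.log p K), ((m / p ^ k : ℕ) : ℝ) := by
  rw [padicValNat_factorial (b := Nat.log p K + 1) (Nat.lt_succ_of_le (Nat.log_mono_right h)),
    Nat.cast_sum]
  rfl

theorem legendre_bound (p : ℕ) [hp : Fact p.Prime] (n : ℕ) (hn : 1 ≤ n) :
    18 * (n : ℝ) ^ 2 * ∑ k ∈ Icc 1 (Nat.log p (6 * n)), 1 / (p : ℝ) ^ k
      - 30 * n * (Nat.log p (15 * n) : ℝ) ≤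
      18 * n * (padicValNat p n.factorial : ℝ) - 6 * n * (padicValNat p (6 * n).factorial : ℝ)
        + 2 * ∑ i ∈ range (6 * n), (padicValNat p i.factorial : ℝ) := by
  have e3 : ∑ i ∈ range (6 * n), (padicValNat p i.factorial : ℝ) =
      ∑ k ∈ Icc 1 (Nat.log p (6 * n)), ∑ i ∈ range (6 * n), ((i / p ^ k : ℕ) : ℝ) := by
    rw [sum_comm]
    exact sum_congr rfl fun i hi => val_fact p i (6 * n) (mem_range.mp hi).le
  rw [e3, val_fact p n (6 * n) (by omega), val_fact p (6 * n) (6 * n) le_rfl, mul_sum, mul_sum,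
    mul_sum, mul_sum, ← sum_sub_distrib, ← sum_add_distrib]
  have h1 : ∑ k ∈ Icc 1 (Nat.log p (6 * n)), (18 * (n : ℝ) ^ 2 * (1 / (p : ℝ) ^ k) - 30 * n) ≤
      ∑ k ∈ Icc 1 (Nat.log p (6 * n)), (18 * n * ((n / p ^ k : ℕ) : ℝ)
        - 6 * n * ((6 * n / p ^ k : ℕ) : ℝ)
        + 2 * ∑ i ∈ range (6 * n), ((i / p ^ k : ℕ) : ℝ)) := by
    refine sum_le_sum fun k _ => ?_
    have := level_bound n (p ^ k) (pow_pos hp.out.pos k)
    rwa [Nat.cast_pow] at this
  refine le_trans ?_ h1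
  rw [sum_sub_distrib, sum_const, Nat.card_Icc, nsmul_eq_mul]
  have h2 : ((Nat.log p (6 * n) + 1 - 1 : ℕ) : ℝ) ≤ (Nat.log p (15 * n) : ℝ) := by
    have : Nat.log p (6 * n) ≤ Nat.log p (15 * n) := Nat.log_mono_right (by omega)
    exact_mod_cast this
  have hn' : (0 : ℝ) ≤ n := by positivity
  nlinarith

end SmallP

open SmallP in
theorem val_small (a b : ℤ) (x : ℚ) (n p : ℕ) (hp : p.Prime) (hn : 1 ≤ n)
    (h0 : Delta a b x n ≠ 0) :
    18 * (n : ℝ) ^ 2 * ∑ k ∈ Icc 1 (Nat.log p (6 * n)), 1 / (p : ℝ) ^ k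
      - 48 * n * (Nat.log p (15 * n) : ℝ) - 6 * n * (padicValNat p x.den : ℝ) ≤
      (padicValRat p (Delta a b x n) : ℝ) := by
  have : Fact p.Prime := ⟨hp⟩
  have hp0 : (0 : ℝ) < p := by exact_mod_cast hp.pos
  set v : ℕ → ℝ := fun m => (padicValNat p m.factorial : ℝ) with hv
  set c : ℝ := 3 * v n - v (6 * n) - (3 * (Nat.log p (15 * n) : ℝ) + padicValNat p x.den) with hc
  have hnf : ∀ m : ℕ, ‖(m.factorial : ℚ_[p])‖ = (p : ℝ) ^ (-v m) :=
    fun m => norm_nat p _ m.factorial_ne_zero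
  have hdet := det_gram_monic a b x n (fun i : Fin (6 * n) => W (i : ℕ))
    (fun i => W_monic _) (fun i => W_natDegree _)
  have hb := det_norm_le p (gram a b x n (fun i : Fin (6 * n) => W (i : ℕ)))
    (fun i => (p : ℝ) ^ (-(c + v i))) (fun i => (p : ℝ) ^ (-v i))
    (fun i => by positivity) (fun i => by positivity) (fun i k => by
      have hi := i.2
      have hk := k.2
      have hdeg : (W n ^ 3 * W (i : ℕ) * W (k : ℕ)).natDegree ≤ 9 * n + 6 * n := by
        refine natDegree_mul_le.trans ?_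
        refine (Nat.add_le_add_right natDegree_mul_le _).trans ?_
        have := natDegree_pow_le (p := W n) (n := 3)
        rw [W_natDegree] at this
        rw [W_natDegree, W_natDegree]
        omega
      have h := norm_L_le p a b x (6 * n) (9 * n) (15 * n) (by omega) (by omega) _ hdeg
        (‖(n.factorial : ℚ_[p])‖ ^ 3 * ‖((i : ℕ).factorial : ℚ_[p])‖ *
          ‖((k : ℕ).factorial : ℚ_[p])‖) (fun y => by
            rw [eval_mul, eval_mul, eval_pow, Rat.cast_mul, Rat.cast_mul, Rat.cast_pow, norm_mul,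
              norm_mul, norm_pow]
            have h1 := norm_W_le p n y
            have h2 := norm_W_le p i y
            have h3 := norm_W_le p k y
            gcongr)
      refine le_trans h (le_of_eq ?_)
      rw [hnf, hnf, hnf, hnf, ← Real.rpow_natCast, ← Real.rpow_natCast, ← Real.rpow_mul hp0.le,
        ← Real.rpow_neg hp0.le, ← Real.rpow_add hp0, ← Real.rpow_add hp0, ← Real.rpow_add hp0,
        ← Real.rpow_add hp0, ← Real.rpow_add hp0]
      congr 1
      rw [hc]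
      push_cast
      ring)
  rw [hdet, ← Real.rpow_sum_of_pos hp0, ← Real.rpow_sum_of_pos hp0, ← Real.rpow_add hp0] at hb
  have hsum : ∑ i : Fin (6 * n), -(c + v i) + ∑ i : Fin (6 * n), -v i =
      -(6 * n * c + 2 * ∑ i ∈ range (6 * n), v i) := by
    rw [Fin.sum_univ_eq_sum_range (fun i => -(c + v i)), Fin.sum_univ_eq_sum_range (fun i => -v i),
      sum_neg_distrib, sum_neg_distrib, sum_add_distrib, sum_const, card_range, nsmul_eq_mul]
    push_cast
    ring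
  rw [hsum] at hb
  refine le_trans ?_ (le_val_of_norm_le p _ h0 _ hb)
  have hl := legendre_bound p n hn
  rw [hc]
  simp only [hv]
  nlinarith

end Pool.Agent.P.MP_a89d6d_nt.Z23
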