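import Pool.Agent.P.MP_a89d6d_nt.Z23.Lower1
import Pool.Agent.P.MP_a89d6d_nt.Z23.Medium
import Pool.Agent.P.MP_a89d6d_nt.Z23.Large
import Pool.Agent.P.MP_a89d6d_nt.Z23.Small

/-!
The arithmetic lower bound for the Hankel determinant.
-/

namespace Pool.Agent.P.MP_a89d6d_nt.Z23

open Polynomial Finset Filter

theorem lower (a b : ℤ) (x : ℚ) : ∀ᶠ n : ℕ in atTop, Delta a b x n ≠ 0 →
    18 * (n : ℝ) ^ 2 * Real.log n - 84 * (n : ℝ) ^ 2 ≤ Real.log |(Delta a b x n : ℝ)| := by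
  filter_upwards [Lower.lower_abstract x.den x.den_ne_zero, eventually_ge_atTop 1] with n h hn h0
  exact h _ h0 (fun p hp h15 hx => val_medium a b x n p hp hn h15 hx h0)
    (fun p hp h3 hx => val_large a b x n p hp hn h3 hx h0)
    (fun p hp => val_small a b x n p hp hn h0)

end Pool.Agent.P.MP_a89d6d_nt.Z23
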