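import Pool.Agent.Lib.PNT.PrimeSums
import Pool.Agent.Lib.Mertens.First

/-!
Prime sums for the lower bound of the Hankel determinant: from bounds on all valuations of a
rational number to a bound on its logarithm.
-/

namespace Pool.Agent.P.MP_a89d6d_nt.Z23.Lower

open Finset Filter Topology ArithmeticFunction

/-- The primes up to `N`. -/
def PP (N : ℕ) : Finset ℕ := (Ioc 0 N).filter Nat.Prime

lemma mem_PP {N p : ℕ} : p ∈ PP N ↔ p ≤ N ∧ p.Prime := by
  unfold PP
  rw [mem_filter, mem_Ioc]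
  exact ⟨fun h => ⟨h.1.2, h.2⟩, fun h => ⟨⟨h.2.pos, h.1⟩, h.2⟩⟩

lemma log_nat_eq (m N : ℕ) (hm : m ≠ 0) (h : m ≤ N) :
    Real.log m = ∑ p ∈ PP N, (padicValNat p m : ℝ) * Real.log p := by
  rw [Real.log_nat_eq_sum_factorization, Finsupp.sum]
  rw [← sum_subset (s₁ := m.factorization.support) (s₂ := PP N)]
  · refine sum_congr rfl fun p hp => ?_
    rw [Nat.support_factorization] at hp
    rw [Nat.factorization_def _ (Nat.prime_of_mem_primeFactors hp)]
  · intro p hp
    rw [Nat.support_factorization] at hp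
    exact mem_PP.2 ⟨(Nat.le_of_mem_primeFactors hp).trans h, Nat.prime_of_mem_primeFactors hp⟩
  · intro p hp hp'
    rw [Nat.support_factorization, Nat.mem_primeFactors] at hp'
    have : ¬ p ∣ m := fun hd => hp' ⟨(mem_PP.1 hp).2, hd, hm⟩
    rw [padicValNat.eq_zero_of_not_dvd this]
    simp

lemma log_rat_eq (q : ℚ) (hq : q ≠ 0) (N : ℕ) (h1 : q.num.natAbs ≤ N) (h2 : q.den ≤ N) :
    Real.log |(q : ℝ)| = ∑ p ∈ PP N, (padicValRat p q : ℝ) * Real.log p := by
  have hn : q.num.natAbs ≠ 0 := by simpa using hq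
  have e : |(q : ℝ)| = (q.num.natAbs : ℝ) / (q.den : ℝ) := by
    rw [Rat.cast_def, abs_div, Nat.cast_natAbs, Int.cast_abs, Nat.abs_cast]
  rw [e, Real.log_div (by exact_mod_cast hn) (by exact_mod_cast q.den_ne_zero),
    log_nat_eq _ N hn h1, log_nat_eq _ N q.den_ne_zero h2, ← sum_sub_distrib]
  refine sum_congr rfl fun p _ => ?_
  rw [padicValRat_def, padicValInt, Int.cast_sub, Int.cast_natCast, Int.cast_natCast]
  ring

lemma sum_vonMangoldt_div_eq (n : ℕ) :
    ∑ d ∈ Ioc 0 n, vonMangoldt d / (d : ℝ) =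
      ∑ p ∈ PP n, (∑ k ∈ Icc 1 (Nat.log p n), 1 / (p : ℝ) ^ k) * Real.log p := calc
  _ = ∑ m ∈ (PP n).biUnion fun p ↦ image (p ^ ·) (Icc 1 (p.log n)),
      vonMangoldt m / (m : ℝ) := by
    refine (sum_subset (fun q hq ↦ ?_) fun x hx ↦ ?_).symm
    · simp only [mem_biUnion, mem_PP, mem_Icc, mem_image, mem_Ioc] at hq ⊢
      obtain ⟨p, hp, k, ⟨_, hk⟩, rfl⟩ := hq
      exact ⟨pow_pos hp.2.pos _, Nat.pow_le_of_le_log (by have := hp.2.pos; omega) hk⟩
    · intro hx'
      have : vonMangoldt x = 0 := by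
        rw [vonMangoldt_eq_zero_iff, isPrimePow_nat_iff]
        rintro ⟨p, k, hp, hk, rfl⟩
        apply hx'
        simp only [mem_biUnion, mem_PP, mem_Icc, mem_image, mem_Ioc] at hx ⊢
        have hpn : p ≤ n := (Nat.le_of_dvd hx.1 (dvd_pow_self p hk.ne')).trans hx.2
        exact ⟨p, ⟨hpn, hp⟩, k, ⟨hk, Nat.le_log_of_pow_le hp.one_lt hx.2⟩, rfl⟩
      rw [this, zero_div]
  _ = ∑ p ∈ PP n, ∑ q ∈ image (fun k ↦ p ^ k) (Icc 1 (p.log n)), vonMangoldt q / (q : ℝ) := by
      rw [sum_biUnion]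
      intro p hp p' hp' hne
      rw [Function.onFun, disjoint_left]
      intro x hx hx'
      simp only [mem_image, mem_Icc] at hx hx'
      obtain ⟨k, hk, rfl⟩ := hx
      obtain ⟨k', hk', e⟩ := hx'
      exact hne ((mem_PP.1 hp).2.pow_inj' (mem_PP.1 hp').2 (by omega) (by omega) e.symm).1
  _ = ∑ p ∈ PP n, ∑ k ∈ Icc 1 (p.log n), vonMangoldt (p ^ k) / ((p ^ k : ℕ) : ℝ) := by
      refine sum_congr rfl fun p hp ↦ ?_
      exact sum_image fun a _ b _ hab ↦ Nat.pow_right_injective (mem_PP.1 hp).2.two_le hab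
  _ = _ := by
      refine sum_congr rfl fun p hp ↦ ?_
      rw [sum_mul]
      refine sum_congr rfl fun k hk ↦ ?_
      rw [vonMangoldt_apply_pow (by have := (mem_Icc.1 hk).1; omega),
        vonMangoldt_apply_prime (mem_PP.1 hp).2]
      push_cast
      ring

lemma psi_nat (n : ℕ) : Chebyshev.psi n = ∑ d ∈ Ioc 0 n, vonMangoldt d := by
  rw [Chebyshev.psi, Nat.floor_natCast]

/-- The finite inequality behind Mertens' first theorem with a good constant. -/
lemma log_factorial_le (y M : ℕ) (hy : 0 < y) :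
    Real.log ((M * y).factorial : ℝ) ≤
      (M * y : ℝ) * ∑ d ∈ Ioc 0 y, vonMangoldt d / (d : ℝ) +
        ∑ m ∈ Icc 1 M, (Chebyshev.psi ((M : ℝ) / m * y) - Chebyshev.psi y) := by
  rw [Pool.Agent.Lib.Mertens.log_factorial_eq_sum]
  rcases M.eq_zero_or_pos with rfl | hM
  · simp
  have hyM : y ≤ M * y := Nat.le_mul_of_pos_left _ hM
  rw [← Ioc_union_Ioc_eq_Ioc (Nat.zero_le y) hyM, sum_union (Ioc_disjoint_Ioc_of_le le_rfl)]
  apply add_le_add
  · rw [mul_sum]
    refine sum_le_sum fun d _ => ?_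
    have h2 : ((M * y / d : ℕ) : ℝ) ≤ ((M * y : ℕ) : ℝ) / d := Nat.cast_div_le
    have h4 : 0 ≤ vonMangoldt d := vonMangoldt_nonneg
    calc vonMangoldt d * ((M * y / d : ℕ) : ℝ) ≤ vonMangoldt d * (((M * y : ℕ) : ℝ) / d) := by
          gcongr
      _ = _ := by push_cast; ring
  · have key : ∀ m ∈ Icc 1 M, Chebyshev.psi ((M : ℝ) / m * y) - Chebyshev.psi y =
        ∑ d ∈ Ioc y (M * y), if m ≤ M * y / d then vonMangoldt d else 0 := by
      intro m hm
      obtain ⟨hm1, hm2⟩ := mem_Icc.1 hm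
      have e : ⌊(M : ℝ) / m * y⌋₊ = M * y / m := by
        rw [← Nat.floor_div_eq_div (K := ℝ)]
        congr 1
        push_cast
        ring
      have hle : y ≤ M * y / m := by
        rw [Nat.le_div_iff_mul_le (by omega), mul_comm]
        exact Nat.mul_le_mul_right _ hm2
      rw [psi_nat, Chebyshev.psi, e, ← Ioc_union_Ioc_eq_Ioc (Nat.zero_le y) hle,
        sum_union (Ioc_disjoint_Ioc_of_le le_rfl), add_sub_cancel_left, ← sum_filter]
      refine sum_congr ?_ fun _ _ => rfl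
      ext d
      simp only [mem_Ioc, mem_filter]
      constructor
      · rintro ⟨h1, h2⟩
        rw [Nat.le_div_iff_mul_le (by omega)] at h2
        refine ⟨⟨h1, ?_⟩, ?_⟩
        · nlinarith
        · rw [Nat.le_div_iff_mul_le (by omega)]
          linarith
      · rintro ⟨⟨h1, _⟩, h2⟩
        rw [Nat.le_div_iff_mul_le (by omega)] at h2
        refine ⟨h1, ?_⟩
        rw [Nat.le_div_iff_mul_le (by omega)]
        linarith
    rw [sum_congr rfl key, sum_comm]
    refine sum_le_sum fun d hd => ?_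
    obtain ⟨hd1, _⟩ := mem_Ioc.1 hd
    rw [← sum_filter, sum_const, nsmul_eq_mul, mul_comm]
    have h4 : 0 ≤ vonMangoldt d := vonMangoldt_nonneg
    have hle : M * y / d ≤ M := by
      apply Nat.div_le_of_le_mul
      nlinarith
    have : (Icc 1 M).filter (fun m => m ≤ M * y / d) = Icc 1 (M * y / d) := by
      ext m
      simp only [mem_filter, mem_Icc]
      omega
    rw [this]
    simp

lemma psi_scaled {t : ℝ} (ht : 0 ≤ t) :
    Tendsto (fun n : ℕ => Chebyshev.psi (t * n) / n) atTop (𝓝 t) :=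
  (Pool.Agent.Lib.PNT.scaled_tendsto Chebyshev.psi_zero Pool.Agent.Lib.PNT.psi_tendsto ht).comp
    tendsto_natCast_atTop_atTop

/-- Mertens' first theorem, lower bound with a good constant. -/
lemma mertens_lower : ∀ᶠ n : ℕ in atTop,
    Real.log n + 49 / 100 ≤ ∑ d ∈ Ioc 0 (3 * n), vonMangoldt d / (d : ℝ) := by
  have h1 : Tendsto (fun n : ℕ => ∑ m ∈ Icc 1 16,
      (Chebyshev.psi (((16 : ℝ) / (m : ℕ) * 3) * n) / n - Chebyshev.psi (3 * n) / n)) atTop
      (𝓝 (∑ m ∈ Icc 1 16, (((16 : ℝ) / (m : ℕ) * 3) - 3))) :=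
    tendsto_finsetSum _ fun m _ => (psi_scaled (by positivity)).sub (psi_scaled (by norm_num))
  have h2 : (∑ m ∈ Icc 1 16, (((16 : ℝ) / (m : ℕ) * 3) - 3)) < 48 * (23808 / 10000) := by
    simp only [show Icc 1 16 = ({1, 2, 3, 4, 5, 6, 7, 8, 9, 10, 11, 12, 13, 14, 15, 16} : Finset ℕ)
      from by decide]
    norm_num
  filter_upwards [h1.eventually (gt_mem_nhds h2), eventually_gt_atTop 0] with n hn hn0
  have hn' : (0 : ℝ) < n := by exact_mod_cast hn0
  have h3 := log_factorial_le (3 * n) 16 (by omega)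
  have h4 := Pool.Agent.Lib.Mertens.le_log_factorial (16 * (3 * n))
  have h5 : Real.log ((16 * (3 * n) : ℕ) : ℝ) = 4 * Real.log 2 + Real.log 3 + Real.log n := by
    push_cast
    rw [Real.log_mul (by norm_num) (by positivity), Real.log_mul (by norm_num) (by positivity),
      show (16 : ℝ) = 2 ^ 4 by norm_num, Real.log_pow]
    push_cast
    ring
  have h6 : ∑ m ∈ Icc 1 16, (Chebyshev.psi (((16 : ℕ) : ℝ) / (m : ℕ) * ((3 * n : ℕ) : ℝ)) -
      Chebyshev.psi ((3 * n : ℕ) : ℝ)) < 48 * (23808 / 10000) * n := by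
    rw [← div_lt_iff₀ hn', sum_div]
    convert hn using 2 with m _
    push_cast
    rw [sub_div, mul_assoc]
  rw [h5] at h4
  have l2 := Real.log_two_gt_d9
  have l3 := Real.log_three_gt_d9
  set S := ∑ d ∈ Ioc 0 (3 * n), vonMangoldt d / (d : ℝ)
  push_cast at h3 h4 h6
  have h7 : 48 * (n : ℝ) * (4 * Real.log 2 + Real.log 3 + Real.log n - 1 - 23808 / 10000) ≤
      48 * n * S := by nlinarith
  have h8 := le_of_mul_le_mul_left h7 (by positivity)
  linarith

/-- The loss at medium primes, after scaling. -/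
noncomputable def f1 (t : ℝ) : ℝ := 18 + 17 * t / 16

/-- The loss at large primes, after scaling. -/
noncomputable def f2 (t : ℝ) : ℝ := 4 * max (6 - t) 0 + max (min t (9 - t)) 0

lemma f1_cont : Continuous f1 := by unfold f1; fun_prop

lemma f2_cont : Continuous f2 := by unfold f2; fun_prop

lemma integral_lin (a b c d : ℝ) :
    ∫ t in a..b, (c + d * t) = c * (b - a) + d * (b ^ 2 - a ^ 2) / 2 := by
  rw [intervalIntegral.integral_add (by simp) (by apply Continuous.intervalIntegrable; fun_prop),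
    intervalIntegral.integral_const, intervalIntegral.integral_const_mul, integral_id, smul_eq_mul]
  ring

lemma integral_f1 : ∫ t in (0 : ℝ)..3, f1 t = 54 + 153 / 32 := by
  have : ∀ t, f1 t = 18 + 17 / 16 * t := fun t => by unfold f1; ring
  simp_rw [this]
  rw [integral_lin]
  norm_num

lemma integral_f2 : ∫ t in (3 : ℝ)..9, f2 t = 135 / 4 := by
  have i1 : ∫ t in (3 : ℝ)..(9 / 2), f2 t = ∫ t in (3 : ℝ)..(9 / 2), (24 + (-3) * t) := by
    refine intervalIntegral.integral_congr fun t ht => ?_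
    rw [Set.uIcc_of_le (by norm_num)] at ht
    obtain ⟨h1, h2⟩ := ht
    simp only [f2]
    rw [max_eq_left (by linarith), min_eq_left (by linarith), max_eq_left (by linarith)]
    ring
  have i2 : ∫ t in (9 / 2 : ℝ)..6, f2 t = ∫ t in (9 / 2 : ℝ)..6, (33 + (-5) * t) := by
    refine intervalIntegral.integral_congr fun t ht => ?_
    rw [Set.uIcc_of_le (by norm_num)] at ht
    obtain ⟨h1, h2⟩ := ht
    simp only [f2]
    rw [max_eq_left (by linarith), min_eq_right (by linarith), max_eq_left (by linarith)]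
    ring
  have i3 : ∫ t in (6 : ℝ)..9, f2 t = ∫ t in (6 : ℝ)..9, (9 + (-1) * t) := by
    refine intervalIntegral.integral_congr fun t ht => ?_
    rw [Set.uIcc_of_le (by norm_num)] at ht
    obtain ⟨h1, h2⟩ := ht
    simp only [f2]
    rw [max_eq_right (by linarith), min_eq_right (by linarith), max_eq_left (by linarith)]
    ring
  rw [← intervalIntegral.integral_add_adjacent_intervals (b := 6)
      (f2_cont.intervalIntegrable _ _) (f2_cont.intervalIntegrable _ _),
    ← intervalIntegral.integral_add_adjacent_intervals (a := 3) (b := 9 / 2)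
      (f2_cont.intervalIntegrable _ _) (f2_cont.intervalIntegrable _ _), i1, i2, i3,
    integral_lin, integral_lin, integral_lin]
  norm_num

lemma sum_f1 : ∀ᶠ n : ℕ in atTop,
    ∑ p ∈ PP (3 * n), f1 (p / n) * Real.log p ≤ (5883 / 100) * n := by
  have h := (Pool.Agent.Lib.PNT.prime_sum_tendsto (α := 0) (β := 3) le_rfl (by norm_num)
    (f := f1) (M := 30) (fun x hx => ?_)
    (Eventually.of_forall fun x _ => f1_cont.continuousAt)).comp tendsto_natCast_atTop_atTop
  · rw [integral_f1] at h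
    filter_upwards [h.eventually (gt_mem_nhds (show (54 + 153 / 32 : ℝ) < 5883 / 100 by norm_num)),
      eventually_gt_atTop 0] with n hn hn0
    have hn' : (0 : ℝ) < n := by exact_mod_cast hn0
    simp only [Function.comp, zero_mul, Nat.floor_zero] at hn
    rw [show (3 : ℝ) * n = ((3 * n : ℕ) : ℝ) by push_cast; ring, Nat.floor_natCast,
      div_lt_iff₀ hn'] at hn
    exact hn.le
  · unfold f1
    rw [abs_le]
    constructor <;> linarith [hx.1, hx.2]

lemma sum_f2 : ∀ᶠ n : ℕ in atTop,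
    ∑ p ∈ (Ioc (3 * n) (9 * n)).filter Nat.Prime, f2 (p / n) * Real.log p ≤ (338 / 10) * n := by
  have h := (Pool.Agent.Lib.PNT.prime_sum_tendsto (α := 3) (β := 9) (by norm_num) (by norm_num)
    (f := f2) (M := 30) (fun x hx => ?_)
    (Eventually.of_forall fun x _ => f2_cont.continuousAt)).comp tendsto_natCast_atTop_atTop
  · rw [integral_f2] at h
    filter_upwards [h.eventually (gt_mem_nhds (show (135 / 4 : ℝ) < 338 / 10 by norm_num)),
      eventually_gt_atTop 0] with n hn hn0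
    have hn' : (0 : ℝ) < n := by exact_mod_cast hn0
    simp only [Function.comp] at hn
    rw [show (3 : ℝ) * n = ((3 * n : ℕ) : ℝ) by push_cast; ring, Nat.floor_natCast,
      show (9 : ℝ) * n = ((9 * n : ℕ) : ℝ) by push_cast; ring, Nat.floor_natCast,
      div_lt_iff₀ hn'] at hn
    exact hn.le
  · unfold f2
    have h1 : max (6 - x) 0 ≤ 3 := max_le (by linarith [hx.1]) (by norm_num)
    have h2 : max (min x (9 - x)) 0 ≤ 9 := max_le ((min_le_left _ _).trans hx.2) (by norm_num)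
    have h3 : 0 ≤ max (6 - x) 0 := le_max_right _ _
    have h4 : 0 ≤ max (min x (9 - x)) 0 := le_max_right _ _
    rw [abs_le]
    constructor <;> linarith

/-- The error from the small primes is negligible. -/
lemma err_small (A : ℝ) : ∀ᶠ n : ℕ in atTop,
    Real.sqrt (15 * n) * (48 * n * Real.log (15 * n) + 6 * n * A) ≤ (1 / 10) * (n : ℝ) ^ 2 := by
  have h1 : Tendsto (fun x : ℝ => Real.log x / Real.sqrt x) atTop (𝓝 0) := by
    have := (isLittleO_log_rpow_atTop (r := 1 / 2) (by norm_num)).tendsto_div_nhds_zero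
    refine this.congr fun x => ?_
    rw [Real.sqrt_eq_rpow]
  have h2 : Tendsto (fun x : ℝ => (Real.sqrt x)⁻¹) atTop (𝓝 0) :=
    Real.tendsto_sqrt_atTop.inv_tendsto_atTop
  have h3 : Tendsto (fun n : ℕ => (15 : ℝ) * n) atTop atTop :=
    tendsto_natCast_atTop_atTop.const_mul_atTop (by norm_num)
  have h4 := (((h1.comp h3).const_mul (48 * 15)).add ((h2.comp h3).const_mul (6 * 15 * A)))
  simp only [mul_zero, add_zero] at h4
  filter_upwards [h4.eventually (gt_mem_nhds (show (0 : ℝ) < 1 / 10 by norm_num)),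
    eventually_gt_atTop 0] with n hn hn0
  have hn' : (0 : ℝ) < n := by exact_mod_cast hn0
  simp only [Function.comp] at hn
  have hs : 0 < Real.sqrt (15 * n) := Real.sqrt_pos.2 (by positivity)
  have hs2 : Real.sqrt (15 * n) * Real.sqrt (15 * n) = 15 * n := Real.mul_self_sqrt (by positivity)
  set s := Real.sqrt (15 * n)
  have e : s * (48 * n * Real.log (15 * n) + 6 * n * A) =
      (48 * 15 * (Real.log (15 * n) / s) + 6 * 15 * A * s⁻¹) * (n : ℝ) ^ 2 := by
    have : (n : ℝ) = s * s / 15 := by linarith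
    generalize Real.log (15 * n) = l
    rw [this]
    field_simp
  rw [e]
  exact mul_le_mul_of_nonneg_right hn.le (by positivity)

theorem lower_abstract (den : ℕ) (hden : den ≠ 0) : ∀ᶠ n : ℕ in atTop, ∀ q : ℚ, q ≠ 0 →
    (∀ p : ℕ, p.Prime → 15 * n ≤ p ^ 2 → ¬ p ∣ den →
      18 * (n : ℝ) ^ 2 / p - 18 * n - 17 * p / 16 ≤ (padicValRat p q : ℝ)) →
    (∀ p : ℕ, p.Prime → 3 * n < p → ¬ p ∣ den →
      -4 * max (6 * (n : ℝ) - p) 0 - max (min (p : ℝ) (9 * n - p)) 0 ≤ (padicValRat p q : ℝ)) →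
    (∀ p : ℕ, p.Prime → 18 * (n : ℝ) ^ 2 * ∑ k ∈ Icc 1 (Nat.log p (6 * n)), 1 / (p : ℝ) ^ k
      - 48 * n * (Nat.log p (15 * n) : ℝ) - 6 * n * (padicValNat p den : ℝ) ≤
      (padicValRat p q : ℝ)) →
    18 * (n : ℝ) ^ 2 * Real.log n - 84 * (n : ℝ) ^ 2 ≤ Real.log |(q : ℝ)| := by
  filter_upwards [mertens_lower, sum_f1, sum_f2, err_small (Real.log den),
    eventually_gt_atTop (den ^ 2), eventually_gt_atTop den, eventually_gt_atTop 0]
    with n hM h1 h2 hE hn2 hn1 hn0 q hq hmed hlarge hsmall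
  have hn' : (0 : ℝ) < n := by exact_mod_cast hn0
  set N := 9 * n + q.num.natAbs + q.den with hN
  rw [log_rat_eq q hq N (by omega) (by omega)]
  have hlog : ∀ p : ℕ, 0 ≤ Real.log p := fun p => Real.log_natCast_nonneg p
  -- split the primes
  have hsplit : PP N = (PP (3 * n) ∪ (Ioc (3 * n) (9 * n)).filter Nat.Prime) ∪
      (Ioc (9 * n) N).filter Nat.Prime := by
    unfold PP
    rw [← filter_union, ← filter_union, Ioc_union_Ioc_eq_Ioc (by omega) (by omega),
      Ioc_union_Ioc_eq_Ioc (by omega) (by omega)]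
  have hd1 : Disjoint (PP (3 * n)) ((Ioc (3 * n) (9 * n)).filter Nat.Prime) :=
    disjoint_filter_filter (Ioc_disjoint_Ioc_of_le le_rfl)
  have hd2 : Disjoint (PP (3 * n) ∪ (Ioc (3 * n) (9 * n)).filter Nat.Prime)
      ((Ioc (9 * n) N).filter Nat.Prime) := by
    unfold PP
    rw [← filter_union, Ioc_union_Ioc_eq_Ioc (by omega) (by omega)]
    exact disjoint_filter_filter (Ioc_disjoint_Ioc_of_le le_rfl)
  rw [hsplit, sum_union hd2, sum_union hd1]
  have hnd : ∀ p : ℕ, 3 * n < p → ¬ p ∣ den := fun p hp hd => by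
    have := Nat.le_of_dvd (Nat.pos_of_ne_zero hden) hd
    omega
  have t3 : 0 ≤ ∑ p ∈ (Ioc (9 * n) N).filter Nat.Prime, (padicValRat p q : ℝ) * Real.log p := by
    refine sum_nonneg fun p hp => mul_nonneg ?_ (hlog p)
    obtain ⟨hp1, hp2⟩ := mem_filter.1 hp
    have hp3 := (mem_Ioc.1 hp1).1
    have hp4 : 9 * (n : ℝ) < p := by exact_mod_cast hp3
    have := hlarge p hp2 (by omega) (hnd p (by omega))
    rw [max_eq_right (by linarith), max_eq_right ((min_le_right _ _).trans (by linarith))] at this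
    linarith
  have t2 : -(n * ∑ p ∈ (Ioc (3 * n) (9 * n)).filter Nat.Prime, f2 (p / n) * Real.log p) ≤
      ∑ p ∈ (Ioc (3 * n) (9 * n)).filter Nat.Prime, (padicValRat p q : ℝ) * Real.log p := by
    rw [mul_sum, ← sum_neg_distrib]
    refine sum_le_sum fun p hp => ?_
    obtain ⟨hp1, hp2⟩ := mem_filter.1 hp
    have hp3 := (mem_Ioc.1 hp1).1
    have := hlarge p hp2 hp3 (hnd p hp3)
    rw [← mul_assoc, ← neg_mul]
    refine mul_le_mul_of_nonneg_right (le_trans (le_of_eq ?_) this) (hlog p)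
    unfold f2
    rw [mul_add, mul_left_comm, mul_max_of_nonneg _ _ hn'.le, mul_max_of_nonneg _ _ hn'.le,
      mul_min_of_nonneg _ _ hn'.le, mul_sub, mul_sub, mul_div_cancel₀ _ hn'.ne', mul_zero,
      mul_comm (n : ℝ) 6, mul_comm (n : ℝ) 9]
    ring
  set E : ℝ := 48 * n * Real.log (15 * n) + 6 * n * Real.log den with hEdef
  have hE0 : 0 ≤ E := by
    have : 0 ≤ Real.log (15 * n) := Real.log_nonneg (by
      have : (1 : ℝ) ≤ n := by exact_mod_cast hn0
      linarith)
    have := hlog den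
    positivity
  have t1 : ∀ p ∈ PP (3 * n),
      18 * (n : ℝ) ^ 2 * ((∑ k ∈ Icc 1 (Nat.log p (3 * n)), 1 / (p : ℝ) ^ k) * Real.log p)
        - n * (f1 (p / n) * Real.log p) - (if p ^ 2 < 15 * n then E else 0) ≤
      (padicValRat p q : ℝ) * Real.log p := by
    intro p hp
    obtain ⟨hp1, hp2⟩ := mem_PP.1 hp
    have hp0 : (0 : ℝ) < p := by exact_mod_cast hp2.pos
    have hf : n * f1 (p / n) = 18 * n + 17 * p / 16 := by
      unfold f1
      field_simp
    split_ifs with hc
    · have hs := mul_le_mul_of_nonneg_right (hsmall p hp2) (hlog p)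
      have a1 : ∑ k ∈ Icc 1 (Nat.log p (3 * n)), 1 / (p : ℝ) ^ k ≤
          ∑ k ∈ Icc 1 (Nat.log p (6 * n)), 1 / (p : ℝ) ^ k :=
        sum_le_sum_of_subset_of_nonneg (Icc_subset_Icc_right (Nat.log_mono_right (by omega)))
          fun _ _ _ => by positivity
      have a2 : (Nat.log p (15 * n) : ℝ) * Real.log p ≤ Real.log (15 * n) := by
        rw [← Real.log_pow]
        refine Real.log_le_log (by positivity) ?_
        exact_mod_cast Nat.pow_log_le_self p (by omega)
      have a3 : (padicValNat p den : ℝ) * Real.log p ≤ Real.log den := by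
        rw [← Real.log_pow]
        refine Real.log_le_log (by positivity) ?_
        exact_mod_cast Nat.le_of_dvd (Nat.pos_of_ne_zero hden) pow_padicValNat_dvd
      have a4 : 0 ≤ n * (f1 (p / n) * Real.log p) := by
        rw [← mul_assoc, hf]
        have := hlog p
        positivity
      have a5 := mul_le_mul_of_nonneg_left (mul_le_mul_of_nonneg_right a1 (hlog p))
        (show 0 ≤ 18 * (n : ℝ) ^ 2 by positivity)
      have a6 := mul_le_mul_of_nonneg_left a2 (show 0 ≤ 48 * (n : ℝ) by positivity)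
      have a7 := mul_le_mul_of_nonneg_left a3 (show 0 ≤ 6 * (n : ℝ) by positivity)
      rw [hEdef]
      nlinarith
    · rw [not_lt] at hc
      have hnd' : ¬ p ∣ den := fun hd => by
        have h := Nat.le_of_dvd (Nat.pos_of_ne_zero hden) hd
        have := Nat.pow_le_pow_left h 2
        omega
      have hs := mul_le_mul_of_nonneg_right (hmed p hp2 hc hnd') (hlog p)
      have hl : Nat.log p (3 * n) = 1 :=
        (Nat.log_eq_iff (Or.inl one_ne_zero)).2 ⟨by simpa using hp1, by norm_num; omega⟩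
      rw [hl, Icc_self, sum_singleton, pow_one, ← mul_assoc (n : ℝ), hf]
      refine le_trans (le_of_eq ?_) hs
      ring
  have t1' := sum_le_sum t1
  rw [sum_sub_distrib, sum_sub_distrib, ← mul_sum, ← mul_sum, ← sum_vonMangoldt_div_eq,
    ← sum_filter, sum_const, nsmul_eq_mul] at t1'
  have hcard : (((PP (3 * n)).filter fun p => p ^ 2 < 15 * n).card : ℝ) ≤ Real.sqrt (15 * n) := by
    have : ((PP (3 * n)).filter fun p => p ^ 2 < 15 * n) ⊆ Ioc 0 (Nat.sqrt (15 * n)) := by
      intro p hp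
      obtain ⟨hp1, hp2⟩ := mem_filter.1 hp
      exact mem_Ioc.2 ⟨(mem_PP.1 hp1).2.pos, Nat.le_sqrt'.2 hp2.le⟩
    have h := card_le_card this
    rw [Nat.card_Ioc, Nat.sub_zero] at h
    calc _ ≤ ((Nat.sqrt (15 * n) : ℕ) : ℝ) := by exact_mod_cast h
      _ ≤ Real.sqrt ((15 * n : ℕ) : ℝ) := Real.nat_sqrt_le_real_sqrt
      _ = _ := by push_cast; rfl
  have b1 := mul_le_mul_of_nonneg_right hcard hE0
  have b2 := mul_le_mul_of_nonneg_left hM (show 0 ≤ 18 * (n : ℝ) ^ 2 by positivity)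
  have b3 := mul_le_mul_of_nonneg_left h1 hn'.le
  have b4 := mul_le_mul_of_nonneg_left h2 hn'.le
  have b5 : 0 ≤ (n : ℝ) ^ 2 := by positivity
  nlinarith

end Pool.Agent.P.MP_a89d6d_nt.Z23.Lower
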