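import Pool.Agent.P.MP_a89d6d_nt.Z23.Defs

/-!
Congruences of rational numbers modulo a prime.
-/

namespace Pool.Agent.P.MP_a89d6d_nt.Z23.Nonzero

open Finset Filter

/-- `q` is `p`-integral with reduction `z`. -/
def Rd (p : ℕ) (q : ℚ) (z : ZMod p) : Prop :=
  ∃ n d : ℤ, (d : ZMod p) ≠ 0 ∧ (d : ℚ) * q = n ∧ (d : ZMod p) * z = n

/-- `q` and `r` are `p`-integral and congruent modulo `p`. -/
def Cg (p : ℕ) (q r : ℚ) : Prop := ∃ z : ZMod p, Rd p q z ∧ Rd p r z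

/-- `q` is a `p`-adic unit. -/
def Un (p : ℕ) (q : ℚ) : Prop := ∃ z : ZMod p, z ≠ 0 ∧ Rd p q z

variable {p : ℕ} [hp : Fact p.Prime]

theorem Rd.int (n : ℤ) : Rd p (n : ℚ) (n : ZMod p) :=
  ⟨n, 1, by simp, by simp, by simp⟩

theorem Rd.add {q r : ℚ} {z w : ZMod p} (h1 : Rd p q z) (h2 : Rd p r w) :
    Rd p (q + r) (z + w) := by
  obtain ⟨n1, d1, a1, b1, c1⟩ := h1
  obtain ⟨n2, d2, a2, b2, c2⟩ := h2
  refine ⟨n1 * d2 + n2 * d1, d1 * d2, ?_, ?_, ?_⟩
  · push_cast; exact mul_ne_zero a1 a2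
  · push_cast; rw [← b1, ← b2]; ring
  · push_cast; rw [← c1, ← c2]; ring

theorem Rd.mul {q r : ℚ} {z w : ZMod p} (h1 : Rd p q z) (h2 : Rd p r w) :
    Rd p (q * r) (z * w) := by
  obtain ⟨n1, d1, a1, b1, c1⟩ := h1
  obtain ⟨n2, d2, a2, b2, c2⟩ := h2
  refine ⟨n1 * n2, d1 * d2, ?_, ?_, ?_⟩
  · push_cast; exact mul_ne_zero a1 a2
  · push_cast; rw [← b1, ← b2]; ring
  · push_cast; rw [← c1, ← c2]; ring

theorem Rd.unique {q : ℚ} {z w : ZMod p} (h1 : Rd p q z) (h2 : Rd p q w) : z = w := by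
  obtain ⟨n1, d1, a1, b1, c1⟩ := h1
  obtain ⟨n2, d2, a2, b2, c2⟩ := h2
  have h : d2 * n1 = d1 * n2 := by
    have : (d2 : ℚ) * n1 = d1 * n2 := by rw [← b1, ← b2]; ring
    exact_mod_cast this
  have h' : (d2 : ZMod p) * n1 = d1 * n2 := by exact_mod_cast congrArg (Int.cast : ℤ → ZMod p) h
  rw [← c1, ← c2] at h'
  have : (d1 : ZMod p) * d2 * (z - w) = 0 := by linear_combination h'
  rcases mul_eq_zero.mp this with h3 | h3
  · exact absurd h3 (mul_ne_zero a1 a2)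
  · exact sub_eq_zero.mp h3

theorem Rd.ne_zero {q : ℚ} {z : ZMod p} (h : Rd p q z) (hz : z ≠ 0) : q ≠ 0 := by
  rintro rfl
  have h0 : Rd p (0 : ℚ) (0 : ZMod p) := by simpa using (Rd.int (p := p) 0)
  exact hz (h.unique h0)

theorem Rd.inv {q : ℚ} {z : ZMod p} (h : Rd p q z) (hz : z ≠ 0) : Rd p q⁻¹ z⁻¹ := by
  have hq := h.ne_zero hz
  obtain ⟨n, d, a, b, c⟩ := h
  refine ⟨d, n, ?_, ?_, ?_⟩
  · rw [← c]; exact mul_ne_zero a hz
  · rw [← b]; field_simp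
  · rw [← c]; field_simp

theorem Cg.symm {q r : ℚ} (h : Cg p q r) : Cg p r q := by
  obtain ⟨z, a, b⟩ := h
  exact ⟨z, b, a⟩

theorem Cg.left {q r : ℚ} (h : Cg p q r) : Cg p q q := by
  obtain ⟨z, a, _⟩ := h
  exact ⟨z, a, a⟩

theorem Cg.right {q r : ℚ} (h : Cg p q r) : Cg p r r := h.symm.left

theorem Cg.trans {q r s : ℚ} (h1 : Cg p q r) (h2 : Cg p r s) : Cg p q s := by
  obtain ⟨z, a, b⟩ := h1
  obtain ⟨w, c, d⟩ := h2
  rw [b.unique c] at a
  exact ⟨w, a, d⟩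

theorem Cg.int (n : ℤ) : Cg p (n : ℚ) (n : ℚ) := ⟨_, Rd.int n, Rd.int n⟩

theorem Cg.nat (n : ℕ) : Cg p (n : ℚ) (n : ℚ) := by simpa using (Cg.int (p := p) (n : ℤ))

theorem Cg.zero : Cg p 0 0 := by simpa using (Cg.int (p := p) 0)

theorem Cg.one : Cg p 1 1 := by simpa using (Cg.int (p := p) 1)

theorem Cg.of_zmod {m n : ℤ} (h : (m : ZMod p) = (n : ZMod p)) : Cg p (m : ℚ) (n : ℚ) :=
  ⟨(n : ZMod p), h ▸ Rd.int m, Rd.int n⟩

theorem Cg.add {q r q' r' : ℚ} (h1 : Cg p q r) (h2 : Cg p q' r') : Cg p (q + q') (r + r') := by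
  obtain ⟨z, a, b⟩ := h1
  obtain ⟨w, c, d⟩ := h2
  exact ⟨z + w, a.add c, b.add d⟩

theorem Cg.mul {q r q' r' : ℚ} (h1 : Cg p q r) (h2 : Cg p q' r') : Cg p (q * q') (r * r') := by
  obtain ⟨z, a, b⟩ := h1
  obtain ⟨w, c, d⟩ := h2
  exact ⟨z * w, a.mul c, b.mul d⟩

theorem Cg.neg {q r : ℚ} (h : Cg p q r) : Cg p (-q) (-r) := by
  have := (Cg.int (p := p) (-1)).mul h
  simpa using this

theorem Cg.sub {q r q' r' : ℚ} (h1 : Cg p q r) (h2 : Cg p q' r') : Cg p (q - q') (r - r') := by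
  simpa [sub_eq_add_neg] using h1.add h2.neg

theorem Cg.pow {q r : ℚ} (h : Cg p q r) (n : ℕ) : Cg p (q ^ n) (r ^ n) := by
  induction n with
  | zero => simpa using (Cg.one (p := p))
  | succ n ih => simpa [pow_succ] using ih.mul h

theorem Cg.sum {ι : Type*} (s : Finset ι) {f g : ι → ℚ} (h : ∀ i ∈ s, Cg p (f i) (g i)) :
    Cg p (∑ i ∈ s, f i) (∑ i ∈ s, g i) := by
  classical
  induction s using Finset.induction_on with
  | empty => simpa using (Cg.zero (p := p))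
  | insert a s ha ih =>
    rw [sum_insert ha, sum_insert ha]
    exact (h a (mem_insert_self a s)).add (ih fun i hi => h i (mem_insert_of_mem hi))

theorem Cg.prod {ι : Type*} (s : Finset ι) {f g : ι → ℚ} (h : ∀ i ∈ s, Cg p (f i) (g i)) :
    Cg p (∏ i ∈ s, f i) (∏ i ∈ s, g i) := by
  classical
  induction s using Finset.induction_on with
  | empty => simpa using (Cg.one (p := p))
  | insert a s ha ih =>
    rw [prod_insert ha, prod_insert ha]
    exact (h a (mem_insert_self a s)).mul (ih fun i hi => h i (mem_insert_of_mem hi))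

theorem Cg.congr {q r q' r' : ℚ} (h : Cg p q r) (h1 : q = q') (h2 : r = r') : Cg p q' r' :=
  h1 ▸ h2 ▸ h

theorem Cg.p_zero : Cg p (p : ℚ) 0 := by
  have : Cg p (((p : ℤ) : ℚ)) ((0 : ℤ) : ℚ) := Cg.of_zmod (by simp)
  simpa using this

theorem Cg.p_mul {q : ℚ} (h : Cg p q q) : Cg p ((p : ℚ) * q) 0 := by
  simpa using (Cg.p_zero (p := p)).mul h

theorem Cg.inv {q r : ℚ} (h : Cg p q r) (hr : Un p r) : Cg p q⁻¹ r⁻¹ := by
  obtain ⟨z, a, b⟩ := h
  obtain ⟨w, hw, c⟩ := hr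
  have hz : z ≠ 0 := by rw [b.unique c]; exact hw
  exact ⟨z⁻¹, a.inv hz, b.inv hz⟩

theorem Cg.div {q r q' r' : ℚ} (h1 : Cg p q r) (h2 : Cg p q' r') (hr : Un p r') :
    Cg p (q / q') (r / r') := by
  simpa [div_eq_mul_inv] using h1.mul (h2.inv hr)

theorem Un.cg {q : ℚ} (h : Un p q) : Cg p q q := by
  obtain ⟨z, _, a⟩ := h
  exact ⟨z, a, a⟩

theorem Un.ne_zero {q : ℚ} (h : Un p q) : q ≠ 0 := by
  obtain ⟨z, hz, a⟩ := h
  exact a.ne_zero hz

theorem Cg.un {q r : ℚ} (h : Cg p q r) (hr : Un p r) : Un p q := by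
  obtain ⟨z, a, b⟩ := h
  obtain ⟨w, hw, c⟩ := hr
  exact ⟨z, by rw [b.unique c]; exact hw, a⟩

theorem Un.one : Un p 1 := ⟨1, one_ne_zero, by simpa using (Rd.int (p := p) 1)⟩

theorem Un.mul {q r : ℚ} (h1 : Un p q) (h2 : Un p r) : Un p (q * r) := by
  obtain ⟨z, hz, a⟩ := h1
  obtain ⟨w, hw, b⟩ := h2
  exact ⟨z * w, mul_ne_zero hz hw, a.mul b⟩

theorem Un.pow {q : ℚ} (h : Un p q) (n : ℕ) : Un p (q ^ n) := by
  induction n with
  | zero => simpa using (Un.one (p := p))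
  | succ n ih => simpa [pow_succ] using ih.mul h

theorem Un.prod {ι : Type*} (s : Finset ι) {f : ι → ℚ} (h : ∀ i ∈ s, Un p (f i)) :
    Un p (∏ i ∈ s, f i) := by
  classical
  induction s using Finset.induction_on with
  | empty => simpa using (Un.one (p := p))
  | insert a s ha ih =>
    rw [prod_insert ha]
    exact (h a (mem_insert_self a s)).mul (ih fun i hi => h i (mem_insert_of_mem hi))

theorem Un.int {n : ℤ} (h : ¬ (p : ℤ) ∣ n) : Un p (n : ℚ) :=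
  ⟨(n : ZMod p), fun h0 => h ((ZMod.intCast_zmod_eq_zero_iff_dvd n p).mp h0), Rd.int n⟩

theorem Un.nat {n : ℕ} (h : ¬ p ∣ n) : Un p (n : ℚ) := by
  have : ¬ (p : ℤ) ∣ (n : ℤ) := fun h' => h (Int.natCast_dvd_natCast.mp h')
  simpa using Un.int this

theorem Un.small {n : ℤ} (h0 : n ≠ 0) (h : |n| < p) : Un p (n : ℚ) :=
  Un.int fun hd => h0 (Int.eq_zero_of_abs_lt_dvd hd h)

theorem Un.succ {n : ℕ} (h : n + 1 < p) : Un p ((n : ℚ) + 1) := by
  have := Un.nat (p := p) (n := n + 1) (Nat.not_dvd_of_pos_of_lt (Nat.succ_pos n) h)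
  simpa using this

theorem Cg.det {ι : Type*} [Fintype ι] [DecidableEq ι] {M N : Matrix ι ι ℚ}
    (h : ∀ i k, Cg p (M i k) (N i k)) : Cg p M.det N.det := by
  rw [Matrix.det_apply', Matrix.det_apply']
  exact Cg.sum _ fun σ _ => (Cg.int _).mul (Cg.prod _ fun i _ => h _ _)

theorem cg_of_den {q : ℚ} (h : ¬ p ∣ q.den) : Cg p q q := by
  have h1 : Un p (q.den : ℚ) := Un.nat h
  have h2 := (Cg.int (p := p) q.num).div h1.cg h1
  rwa [Rat.num_div_den] at h2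

theorem un_of_num_den {q : ℚ} (h : ¬ p ∣ q.den) (h' : ¬ (p : ℤ) ∣ q.num) : Un p q := by
  have h1 : Un p (q.den : ℚ) := Un.nat h
  have h2 : Un p (q.num : ℚ) := Un.int h'
  obtain ⟨z, hz, a⟩ := h1
  obtain ⟨w, hw, b⟩ := h2
  refine ⟨w * z⁻¹, mul_ne_zero hw (inv_ne_zero hz), ?_⟩
  have := b.mul (a.inv hz)
  rwa [← div_eq_mul_inv, Rat.num_div_den] at this

theorem cg_of_large {q : ℚ} (h : q.den < p) : Cg p q q :=
  cg_of_den (Nat.not_dvd_of_pos_of_lt q.den_pos h)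

theorem un_of_large {q : ℚ} (hq : q ≠ 0) (h : q.den < p) (h' : q.num.natAbs < p) : Un p q := by
  refine un_of_num_den (Nat.not_dvd_of_pos_of_lt q.den_pos h) fun hd => ?_
  have : q.num = 0 := Int.eq_zero_of_abs_lt_dvd hd (by
    rw [Int.abs_eq_natAbs]; exact_mod_cast h')
  exact hq (Rat.num_eq_zero.mp this)

/-- Wilson's theorem for a complete residue system. -/
theorem wilson (f : ℕ → ℤ) (d0 : ℕ) (hd0 : d0 < p) (h0 : ((f d0 : ℤ) : ZMod p) = 0)
    (hinj : ∀ d < p, ∀ d' < p, ((f d : ℤ) : ZMod p) = f d' → d = d') :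
    Cg p (∏ d ∈ (range p).erase d0, (f d : ℚ)) (-1) := by
  have key : ∏ d ∈ (range p).erase d0, ((f d : ℤ) : ZMod p) = -1 := by
    have hinj' : Set.InjOn (fun d => ((f d : ℤ) : ZMod p)) ((range p).erase d0 : Finset ℕ) := by
      intro d hd d' hd' h
      exact hinj d (mem_range.mp (mem_of_mem_erase hd)) d' (mem_range.mp (mem_of_mem_erase hd')) h
    have himg : ((range p).erase d0).image (fun d => ((f d : ℤ) : ZMod p)) = univ.erase 0 := by
      apply eq_of_subset_of_card_le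
      · intro z hz
        obtain ⟨d, hd, rfl⟩ := mem_image.mp hz
        refine mem_erase.mpr ⟨fun h => ?_, mem_univ _⟩
        exact (ne_of_mem_erase hd)
          (hinj d (mem_range.mp (mem_of_mem_erase hd)) d0 hd0 (h.trans h0.symm))
      · rw [card_image_of_injOn hinj', card_erase_of_mem (mem_range.mpr hd0),
          card_erase_of_mem (mem_univ _), card_range, card_univ, ZMod.card]
    have h1 : ∏ d ∈ (range p).erase d0, ((f d : ℤ) : ZMod p) = ∏ z ∈ univ.erase (0 : ZMod p), z := by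
      rw [← himg, prod_image hinj']
    rw [h1]
    have h2 := FiniteField.prod_univ_units_id_eq_neg_one (K := ZMod p)
    have h3 : ∏ z ∈ univ.erase (0 : ZMod p), z = ∏ x : (ZMod p)ˣ, (x : ZMod p) := by
      symm
      refine prod_bij (fun x _ => (x : ZMod p)) (fun x _ => ?_) (fun x _ y _ h => Units.ext h)
        (fun z hz => ?_) (fun _ _ => rfl)
      · exact mem_erase.mpr ⟨x.ne_zero, mem_univ _⟩
      · exact ⟨Units.mk0 z (ne_of_mem_erase hz), mem_univ _, rfl⟩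
    rw [h3, ← Units.coe_prod, h2]
    simp
  have : Cg p ((∏ d ∈ (range p).erase d0, f d : ℤ) : ℚ) ((-1 : ℤ) : ℚ) :=
    Cg.of_zmod (by push_cast; exact key)
  simpa using this

end Pool.Agent.P.MP_a89d6d_nt.Z23.Nonzero
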