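import Pool.Agent.P.MP_a89d6d_nt.Z23.Nonzero1

/-!
Harmonic numbers, binomial coefficients and the denominators modulo a prime.
-/

namespace Pool.Agent.P.MP_a89d6d_nt.Z23.Nonzero

open Finset Filter

theorem sum_range_mul' (f : ℕ → ℚ) (N p : ℕ) :
    ∑ j ∈ range (N * p), f j = ∑ m ∈ range N, ∑ d ∈ range p, f (m * p + d) := by
  induction N with
  | zero => simp
  | succ N ih => rw [Nat.succ_mul, sum_range_add, ih, sum_range_succ]

theorem prod_range_mul' (f : ℕ → ℚ) (N p : ℕ) :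
    ∏ j ∈ range (N * p), f j = ∏ m ∈ range N, ∏ d ∈ range p, f (m * p + d) := by
  induction N with
  | zero => simp
  | succ N ih => rw [Nat.succ_mul, prod_range_add, ih, prod_range_succ]

theorem H_succ (s m : ℕ) : H s (m + 1) = H s m + 1 / ((m : ℚ) + 1) ^ s := by
  simp [H, sum_range_succ]

variable {p : ℕ} [hp : Fact p.Prime]

theorem p_ne_zero : (p : ℚ) ≠ 0 := by exact_mod_cast hp.out.ne_zero

theorem cg_H_small (s m : ℕ) (hm : m < p) : Cg p (H s m) (H s m) := by
  unfold H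
  refine Cg.sum _ fun i hi => ?_
  have hi' : i + 1 < p := by have := mem_range.mp hi; omega
  have := (Un.succ (p := p) hi').pow s
  exact Cg.one.div this.cg this

theorem cg_H_split (s j : ℕ) :
    Cg p (H s j - H s (j / p) / (p : ℚ) ^ s) (H s j - H s (j / p) / (p : ℚ) ^ s) := by
  induction j with
  | zero => simpa [H] using (Cg.zero (p := p))
  | succ j ih =>
    by_cases h : p ∣ j + 1
    · have h1 : (j + 1) / p = j / p + 1 := Nat.succ_div_of_dvd h
      have h2 : ((j : ℚ) + 1) = (p : ℚ) * (((j / p : ℕ) : ℚ) + 1) := by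
        have : j + 1 = p * (j / p + 1) := by rw [← h1, Nat.mul_div_cancel' h]
        exact_mod_cast this
      have h3 : H s (j + 1) - H s ((j + 1) / p) / (p : ℚ) ^ s
          = H s j - H s (j / p) / (p : ℚ) ^ s := by
        rw [h1, H_succ, H_succ, h2, mul_pow]
        have := p_ne_zero (p := p)
        have h4 : (((j / p : ℕ) : ℚ) + 1) ≠ 0 := by positivity
        field_simp
        ring
      rw [h3]; exact ih
    · have h1 : (j + 1) / p = j / p := Nat.succ_div_of_not_dvd h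
      have h2 : Un p ((j : ℚ) + 1) := by simpa using Un.nat (p := p) h
      have h3 := h2.pow s
      have h4 := ih.add (Cg.one.div h3.cg h3)
      have h5 : H s (j + 1) - H s ((j + 1) / p) / (p : ℚ) ^ s
          = H s j - H s (j / p) / (p : ℚ) ^ s + 1 / ((j : ℚ) + 1) ^ s := by
        rw [h1, H_succ]; ring
      rw [h5]; exact h4

theorem cg_H (s m d : ℕ) (hs : 1 ≤ s) (hm : m < p) (hd : d < p) :
    Cg p ((p : ℚ) ^ s * H s (m * p + d)) (H s m) := by
  have h1 : (m * p + d) / p = m := by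
    rw [Nat.add_comm, Nat.add_mul_div_right _ _ hp.out.pos, Nat.div_eq_of_lt hd, Nat.zero_add]
  have h2 := cg_H_split (p := p) s (m * p + d)
  rw [h1] at h2
  obtain ⟨t, rfl⟩ : ∃ t, s = t + 1 := ⟨s - 1, by omega⟩
  have h3 := (Cg.p_mul (((Cg.nat (p := p) p).pow t).mul h2)).add (cg_H_small (t + 1) m hm)
  refine h3.congr ?_ (by ring)
  have := p_ne_zero (p := p)
  field_simp
  ring

theorem neg_one_pow_mul_p (hp2 : 2 < p) (k : ℕ) : (-1 : ℚ) ^ (k * p) = (-1) ^ k := by
  have hodd : Odd p := hp.out.odd_of_ne_two (by omega)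
  rw [mul_comm, pow_mul, hodd.neg_one_pow]

theorem neg_one_pow_pred (hp2 : 2 < p) : (-1 : ℚ) ^ (p - 1) = 1 := by
  have hodd : Odd p := hp.out.odd_of_ne_two (by omega)
  obtain ⟨t, ht⟩ := hodd
  have : p - 1 = 2 * t := by omega
  rw [this, pow_mul]; simp

/-- The functional on binomials, at an index `≡ -1 mod p`. -/
theorem cg_lam_top (hp16 : 16 ≤ p) (a b : ℤ) (k : ℕ) (hk : k < 10) :
    Cg p ((p : ℚ) ^ 2 * lam a b (k * p + (p - 1))) (b * lam 0 1 k) := by
  have h1 := cg_H (p := p) 1 k (p - 1) le_rfl (by omega) (by omega)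
  have h2 : Un p ((k : ℚ) + 1) := Un.succ (by omega)
  have h3 := (((Cg.int (p := p) (-1)).pow k).mul
    ((Cg.p_mul (Cg.int (p := p) a)).add ((Cg.int (p := p) b).mul h1))).div h2.cg h2
  refine h3.congr ?_ ?_
  · unfold lam
    have h4 : (((k * p + (p - 1) : ℕ) : ℚ) + 1) = (p : ℚ) * ((k : ℚ) + 1) := by
      have : k * p + (p - 1) + 1 = p * (k + 1) := by
        have : p - 1 + 1 = p := by omega
        rw [add_assoc, this]; ring
      exact_mod_cast this
    rw [h4, pow_add, neg_one_pow_mul_p (by omega), neg_one_pow_pred (by omega)]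
    have := p_ne_zero (p := p)
    have h5 := h2.ne_zero
    push_cast
    field_simp
  · unfold lam
    push_cast
    ring

theorem cg_lam_other (hp16 : 16 ≤ p) (a b : ℤ) (k d : ℕ) (hk : k < 10) (hd : d + 1 < p) :
    Cg p ((p : ℚ) ^ 2 * lam a b (k * p + d)) 0 := by
  have h1 := (cg_H (p := p) 1 k d le_rfl (by omega) (by omega)).left
  have h2 : Un p (((k * p + d : ℕ) : ℚ) + 1) := by
    have : ¬ p ∣ k * p + d + 1 := by
      rw [add_assoc, Nat.dvd_add_right (Dvd.intro_left k rfl)]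
      exact Nat.not_dvd_of_pos_of_lt (Nat.succ_pos d) hd
    simpa using Un.nat (p := p) this
  have h3 := Cg.p_mul ((((Cg.int (p := p) (-1)).pow (k * p + d)).mul
    (((Cg.nat (p := p) p).mul (Cg.int (p := p) a)).add
      ((Cg.int (p := p) b).mul h1))).div h2.cg h2)
  refine h3.congr ?_ rfl
  unfold lam
  push_cast
  ring

theorem zmod_choose_pred (c : ℕ) (hc : c < p) :
    (((p - 1).choose c : ℕ) : ZMod p) = (-1) ^ c := by
  induction c with
  | zero => simp
  | succ c ih =>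
    have h1 : p.choose (c + 1) = (p - 1).choose c + (p - 1).choose (c + 1) := by
      have : p = (p - 1) + 1 := by omega
      conv_lhs => rw [this]
      exact Nat.choose_succ_succ' _ _
    have h2 : ((p.choose (c + 1) : ℕ) : ZMod p) = 0 :=
      (ZMod.natCast_eq_zero_iff _ _).mpr (hp.out.dvd_choose_self (by omega) hc)
    rw [h1] at h2
    push_cast at h2
    rw [ih (by omega)] at h2
    rw [pow_succ]
    linear_combination h2

theorem cg_choose (hp2 : 2 < p) (k w c : ℕ) (hw : w ≤ k) (hc : c < p) :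
    Cg p ((-1) ^ (k * p + (p - 1) - (w * p + c)) * (((k * p + (p - 1)).choose (w * p + c) : ℕ) : ℚ))
      ((-1) ^ (k - w) * ((k.choose w : ℕ) : ℚ)) := by
  have hl := Choose.choose_modEq_choose_mod_mul_choose_div (n := k * p + (p - 1))
    (k := w * p + c) (p := p)
  have e1 : (k * p + (p - 1)) % p = p - 1 := by
    rw [Nat.add_comm, Nat.add_mul_mod_self_right, Nat.mod_eq_of_lt (by omega)]
  have e2 : (k * p + (p - 1)) / p = k := by
    rw [Nat.add_comm, Nat.add_mul_div_right _ _ hp.out.pos, Nat.div_eq_of_lt (by omega),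
      Nat.zero_add]
  have e3 : (w * p + c) % p = c := by
    rw [Nat.add_comm, Nat.add_mul_mod_self_right, Nat.mod_eq_of_lt hc]
  have e4 : (w * p + c) / p = w := by
    rw [Nat.add_comm, Nat.add_mul_div_right _ _ hp.out.pos, Nat.div_eq_of_lt hc, Nat.zero_add]
  rw [e1, e2, e3, e4] at hl
  have h1 : ((((k * p + (p - 1)).choose (w * p + c) : ℕ) : ℤ) : ZMod p)
      = (((-1) ^ c * (k.choose w : ℕ) : ℤ) : ZMod p) := by
    rw [(ZMod.intCast_eq_intCast_iff _ _ _).mpr hl]
    push_cast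
    rw [zmod_choose_pred c hc]
  have h2 := ((Cg.int (p := p) (-1)).pow (k * p + (p - 1) - (w * p + c))).mul (Cg.of_zmod h1)
  refine h2.congr (by push_cast; ring) ?_
  have e5 : k * p + (p - 1) - (w * p + c) = (k - w) * p + (p - 1 - c) := by
    obtain ⟨t, rfl⟩ := Nat.exists_eq_add_of_le hw
    rw [Nat.add_sub_cancel_left, add_mul]
    omega
  have e6 : (-1 : ℚ) ^ (p - 1 - c) * (-1) ^ c = 1 := by
    rw [← pow_add, show p - 1 - c + c = p - 1 by omega, neg_one_pow_pred hp2]
  push_cast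
  rw [e5, pow_add, neg_one_pow_mul_p hp2]
  linear_combination ((-1 : ℚ) ^ (k - w) * (k.choose w : ℚ)) * e6

/-- The part of the denominator prime to `p`. -/
def Ep (p : ℕ) (d0 : ℕ) (y : ℤ) : ℚ :=
  ∏ m ∈ range 6, ∏ d ∈ (range p).erase d0, ((y : ℚ) + ((m * p + d : ℕ) : ℚ) + 1)

theorem cg_Ep (d0 : ℕ) (hd0 : d0 < p) (y : ℤ) (hy : (p : ℤ) ∣ y + d0 + 1) :
    Cg p (Ep p d0 y) 1 := by
  have h : ∀ m ∈ range 6, Cg p
      (∏ d ∈ (range p).erase d0, ((y : ℚ) + ((m * p + d : ℕ) : ℚ) + 1)) (-1) := by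
    intro m _
    have := wilson (p := p) (fun d => y + ((m * p + d : ℕ) : ℤ) + 1) d0 hd0 ?_ ?_
    · refine this.congr (prod_congr rfl fun d _ => ?_) rfl
      push_cast; ring
    · have h1 := (ZMod.intCast_zmod_eq_zero_iff_dvd _ p).mpr hy
      push_cast at h1 ⊢
      rw [ZMod.natCast_self]
      linear_combination h1
    · intro d hd d' hd' h
      push_cast at h
      have h1 : (d : ZMod p) = d' := by linear_combination h
      have h2 := (ZMod.natCast_eq_natCast_iff' _ _ _).mp h1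
      rwa [Nat.mod_eq_of_lt hd, Nat.mod_eq_of_lt hd'] at h2
  have h2 := Cg.prod _ h
  refine h2.congr rfl ?_
  simp
  norm_num

theorem prod_den (d0 : ℕ) (hd0 : d0 < p) (y w : ℤ) (hy : y + d0 + 1 = p * (w + 1)) :
    ∏ j ∈ range (6 * p), ((y : ℚ) + (j : ℚ) + 1)
      = (p : ℚ) ^ 6 * (∏ m ∈ range 6, ((w : ℚ) + (m : ℚ) + 1)) * Ep p d0 y := by
  have hy' : (y : ℚ) + d0 + 1 = p * (w + 1) := by exact_mod_cast hy
  rw [prod_range_mul' (fun j => (y : ℚ) + (j : ℚ) + 1) 6 p, Ep]
  have h6 : (p : ℚ) ^ 6 = ∏ _m ∈ range 6, (p : ℚ) := by simp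
  rw [h6, ← prod_mul_distrib, ← prod_mul_distrib]
  refine prod_congr rfl fun m _ => ?_
  rw [← mul_prod_erase (range p) _ (mem_range.mpr hd0)]
  congr 1
  push_cast
  linear_combination hy'

theorem prod_den_erase (d0 m0 : ℕ) (hd0 : d0 < p) (hm0 : m0 < 6) :
    ∏ k ∈ (range (6 * p)).erase (m0 * p + d0), ((k : ℚ) - ((m0 * p + d0 : ℕ) : ℚ))
      = (p : ℚ) ^ 5 * (∏ m ∈ (range 6).erase m0, ((m : ℚ) - (m0 : ℚ)))
        * Ep p d0 (-((m0 * p + d0 : ℕ) : ℤ) - 1) := by
  have hmem : m0 * p + d0 ∈ range (6 * p) := by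
    rw [mem_range]; nlinarith
  have h1 : ∏ k ∈ (range (6 * p)).erase (m0 * p + d0), ((k : ℚ) - ((m0 * p + d0 : ℕ) : ℚ))
      = ∏ k ∈ range (6 * p),
        (if k = m0 * p + d0 then 1 else ((k : ℚ) - ((m0 * p + d0 : ℕ) : ℚ))) := by
    rw [← mul_prod_erase (range (6 * p)) _ hmem, if_pos rfl, one_mul]
    refine prod_congr rfl fun k hk => ?_
    rw [if_neg (ne_of_mem_erase hk)]
  have h2 : (p : ℚ) ^ 5 * (∏ m ∈ (range 6).erase m0, ((m : ℚ) - (m0 : ℚ)))
      = ∏ m ∈ range 6, (if m = m0 then 1 else (p : ℚ) * ((m : ℚ) - (m0 : ℚ))) := by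
    rw [← mul_prod_erase (range 6) _ (mem_range.mpr hm0), if_pos rfl, one_mul]
    have h5 : (p : ℚ) ^ 5 = ∏ _m ∈ (range 6).erase m0, (p : ℚ) := by
      rw [prod_const, card_erase_of_mem (mem_range.mpr hm0), card_range]
    rw [h5, ← prod_mul_distrib]
    refine prod_congr rfl fun k hk => ?_
    rw [if_neg (ne_of_mem_erase hk)]
  rw [h1, h2, prod_range_mul'
    (fun k => if k = m0 * p + d0 then 1 else ((k : ℚ) - ((m0 * p + d0 : ℕ) : ℚ))) 6 p, Ep,
    ← prod_mul_distrib]
  refine prod_congr rfl fun m _ => ?_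
  rw [← mul_prod_erase (range p) _ (mem_range.mpr hd0)]
  congr 1
  · by_cases hm : m = m0
    · subst hm; simp
    · have : m * p + d0 ≠ m0 * p + d0 := by
        intro h
        exact hm (Nat.eq_of_mul_eq_mul_right hp.out.pos (Nat.add_right_cancel h))
      rw [if_neg this, if_neg hm]
      push_cast; ring
  · refine prod_congr rfl fun d hd => ?_
    have hd1 := mem_range.mp (mem_of_mem_erase hd)
    have : m * p + d ≠ m0 * p + d0 := by
      intro h
      have h3 := congrArg (· % p) h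
      simp only [Nat.add_comm _ d, Nat.add_comm _ d0, Nat.add_mul_mod_self_right,
        Nat.mod_eq_of_lt hd1, Nat.mod_eq_of_lt hd0] at h3
      exact ne_of_mem_erase hd h3
    rw [if_neg this]
    push_cast; ring

end Pool.Agent.P.MP_a89d6d_nt.Z23.Nonzero
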