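import Pool.Agent.P.MP_a89d6d_nt.Z23.Nonzero2
import Pool.Agent.P.MP_a89d6d_nt.Z23.Core

/-!
The functional with `6 p` poles, modulo `p`, in terms of the functional with `6` poles.
-/

namespace Pool.Agent.P.MP_a89d6d_nt.Z23.Nonzero

open Polynomial Finset Filter

variable {p : ℕ} [hp : Fact p.Prime]

theorem un_den_erase (hp16 : 16 ≤ p) (m0 : ℕ) (hm0 : m0 < 6) :
    Un p (∏ m ∈ (range 6).erase m0, ((m : ℚ) - (m0 : ℚ))) := by
  refine Un.prod _ fun m hm => ?_
  have h1 := mem_range.mp (mem_of_mem_erase hm)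
  have h2 := ne_of_mem_erase hm
  have := Un.small (p := p) (n := (m : ℤ) - (m0 : ℤ)) (by omega) (by
    rw [abs_lt]; constructor <;> omega)
  simpa using this

theorem un_small (hp16 : 16 ≤ p) (w m : ℕ) (hw : w < 10) (hm : m < 6) :
    Un p ((w : ℚ) + (m : ℚ) + 1) := by
  have := Un.succ (p := p) (n := w + m) (by omega)
  simpa using this

section main

variable (hp16 : 16 ≤ p) (P P0 : ℚ[X]) (u : ℕ → ℚ)
  (hu : ∀ c, Cg p (u c) (u c)) (hP0 : ∀ w : ℤ, Cg p (P0.eval (w : ℚ)) (P0.eval (w : ℚ)))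
  (hP : ∀ c < p, ∀ w : ℤ, Cg p (P.eval ((c : ℚ) + (p : ℚ) * (w : ℚ))) (u c * P0.eval (w : ℚ)))

include hp16 hP0 in
theorem cg_res0 (m : ℕ) (hm : m < 6) : Cg p (res 6 P0 m) (res 6 P0 m) := by
  have h1 := un_den_erase hp16 m hm
  have h2 := hP0 (-((m : ℤ) + 1))
  push_cast at h2
  exact h2.div h1.cg h1

include hp16 hP in
theorem cg_res (m d : ℕ) (hm : m < 6) (hd : d < p) :
    Cg p ((p : ℚ) ^ 5 * res (6 * p) P (m * p + d)) (u (p - 1 - d) * res 6 P0 m) := by
  have h1 := un_den_erase hp16 m hm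
  have h2 := hP (p - 1 - d) (by omega) (-((m : ℤ) + 1))
  have h3 : (((p - 1 - d : ℕ) : ℚ) + (p : ℚ) * ((-((m : ℤ) + 1) : ℤ) : ℚ))
      = -(((m * p + d : ℕ) : ℚ) + 1) := by
    have : p - 1 - d + d + 1 = p := by omega
    have h4 : ((p - 1 - d : ℕ) : ℚ) + d + 1 = p := by exact_mod_cast this
    push_cast
    linear_combination h4
  rw [h3] at h2
  have h5 := cg_Ep (p := p) d hd (-((m * p + d : ℕ) : ℤ) - 1) ⟨-(m : ℤ), by push_cast; ring⟩
  have h6 := h2.div (h1.cg.mul h5) (h1.mul Un.one)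
  refine h6.congr ?_ ?_
  · unfold res
    rw [prod_den_erase d m hd hm]
    have := p_ne_zero (p := p)
    have h7 := h1.ne_zero
    have h8 := (h5.un Un.one).ne_zero
    field_simp
  · unfold res
    push_cast
    ring

include hp16 hP0 in
theorem cg_q0 (w : ℕ) (hw : w < 10) :
    Cg p ((P0 /ₘ D 6).eval (w : ℚ)) ((P0 /ₘ D 6).eval (w : ℚ)) := by
  rw [eval_divByMonic]
  have h1 : Un p (∏ j ∈ range 6, ((w : ℚ) + (j : ℚ) + 1)) :=
    Un.prod _ fun j hj => un_small hp16 w j hw (mem_range.mp hj)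
  have h2 := hP0 (w : ℤ)
  push_cast at h2
  refine (h2.div h1.cg h1).sub (Cg.sum _ fun j hj => ?_)
  have h3 := un_small hp16 w j hw (mem_range.mp hj)
  exact (cg_res0 hp16 P0 hP0 j (mem_range.mp hj)).div h3.cg h3

include hp16 hP in
theorem cg_Q (w c : ℕ) (hw : w < 10) (hc : c < p) :
    Cg p ((p : ℚ) ^ 6 * (P /ₘ D (6 * p)).eval ((w * p + c : ℕ) : ℚ))
      (u c * (P0 /ₘ D 6).eval (w : ℚ)) := by
  have hp0 := p_ne_zero (p := p)
  have hcast : ((p - 1 - c : ℕ) : ℚ) + c + 1 = p := by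
    have : p - 1 - c + c + 1 = p := by omega
    exact_mod_cast this
  have hcast' : ((p - 1 - c : ℕ) : ℤ) + c + 1 = p := by omega
  rw [eval_divByMonic, eval_divByMonic, mul_sub, mul_sub]
  refine Cg.sub ?_ ?_
  · have h1 : Un p (∏ j ∈ range 6, ((w : ℚ) + (j : ℚ) + 1)) :=
      Un.prod _ fun j hj => un_small hp16 w j hw (mem_range.mp hj)
    have h2 := hP c hc (w : ℤ)
    have h3 : (c : ℚ) + (p : ℚ) * ((w : ℤ) : ℚ) = ((w * p + c : ℕ) : ℚ) := by push_cast; ring
    rw [h3] at h2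
    have hy : ((w * p + c : ℕ) : ℤ) + ((p - 1 - c : ℕ) : ℤ) + 1 = p * ((w : ℤ) + 1) := by
      push_cast; linear_combination hcast'
    have h4 := prod_den (p := p) (p - 1 - c) (by omega) ((w * p + c : ℕ) : ℤ) (w : ℤ) hy
    have h5 := cg_Ep (p := p) (p - 1 - c) (by omega) ((w * p + c : ℕ) : ℤ) ⟨_, hy⟩
    have h6 := h2.div (h1.cg.mul h5) (h1.mul Un.one)
    rw [Int.cast_natCast, Int.cast_natCast] at h4
    refine h6.congr ?_ ?_
    · rw [h4]
      have h7 := h1.ne_zero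
      have h8 := (h5.un Un.one).ne_zero
      field_simp
    · push_cast; ring
  · rw [sum_range_mul' (fun j => res (6 * p) P j / (((w * p + c : ℕ) : ℚ) + (j : ℚ) + 1)) 6 p,
      mul_sum, mul_sum]
    refine Cg.sum _ fun m hm => ?_
    have hm' := mem_range.mp hm
    have hd0 : p - 1 - c ∈ range p := mem_range.mpr (by omega)
    rw [← add_sum_erase (range p) _ hd0, mul_add, mul_sum]
    have h1 := un_small hp16 w m hw hm'
    have h2 := (cg_res hp16 P P0 u hP m (p - 1 - c) hm' (by omega)).div h1.cg h1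
    have h3 : Cg p (∑ d ∈ (range p).erase (p - 1 - c), (p : ℚ) ^ 6 *
        (res (6 * p) P (m * p + d) / (((w * p + c : ℕ) : ℚ) + ((m * p + d : ℕ) : ℚ) + 1)))
        (∑ d ∈ (range p).erase (p - 1 - c), 0) := by
      refine Cg.sum _ fun d hd => ?_
      have hd1 := mem_range.mp (mem_of_mem_erase hd)
      have hd2 := ne_of_mem_erase hd
      have h4 : Un p (((w * p + c : ℕ) : ℚ) + ((m * p + d : ℕ) : ℚ) + 1) := by
        have : ¬ p ∣ (w * p + c) + (m * p + d) + 1 := by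
          have e : (w * p + c) + (m * p + d) + 1 = (w + m) * p + (c + d + 1) := by ring
          rw [e, Nat.dvd_add_right (Dvd.intro_left _ rfl)]
          rintro ⟨t, ht⟩
          rcases t with _ | _ | t
          · omega
          · omega
          · have : p * (t + 1 + 1) = p * t + p + p := by ring
            omega
        simpa using Un.nat (p := p) this
      have h5 := Cg.p_mul ((cg_res hp16 P P0 u hP m d hm' hd1).left.div h4.cg h4)
      exact h5.congr (by ring) rfl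
    refine (h2.add h3).congr ?_ ?_
    · congr 1
      have e : ((w * p + c : ℕ) : ℚ) + ((m * p + (p - 1 - c) : ℕ) : ℚ) + 1
          = (p : ℚ) * ((w : ℚ) + (m : ℚ) + 1) := by
        push_cast; linear_combination hcast
      rw [e]
      have h7 := h1.ne_zero
      field_simp
    · rw [show p - 1 - (p - 1 - c) = c by omega]
      simp only [sum_const_zero, add_zero]
      ring

include hp16 hP in
theorem cg_nc_int (m : ℕ) (hm : m < 10 * p) :
    Cg p ((p : ℚ) ^ 6 * nc (P /ₘ D (6 * p)) m) ((p : ℚ) ^ 6 * nc (P /ₘ D (6 * p)) m) := by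
  unfold nc
  rw [mul_sum]
  refine Cg.sum _ fun i hi => ?_
  have hi' : i < 10 * p := by have := mem_range.mp hi; omega
  have h1 := (cg_Q hp16 P P0 u hP (i / p) (i % p)
    (Nat.div_lt_of_lt_mul (by omega)) (Nat.mod_lt _ hp.out.pos)).left
  rw [Nat.div_add_mod' i p] at h1
  have h2 := (((Cg.int (p := p) (-1)).pow (m - i)).mul (Cg.nat (p := p) (m.choose i))).mul h1
  exact h2.congr (by push_cast; ring) (by push_cast; ring)

include hp16 hP in
theorem cg_nc_top (k : ℕ) (hk : k < 10) :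
    Cg p ((p : ℚ) ^ 6 * nc (P /ₘ D (6 * p)) (k * p + (p - 1)))
      ((∑ c ∈ range p, u c) * nc (P0 /ₘ D 6) k) := by
  unfold nc
  have e : k * p + (p - 1) + 1 = (k + 1) * p := by
    have : p - 1 + 1 = p := by omega
    rw [add_assoc, this]; ring
  rw [e, sum_range_mul' (fun i => (-1) ^ (k * p + (p - 1) - i) *
    (((k * p + (p - 1)).choose i : ℕ) : ℚ) * (P /ₘ D (6 * p)).eval (i : ℚ)) (k + 1) p,
    mul_sum, mul_sum]
  refine Cg.sum _ fun w hw => ?_
  have hw' : w ≤ k := Nat.lt_succ_iff.mp (mem_range.mp hw)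
  rw [mul_sum, sum_mul]
  refine Cg.sum _ fun c hc => ?_
  have hc' := mem_range.mp hc
  have h1 := (cg_choose (p := p) (by omega) k w c hw' hc').mul
    (cg_Q hp16 P P0 u hP w c (by omega) hc')
  exact h1.congr (by ring) (by ring)

include hp16 hP in
theorem cg_Lpoly (a b : ℤ) (hdeg : P.natDegree < 16 * p) (hdeg0 : P0.natDegree ≤ 15) :
    Cg p ((p : ℚ) ^ 8 * Lpoly a b (P /ₘ D (6 * p)))
      (b * (∑ c ∈ range p, u c) * Lpoly 0 1 (P0 /ₘ D 6)) := by
  have h1 : (P /ₘ D (6 * p)).natDegree ≤ 10 * p - 1 := by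
    rw [natDegree_divByMonic _ (D_monic _), D_natDegree]; omega
  have h2 : (P0 /ₘ D 6).natDegree ≤ 9 := by
    rw [natDegree_divByMonic _ (D_monic _), D_natDegree]; omega
  rw [Lpoly_newton _ _ _ _ h1, Lpoly_newton _ _ _ _ h2, show 10 * p - 1 + 1 = 10 * p by omega,
    sum_range_mul' (fun m => nc (P /ₘ D (6 * p)) m * lam a b m) 10 p, mul_sum, mul_sum]
  refine Cg.sum _ fun k hk => ?_
  have hk' := mem_range.mp hk
  have hd0 : p - 1 ∈ range p := mem_range.mpr (by omega)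
  rw [← add_sum_erase (range p) _ hd0, mul_add, mul_sum]
  have h3 := (cg_nc_top hp16 P P0 u hP k hk').mul (cg_lam_top hp16 a b k hk')
  have h4 : Cg p (∑ d ∈ (range p).erase (p - 1), (p : ℚ) ^ 8 *
      (nc (P /ₘ D (6 * p)) (k * p + d) * lam a b (k * p + d)))
      (∑ d ∈ (range p).erase (p - 1), 0) := by
    refine Cg.sum _ fun d hd => ?_
    have hd1 := mem_range.mp (mem_of_mem_erase hd)
    have hd2 := ne_of_mem_erase hd
    have h5 := (cg_nc_int hp16 P P0 u hP (k * p + d) (by nlinarith)).mul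
      (cg_lam_other hp16 a b k d hk' (by omega))
    exact h5.congr (by ring) (by ring)
  refine (h3.add h4).congr (by ring) ?_
  simp only [sum_const_zero, add_zero]
  ring

include hp16 hP in
theorem cg_poles (a b : ℤ) (x : ℚ) (hx : Cg p x x) :
    Cg p ((p : ℚ) ^ 8 * ∑ j ∈ range (6 * p), res (6 * p) P j * (x - a * H 2 j - b * H 3 j))
      (b * (∑ c ∈ range p, u c) *
        ∑ j ∈ range 6, res 6 P0 j * (0 - 0 * H 2 j - 1 * H 3 j)) := by
  rw [sum_range_mul' (fun j => res (6 * p) P j * (x - a * H 2 j - b * H 3 j)) 6 p,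
    mul_sum, mul_sum]
  refine Cg.sum _ fun m hm => ?_
  have hm' := mem_range.mp hm
  rw [← sum_range_reflect u p, mul_sum, mul_sum, sum_mul]
  refine Cg.sum _ fun d hd => ?_
  have hd' := mem_range.mp hd
  have h1 := cg_res hp16 P P0 u hP m d hm' hd'
  have h2 := cg_H (p := p) 2 m d (by omega) (by omega) hd'
  have h3 := cg_H (p := p) 3 m d (by omega) (by omega) hd'
  have h4 := (Cg.p_mul ((((Cg.nat (p := p) p).pow 2).mul hx).sub
    ((Cg.int (p := p) a).mul h2.left))).sub ((Cg.int (p := p) b).mul h3)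
  exact (h1.mul h4).congr (by ring) (by ring)

include hp16 hP in
theorem cg_L (a b : ℤ) (x : ℚ) (hx : Cg p x x)
    (hdeg : P.natDegree < 16 * p) (hdeg0 : P0.natDegree ≤ 15) :
    Cg p ((p : ℚ) ^ 8 * L a b x (6 * p) P) (b * (∑ c ∈ range p, u c) * L 0 1 0 6 P0) := by
  unfold L
  rw [mul_add, mul_add]
  exact (cg_Lpoly hp16 P P0 u hP a b hdeg hdeg0).add (cg_poles hp16 P P0 u hP a b x hx)

end main

end Pool.Agent.P.MP_a89d6d_nt.Z23.Nonzero
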